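import Pool.Agent.N142.CD.RAD

set_option autoImplicit false

namespace Pool.Agent.N142.CD

open Finset Pool.Agent.TH858
open scoped Pointwise

/-- a suitable `l` -/
theorem exists_l (K : ℝ) (hK : 1 ≤ K) : ∃ l : ℕ, 1 ≤ l ∧ 16 * K ≤ 4 ^ l ∧ (l : ℝ) ≤ 5 * Real.log (2 * K) := by
  have hlog2 := Real.log_two_gt_d9
  have hlog2' := Real.log_two_lt_d9
  have hL : Real.log 2 ≤ Real.log (2 * K) := Real.log_le_log (by norm_num) (by linarith)
  have h4 : Real.log 4 = 2 * Real.log 2 := by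
    rw [show (4 : ℝ) = 2 ^ 2 by norm_num, Real.log_pow]; norm_num
  have h16 : Real.log (16 * K) = 3 * Real.log 2 + Real.log (2 * K) := by
    rw [show 16 * K = 2 ^ 3 * (2 * K) by ring, Real.log_mul (by norm_num) (by linarith), Real.log_pow]
    norm_num
  have hq : 0 < Real.log (16 * K) / Real.log 4 := by
    rw [h4, h16]
    apply div_pos <;> linarith
  refine ⟨⌈Real.log (16 * K) / Real.log 4⌉₊, ?_, ?_, ?_⟩
  · exact Nat.one_le_iff_ne_zero.2 (Nat.ceil_pos.2 hq).ne'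
  · have h1 := Nat.le_ceil (Real.log (16 * K) / Real.log 4)
    rw [div_le_iff₀ (by rw [h4]; linarith)] at h1
    have h2 : Real.log (16 * K) ≤ Real.log ((4 : ℝ) ^ ⌈Real.log (16 * K) / Real.log 4⌉₊) := by
      rw [Real.log_pow]; exact h1
    exact (Real.log_le_log_iff (by linarith) (by positivity)).1 h2
  · have h1 := (Nat.ceil_lt_add_one hq.le).le
    have h2 : Real.log (16 * K) / Real.log 4 ≤ 3 * Real.log (2 * K) := by
      rw [div_le_iff₀ (by rw [h4]; linarith), h4, h16]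
      nlinarith
    linarith

/-- the main bound with a free integer parameter `R` -/
theorem core (hAP : S_AP) (hFOU : S_FOU) (hCH : S_CHANG) : ∃ C : ℝ, 1 ≤ C ∧
    ∀ (N : ℕ) [NeZero N] (A : Finset (ZMod N)) (K : ℝ) (R n : ℕ), A.Nonempty → 1 ≤ K →
    ((A + A).card : ℝ) ≤ K * A.card → 2 ≤ R →
    32 * Real.pi * K * (Real.log (N / A.card) + C * Real.log (2 * K) ^ 4) ≤ (R : ℝ) ^ (n + 1) →
    ∃ Γ : Finset (ZMod N), (Γ.card : ℝ) ≤
      8 * (Real.log (N / A.card) + C * Real.log (2 * K) ^ 4) * (n + 1) ∧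
      ∀ y : ZMod N, (∀ g ∈ Γ, CB.nn (g * y) ≤ 1 / (4 * R)) →
        ∃ a₁ ∈ A, ∃ a₂ ∈ A, ∃ a₃ ∈ A, ∃ a₄ ∈ A, y = a₁ + a₂ - a₃ - a₄ := by
  classical
  obtain ⟨C₀, hC₀, hAP⟩ := hAP
  refine ⟨25 * C₀ + 1, by linarith, ?_⟩
  intro N _ A K R n hA hK hAA hR hn
  obtain ⟨l, hl1, hl2, hl3⟩ := exists_l K hK
  obtain ⟨T, hTA, hT1, hT2⟩ := hAP N A K l hA hK hAA hl1
  have hAc : (0 : ℝ) < A.card := by exact_mod_cast hA.card_pos
  have hT : T.Nonempty := by
    rw [nonempty_iff_ne_empty]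
    rintro rfl
    simp at hT1
    exact absurd hT1 (by simpa using hA.ne_empty)
  have hTc : (0 : ℝ) < T.card := by exact_mod_cast hT.card_pos
  have hNpos : (0 : ℝ) < N := by exact_mod_cast NeZero.pos N
  have hL0 : 0 ≤ Real.log (2 * K) := Real.log_nonneg (by linarith)
  have hx0 : 0 ≤ Real.log (N / A.card) := by
    apply Real.log_nonneg
    rw [le_div_iff₀ hAc, one_mul]
    have := card_le_univ A
    rw [ZMod.card] at this
    exact_mod_cast this
  have hW : Real.log (N / T.card) ≤ Real.log (N / A.card) + (25 * C₀ + 1) * Real.log (2 * K) ^ 4 := by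
    have h1 : Real.log (N / T.card) = Real.log (N / A.card) + (Real.log A.card - Real.log T.card) := by
      rw [Real.log_div hNpos.ne' hTc.ne', Real.log_div hNpos.ne' hAc.ne']; ring
    have h2 : Real.log A.card ≤ C₀ * l ^ 2 * Real.log (2 * K) ^ 2 + Real.log T.card := by
      have h3 := Real.log_le_log hAc hT1
      rw [Real.log_mul (Real.exp_pos _).ne' hTc.ne', Real.log_exp] at h3
      exact h3
    have h3 : C₀ * l ^ 2 * Real.log (2 * K) ^ 2 ≤ C₀ * (5 * Real.log (2 * K)) ^ 2 * Real.log (2 * K) ^ 2 := by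
      gcongr
    have h4 : C₀ * (5 * Real.log (2 * K)) ^ 2 * Real.log (2 * K) ^ 2 = 25 * C₀ * Real.log (2 * K) ^ 4 := by ring
    have h5 : 0 ≤ Real.log (2 * K) ^ 4 := by positivity
    rw [h1]
    linarith
  obtain ⟨Λ, hΛ, hΛ2⟩ := hCH N T hT
  have hΛ' : (Λ.card : ℝ) ≤ 8 * (Real.log (N / A.card) + (25 * C₀ + 1) * Real.log (2 * K) ^ 4) :=
    hΛ.trans (by gcongr)
  obtain ⟨Γ, hΓ⟩ : ∃ Γ : Finset (ZMod N), Γ = (Λ ×ˢ range (n + 1)).image
    fun p => ((R ^ p.2 : ℕ) : ZMod N) * p.1 := ⟨_, rfl⟩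
  refine ⟨Γ, ?_, ?_⟩
  · have h1 : (Γ.card : ℝ) ≤ Λ.card * (n + 1) := by
      have : Γ.card ≤ Λ.card * (n + 1) := by
        rw [hΓ]
        refine card_image_le.trans ?_
        rw [card_product, card_range]
      exact_mod_cast this
    refine h1.trans ?_
    gcongr
  · intro y hy
    refine hFOU N A T K l hA hT hK hAA hl1 hl2 hT2 y fun γ hγ => ?_
    obtain ⟨ε, hε, rfl⟩ := hΛ2 γ hγ
    refine bohr_small Λ R n hR K hK ?_ y ?_ ε hε
    · refine le_trans ?_ hn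
      calc 4 * Real.pi * K * Λ.card ≤ 4 * Real.pi * K *
            (8 * (Real.log (N / A.card) + (25 * C₀ + 1) * Real.log (2 * K) ^ 4)) := by
            have := Real.pi_pos
            gcongr
        _ = _ := by ring
    · intro z hz i hi
      refine hy _ ?_
      rw [hΓ, mem_image]
      exact ⟨(z, i), mem_product.2 ⟨hz, mem_range.2 hi⟩, rfl⟩

end Pool.Agent.N142.CD
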