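import Pool.Agent.N142.CD.Stm2
import Pool.Agent.N142.CD.ASM

set_option autoImplicit false

namespace Pool.Agent.N142.CD

open Finset Pool.Agent.TH858
open scoped Pointwise

namespace AS

variable {N : ℕ} [NeZero N]

theorem zero_mem_HP (H : AddSubgroup (ZMod N)) {d : ℕ} (a : Fin d → ZMod N) (L : Fin d → ℕ) :
    (0 : ZMod N) ∈ HP H a L := by
  rw [mem_HP]
  refine ⟨0, fun i => by simp, ?_⟩
  have : GP.ev a 0 = 0 := by unfold GP.ev; simp
  rw [this, sub_zero]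
  exact H.zero_mem

theorem neg_mem_HP (H : AddSubgroup (ZMod N)) {d : ℕ} (a : Fin d → ZMod N) (L : Fin d → ℕ) (s : ZMod N)
    (hs : s ∈ HP H a L) : -s ∈ HP H a L := by
  rw [mem_HP] at hs ⊢
  obtain ⟨m, hm, h⟩ := hs
  refine ⟨0 - m, fun i => by simpa using hm i, ?_⟩
  have h1 : GP.ev a (0 - m) = - GP.ev a m := by
    rw [GP.ev_sub]
    have : GP.ev a 0 = 0 := by unfold GP.ev; simp
    rw [this, zero_sub]
  rw [h1]
  have := H.neg_mem h
  rwa [neg_sub, show GP.ev a m - s = -s - -GP.ev a m by ring] at this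

theorem add_mem_HP (H : AddSubgroup (ZMod N)) {d : ℕ} (a : Fin d → ZMod N) (L L' : Fin d → ℕ) (x s : ZMod N)
    (hx : x ∈ HP H a L) (hs : s ∈ HP H a L') : x + s ∈ HP H a (fun i => L i + L' i) := by
  rw [mem_HP] at hx hs ⊢
  obtain ⟨m, hm, h⟩ := hx
  obtain ⟨m', hm', h'⟩ := hs
  refine ⟨m + m', fun i => ?_, ?_⟩
  · rw [Pi.add_apply]
    push_cast
    exact (abs_add_le _ _).trans (add_le_add (hm i) (hm' i))
  · rw [GP.ev_add]
    have := H.add_mem h h'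
    rwa [show x - GP.ev a m + (s - GP.ev a m') = x + s - (GP.ev a m + GP.ev a m') by ring] at this

theorem sum_mem_HP (H : AddSubgroup (ZMod N)) {d : ℕ} (a : Fin d → ZMod N) (L L' : Fin d → ℕ) (x : ZMod N)
    (hx : x ∈ HP H a L) : ∀ (m : ℕ) (s : Fin m → ZMod N), (∀ i, s i ∈ HP H a L') →
      x + ∑ i, s i ∈ HP H a (fun i => L i + m * L' i) := by
  intro m
  induction m with
  | zero => intro s _; simpa using hx
  | succ m ih =>
    intro s hs
    rw [Fin.sum_univ_castSucc, ← add_assoc]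
    have h1 := ih (fun i => s (Fin.castSucc i)) fun i => hs _
    have h2 := add_mem_HP H a _ L' _ _ h1 (hs (Fin.last m))
    have : (fun i => L i + m * L' i + L' i) = fun i => L i + (m + 1) * L' i := by
      funext i; ring
    rw [this] at h2
    exact h2

theorem mono_HP (H : AddSubgroup (ZMod N)) {d : ℕ} (a : Fin d → ZMod N) (L L' : Fin d → ℕ)
    (h : ∀ i, L' i ≤ L i) (hP : ProperH H a L) : ProperH H a L' := by
  intro m m' hm hm' hmm
  exact hP m m' (fun i => (hm i).trans (by exact_mod_cast h i)) (fun i => (hm' i).trans (by exact_mod_cast h i)) hmm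

/-- the neighbourhood of a box has at most twice as many elements -/
theorem box_double {d : ℕ} (L L' : Fin d → ℕ) (h : ∀ i, 4 * (d + 1) * L' i ≤ L i) :
    ((∏ i, (2 * (L i + L' i) + 1) : ℕ) : ℝ) ≤ 2 * ((∏ i, (2 * L i + 1) : ℕ) : ℝ) := by
  have h1 : ((∏ i, (2 * (L i + L' i) + 1) : ℕ) : ℝ) ≤
      ∏ i : Fin d, ((1 + 1 / (4 * ((d : ℝ) + 1))) * (2 * (L i : ℝ) + 1)) := by
    push_cast
    refine prod_le_prod (fun i _ => by positivity) fun i _ => ?_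
    have h2 : 4 * ((d : ℝ) + 1) * L' i ≤ L i := by exact_mod_cast h i
    have hd : (0 : ℝ) < 4 * ((d : ℝ) + 1) := by positivity
    have h3 : (L' i : ℝ) ≤ L i / (4 * ((d : ℝ) + 1)) := by
      rw [le_div_iff₀ hd]; linarith
    have h4 : (1 + 1 / (4 * ((d : ℝ) + 1))) * (2 * (L i : ℝ) + 1) =
        2 * L i + 1 + 2 * (L i / (4 * ((d : ℝ) + 1))) + 1 / (4 * ((d : ℝ) + 1)) := by
      field_simp
      ring
    rw [h4]
    have : 0 < 1 / (4 * ((d : ℝ) + 1)) := by positivity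
    linarith
  refine h1.trans ?_
  rw [prod_mul_distrib, prod_const, card_univ, Fintype.card_fin]
  push_cast
  refine mul_le_mul_of_nonneg_right ?_ (by positivity)
  have h5 : (1 + 1 / (4 * ((d : ℝ) + 1))) ≤ Real.exp (1 / (4 * ((d : ℝ) + 1))) := by
    have := Real.add_one_le_exp (1 / (4 * ((d : ℝ) + 1)))
    linarith
  calc (1 + 1 / (4 * ((d : ℝ) + 1))) ^ d ≤ Real.exp (1 / (4 * ((d : ℝ) + 1))) ^ d :=
        pow_le_pow_left₀ (by positivity) h5 d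
    _ = Real.exp (d * (1 / (4 * ((d : ℝ) + 1)))) := by rw [← Real.exp_nat_mul]
    _ ≤ Real.exp (1 / 2) := by
        apply Real.exp_le_exp.2
        rw [mul_one_div, div_le_iff₀ (by positivity)]
        linarith
    _ ≤ 2 := by
        have h6 := Real.exp_one_lt_d9
        have h7 : Real.exp (1 / 2) ^ 2 = Real.exp 1 := by
          rw [← Real.exp_nat_mul]; norm_num
        have h8 := Real.exp_pos (1 / 2)
        nlinarith

/-- the ratio of the numbers of elements of a box and of a shorter box -/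
theorem box_ratio {d : ℕ} (L : Fin d → ℕ) (q : ℕ) (hq : 1 ≤ q) :
    ((∏ i, (2 * L i + 1) : ℕ) : ℝ) ≤ (2 * (q : ℝ)) ^ d * ((∏ i, (2 * (L i / q) + 1) : ℕ) : ℝ) := by
  have h1 : (∏ i, (2 * L i + 1) : ℕ) ≤ ∏ i : Fin d, (2 * q * (2 * (L i / q) + 1)) := by
    refine prod_le_prod' fun i _ => ?_
    have h2 := Nat.lt_mul_div_succ (L i) (by omega : 0 < q)
    have h3 : q * (L i / q + 1) ≤ q * (2 * (L i / q) + 1) := Nat.mul_le_mul_left _ (by omega)
    have h4 : 2 * q * (2 * (L i / q) + 1) = 2 * (q * (2 * (L i / q) + 1)) := by ring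
    omega
  have h2 : (∏ i : Fin d, (2 * q * (2 * (L i / q) + 1)) : ℕ) = (2 * q) ^ d * ∏ i, (2 * (L i / q) + 1) := by
    rw [prod_mul_distrib, prod_const, card_univ, Fintype.card_fin]
  rw [h2] at h1
  exact_mod_cast h1

/-- pigeonhole -/
theorem pigeon (A Tc X : Finset (ZMod N)) (hcov : ∀ x ∈ A, ∃ t ∈ Tc, x - t ∈ X) (hA : A.Nonempty) :
    ∃ t ∈ Tc, A.card ≤ Tc.card * (A.filter fun x => x - t ∈ X).card := by
  classical
  by_contra hcon
  push Not at hcon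
  have h1 : A ⊆ Tc.biUnion fun t => A.filter fun x => x - t ∈ X := by
    intro a ha
    obtain ⟨t, ht, h⟩ := hcov a ha
    exact mem_biUnion.2 ⟨t, ht, mem_filter.2 ⟨ha, h⟩⟩
  have hTne : Tc.Nonempty := by
    obtain ⟨a, ha⟩ := hA
    obtain ⟨t, ht, _⟩ := hcov a ha
    exact ⟨t, ht⟩
  have h2 : A.card ≤ ∑ t ∈ Tc, (A.filter fun x => x - t ∈ X).card :=
    (card_le_card h1).trans card_biUnion_le
  have h3 : ∑ t ∈ Tc, Tc.card * (A.filter fun x => x - t ∈ X).card < ∑ _t ∈ Tc, A.card :=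
    sum_lt_sum_of_nonempty hTne hcon
  rw [← mul_sum, sum_const, smul_eq_mul] at h3
  have h4 : Tc.card * A.card ≤ Tc.card * ∑ t ∈ Tc, (A.filter fun x => x - t ∈ X).card :=
    Nat.mul_le_mul_left _ h2
  omega

/-- a set covered by translates is small -/
theorem cover_card (A Tc X : Finset (ZMod N)) (hcov : ∀ x ∈ A, ∃ t ∈ Tc, x - t ∈ X) :
    A.card ≤ Tc.card * X.card := by
  classical
  have h1 : A ⊆ Tc.biUnion fun t => X.image fun x => x + t := by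
    intro a ha
    obtain ⟨t, ht, h⟩ := hcov a ha
    exact mem_biUnion.2 ⟨t, ht, mem_image.2 ⟨a - t, h, by ring⟩⟩
  refine (card_le_card h1).trans (card_biUnion_le.trans ?_)
  calc ∑ t ∈ Tc, (X.image fun x => x + t).card ≤ ∑ _t ∈ Tc, X.card := sum_le_sum fun _ _ => card_image_le
    _ = Tc.card * X.card := by rw [sum_const, smul_eq_mul]

end AS

/-- the combinatorial part, without the estimates -/
theorem comb (hFOU : S_FOU) (hVOL : S_VOL) (hINV : S_INV) (hLCH : S_LCH)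
    (N : ℕ) [NeZero N] (A T₁ : Finset (ZMod N)) (K : ℝ) (l : ℕ) (hA : A.Nonempty) (hK : 1 ≤ K)
    (hAA : ((A + A).card : ℝ) ≤ K * A.card) (hl1 : 1 ≤ l) (hl2 : 16 * K ≤ 4 ^ l)
    (hT : T₁.Nonempty)
    (hT2 : ∀ s ∈ T₁, ∀ s' ∈ T₁, ∀ y : ZMod N, |gn A (A + A) (y + s - s') - gn A (A + A) y| ≤ 1 / (16 * l))
    (H : AddSubgroup (ZMod N)) (d : ℕ) (a : Fin d → ZMod N) (L : Fin d → ℕ) (hP : ProperH H a L) (t : ZMod N)
    (hTX : ∀ x ∈ T₁, x - t ∈ HP H a L) (n M : ℕ)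
    (hn : 8 * Real.log (4 * (HP H a L).card / T₁.card) ≤ n) (hM : 32 * ((d : ℝ) + 1) * K ≤ M)
    (R J : ℕ) (hR : (d : ℝ) + 2 ≤ R) (hJ : 8 * Real.pi * K * n ≤ (R : ℝ) ^ (J + 1)) :
    ∃ Γ : Finset (ZMod N), (Γ.card : ℝ) ≤ n * (J + 1) + (175 * d + 1 +
      5 * (Real.log (N / (Nat.card H * (∏ i, (2 * (L i / (4 * (d + 1) * (n + 1) * M)) + 1) : ℕ))) / Real.log R)) ∧
      ∀ y : ZMod N, (∀ g ∈ Γ, CB.nn (g * y) ≤ 1 / (8 * R)) →
        ∃ a₁ ∈ A, ∃ a₂ ∈ A, ∃ a₃ ∈ A, ∃ a₄ ∈ A, y = a₁ + a₂ - a₃ - a₄ := by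
  classical
  have hKpos : 0 < K := by linarith
  have hM1R : (1 : ℝ) ≤ M := by
    have : (1 : ℝ) ≤ 32 * ((d : ℝ) + 1) * K := by
      have h1 : (0 : ℝ) ≤ d := Nat.cast_nonneg d
      nlinarith
    linarith
  have hM1 : 1 ≤ M := by exact_mod_cast hM1R
  have hR2 : 2 ≤ R := by
    have : (2 : ℝ) ≤ R := by
      have h1 : (0 : ℝ) ≤ d := Nat.cast_nonneg d
      linarith
    exact_mod_cast this
  have hR0 : (0 : ℝ) < R := by exact_mod_cast (by omega : 0 < R)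
  obtain ⟨m, hm⟩ : ∃ m : ℕ, m = n + 1 := ⟨_, rfl⟩
  obtain ⟨L₂, hL₂⟩ : ∃ L₂ : Fin d → ℕ, L₂ = fun i => L i / (4 * (d + 1) * m) := ⟨_, rfl⟩
  obtain ⟨L₃, hL₃⟩ : ∃ L₃ : Fin d → ℕ, L₃ = fun i => L₂ i / M := ⟨_, rfl⟩
  have hq : 0 < 4 * (d + 1) * m := by rw [hm]; positivity
  have h21 : ∀ i, 4 * (d + 1) * m * L₂ i ≤ L i := fun i => by rw [hL₂]; exact Nat.mul_div_le _ _
  have h32 : ∀ i, M * L₃ i ≤ L₂ i := fun i => by rw [hL₃]; exact Nat.mul_div_le _ _
  have h32' : ∀ i, L₃ i ≤ L₂ i := fun i => by rw [hL₃]; exact Nat.div_le_self _ _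
  have h21' : ∀ i, 4 * L₂ i ≤ L i := fun i => by
    have h1 := h21 i
    have h2 : 4 * L₂ i ≤ 4 * (d + 1) * m * L₂ i := by
      have : 1 ≤ (d + 1) * m := by rw [hm]; exact Nat.one_le_iff_ne_zero.2 (by positivity)
      calc 4 * L₂ i = 4 * 1 * L₂ i := by ring
        _ ≤ 4 * ((d + 1) * m) * L₂ i := by gcongr
        _ = _ := by ring
    omega
  -- Chang
  obtain ⟨X, hX⟩ : ∃ X, X = HP H a L := ⟨_, rfl⟩
  obtain ⟨S, hS⟩ : ∃ S, S = HP H a L₂ := ⟨_, rfl⟩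
  obtain ⟨Y, hY⟩ : ∃ Y, Y = HP H a (fun i => L i + m * L₂ i) := ⟨_, rfl⟩
  have hYX : (Y.card : ℝ) ≤ 2 * X.card := by
    have h1 := (hVOL N H d a (fun i => L i + m * L₂ i)).1
    have h2 := (hVOL N H d a L).2 hP
    rw [← hY] at h1
    rw [← hX] at h2
    have h3 := AS.box_double L (fun i => m * L₂ i) (fun i => by
      have := h21 i
      calc 4 * (d + 1) * (m * L₂ i) = 4 * (d + 1) * m * L₂ i := by ring
        _ ≤ L i := this)
    calc (Y.card : ℝ) ≤ ((Nat.card H * ∏ i, (2 * (L i + m * L₂ i) + 1) : ℕ) : ℝ) := by exact_mod_cast h1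
      _ = (Nat.card H : ℝ) * ((∏ i, (2 * (L i + m * L₂ i) + 1) : ℕ) : ℝ) := by push_cast; ring
      _ ≤ (Nat.card H : ℝ) * (2 * ((∏ i, (2 * L i + 1) : ℕ) : ℝ)) := by gcongr
      _ = 2 * ((Nat.card H * ∏ i, (2 * L i + 1) : ℕ) : ℝ) := by push_cast; ring
      _ = 2 * X.card := by rw [h2]
  obtain ⟨Λ, hΛn, hΛ⟩ := hLCH N T₁ X Y S t m n hT ⟨0, by rw [hS]; exact AS.zero_mem_HP H a L₂⟩
    (fun s hs => by rw [hS] at hs ⊢; exact AS.neg_mem_HP H a L₂ s hs)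
    (fun x hx => by rw [hX]; exact hTX x hx)
    (fun x hx s hs => by
      rw [hY]
      rw [hX] at hx
      exact AS.sum_mem_HP H a L L₂ x hx m s fun i => by have := hs i; rwa [hS] at this)
    hYX (by rw [hX]; exact hn) (by omega)
  -- the Bohr set in the short coset progression
  have hL₃eq : L₃ = fun i => L i / (4 * (d + 1) * (n + 1) * M) := by
    rw [hL₃, hL₂, hm]
    funext i
    rw [Nat.div_div_eq_div_mul]
  obtain ⟨Γ₁, hΓ1, hΓ1'⟩ := GP.coset H a L₃ (AS.mono_HP H a L L₃ (fun i => by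
    have h1 := h32' i
    have h2 := h21' i
    omega) hP) R hR
  obtain ⟨Γ₂, hΓ2⟩ : ∃ Γ₂ : Finset (ZMod N), Γ₂ = (Λ ×ˢ range (J + 1)).image
    fun p => ((R ^ p.2 : ℕ) : ZMod N) * p.1 := ⟨_, rfl⟩
  refine ⟨Γ₂ ∪ Γ₁, ?_, ?_⟩
  · have h1 : (Γ₂.card : ℝ) ≤ n * (J + 1) := by
      have : Γ₂.card ≤ n * (J + 1) := by
        rw [hΓ2]
        refine card_image_le.trans ?_
        rw [card_product, card_range]
        exact Nat.mul_le_mul_right _ hΛn
      exact_mod_cast this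
    have h2 : ((Γ₂ ∪ Γ₁).card : ℝ) ≤ Γ₂.card + Γ₁.card := by exact_mod_cast card_union_le _ _
    rw [GP.card_box, hL₃eq] at hΓ1
    linarith
  · intro y hy
    refine hFOU N A T₁ K l hA hT hK hAA hl1 hl2 hT2 y fun γ hγ => ?_
    obtain ⟨ε, hε, hδ⟩ := hΛ γ hγ
    obtain ⟨δ, hδ'⟩ : ∃ δ : ZMod N, δ = γ - ∑ z ∈ Λ, (ε z : ZMod N) * z := ⟨_, rfl⟩
    rw [← hδ'] at hδ
    have hyL : y ∈ HP H a L₃ := by
      obtain ⟨h, hh, k, hk, he⟩ := hΓ1' y fun g hg => hy g (mem_union_right _ hg)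
      rw [mem_HP]
      exact ⟨k, hk, by rw [he]; simpa using hh⟩
    have h1 : ‖ψ (δ * y) - 1‖ ≤ 1 / (16 * K) := by
      have h2 := hINV N H d M a L L₂ L₃ hP hM1 (fun i => by
        have h1 := h32' i
        have h2 := h21' i
        omega) h32 δ (by rw [hS] at hδ; exact hδ) y hyL
      refine h2.trans ?_
      rw [div_le_div_iff₀ (by linarith) (by positivity)]
      nlinarith
    have h2 : ‖ψ ((∑ z ∈ Λ, (ε z : ZMod N) * z) * y) - 1‖ ≤ 1 / (8 * (2 * K)) := by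
      refine bohr_small Λ R J hR2 (2 * K) (by linarith) ?_ y ?_ ε hε
      · refine le_trans ?_ hJ
        have h3 : (Λ.card : ℝ) ≤ n := by exact_mod_cast hΛn
        have := Real.pi_pos
        calc 4 * Real.pi * (2 * K) * Λ.card ≤ 4 * Real.pi * (2 * K) * n := by gcongr
          _ = 8 * Real.pi * K * n := by ring
      · intro z hz i hi
        have h3 := hy (((R ^ i : ℕ) : ZMod N) * z) (mem_union_left _ (by
          rw [hΓ2, mem_image]
          exact ⟨(z, i), mem_product.2 ⟨hz, mem_range.2 hi⟩, rfl⟩))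
        refine h3.trans ?_
        apply one_div_le_one_div_of_le (by positivity)
        linarith
    have h3 : γ * y = (∑ z ∈ Λ, (ε z : ZMod N) * z) * y + δ * y := by rw [hδ']; ring
    rw [h3]
    refine (GP.norm_ψ_sub_one_add _ _).trans ?_
    calc ‖ψ ((∑ z ∈ Λ, (ε z : ZMod N) * z) * y) - 1‖ + ‖ψ (δ * y) - 1‖ ≤ 1 / (8 * (2 * K)) + 1 / (16 * K) :=
          add_le_add h2 h1
      _ = 1 / (8 * K) := by field_simp; ring

end Pool.Agent.N142.CD
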