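import Mathlib

/-!
# Project CD (helper142): Q1 of MP_169871_nt for sets of small doubling

Definitions and statements of the parts. `ψ` is the standard character of `ℤ/N`.
-/

set_option autoImplicit false

namespace Pool.Agent.N142.CD

open Finset
open scoped Pointwise

/-- the standard character `c ↦ e(c / N)` -/
noncomputable abbrev ψ {N : ℕ} [NeZero N] (c : ZMod N) : ℂ := ZMod.stdAddChar c

/-- `F(x)`: the proportion of the `a ∈ A` with `x + a ∈ S` -/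
noncomputable def Fn {N : ℕ} (A S : Finset (ZMod N)) (x : ZMod N) : ℝ :=
  (∑ a ∈ A, if x + a ∈ S then (1 : ℝ) else 0) / A.card

/-- `g(y)`: the mean of `F(x + y)` over `x ∈ A` -/
noncomputable def gn {N : ℕ} (A S : Finset (ZMod N)) (y : ZMod N) : ℝ :=
  (∑ x ∈ A, Fn A S (x + y)) / A.card

/-- MOM: moments of a sum of `k` independent samples -/
def S_MOM : Prop := ∀ (G : Type) (A : Finset G) (f : G → ℝ) (k m : ℕ), A.Nonempty → 1 ≤ k → 1 ≤ m →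
  (∀ a ∈ A, 0 ≤ f a ∧ f a ≤ 1) →
  ∑ a ∈ Fintype.piFinset (fun _ : Fin k => A), (∑ i, (f (a i) - (∑ b ∈ A, f b) / A.card)) ^ (2 * m) ≤
    (A.card : ℝ) ^ k * (6 * m * k) ^ m

/-- CS: the Croot-Sisask argument -/
def S_CS : Prop := ∀ (N : ℕ) [NeZero N] (A S : Finset (ZMod N)) (K : ℝ) (k m : ℕ), A.Nonempty →
  ((A + A).card : ℝ) ≤ K * A.card → 1 ≤ k → 1 ≤ m →
  ∃ T : Finset (ZMod N), T ⊆ A ∧ (A.card : ℝ) ≤ 2 * K ^ k * T.card ∧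
    ∀ s ∈ T, ∀ s' ∈ T, ∑ x, (Fn A S (x + s) - Fn A S (x + s')) ^ (2 * m) ≤
      2 ^ (2 * m) * (2 * ((S - A).card * (6 * m / k : ℝ) ^ m))

/-- AP: almost periodicity of `g` under the differences of a large set -/
def S_AP : Prop := ∃ C : ℝ, 0 < C ∧ ∀ (N : ℕ) [NeZero N] (A : Finset (ZMod N)) (K : ℝ) (l : ℕ),
  A.Nonempty → 1 ≤ K → ((A + A).card : ℝ) ≤ K * A.card → 1 ≤ l →
  ∃ T : Finset (ZMod N), T ⊆ A ∧
    (A.card : ℝ) ≤ Real.exp (C * l ^ 2 * Real.log (2 * K) ^ 2) * T.card ∧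
    ∀ s ∈ T, ∀ s' ∈ T, ∀ y : ZMod N, |gn A (A + A) (y + s - s') - gn A (A + A) y| ≤ 1 / (16 * l)

/-- FOU: the Fourier step -/
def S_FOU : Prop := ∀ (N : ℕ) [NeZero N] (A T : Finset (ZMod N)) (K : ℝ) (l : ℕ),
  A.Nonempty → T.Nonempty → 1 ≤ K → ((A + A).card : ℝ) ≤ K * A.card → 1 ≤ l → 16 * K ≤ 4 ^ l →
  (∀ s ∈ T, ∀ s' ∈ T, ∀ y : ZMod N, |gn A (A + A) (y + s - s') - gn A (A + A) y| ≤ 1 / (16 * l)) →
  ∀ y : ZMod N, (∀ γ : ZMod N, (T.card : ℝ) / 2 ≤ ‖∑ t ∈ T, ψ (γ * t)‖ → ‖ψ (γ * y) - 1‖ ≤ 1 / (8 * K)) →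
    ∃ a₁ ∈ A, ∃ a₂ ∈ A, ∃ a₃ ∈ A, ∃ a₄ ∈ A, y = a₁ + a₂ - a₃ - a₄

/-- CHANG: Chang's theorem for the spectrum at `1/2` -/
def S_CHANG : Prop := ∀ (N : ℕ) [NeZero N] (T : Finset (ZMod N)), T.Nonempty →
  ∃ Λ : Finset (ZMod N), (Λ.card : ℝ) ≤ 8 * Real.log (N / T.card) ∧
    ∀ γ : ZMod N, (T.card : ℝ) / 2 ≤ ‖∑ t ∈ T, ψ (γ * t)‖ →
      ∃ ε : ZMod N → ℤ, (∀ z, ε z = 0 ∨ ε z = 1 ∨ ε z = -1) ∧ γ = ∑ z ∈ Λ, (ε z : ZMod N) * z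

end Pool.Agent.N142.CD
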