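import Mathlib
import Pool.Agent.N142.CD.Stm

/-!
# CD/CHANG: Chang's theorem for the spectrum at 1/2, by Rudin's argument
-/

set_option autoImplicit false
set_option linter.all false

open scoped Classical

namespace Pool.Agent.N142.CD.CHANG

open Finset
open Pool.Agent.N142.CD
open scoped ComplexConjugate

variable {N : ℕ} [NeZero N]

/-- only the trivial relation with coefficients 0, 1, -1 -/
def Dis (Λ : Finset (ZMod N)) : Prop :=
  ∀ e : ZMod N → ℤ, (∀ z, e z = 0 ∨ e z = 1 ∨ e z = -1) → ∑ z ∈ Λ, (e z : ZMod N) * z = 0 →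
    ∀ z ∈ Λ, e z = 0

/-- the sum with a frequency -/
noncomputable def SS (c0 : ℂ) (a b : ZMod N → ℂ) (c : ZMod N) (Λ : Finset (ZMod N)) : ℂ :=
  ∑ t : ZMod N, ψ (c * t) * ∏ z ∈ Λ, (c0 + a z * ψ (z * t) + b z * ψ (-(z * t)))

theorem SS_insert (c0 : ℂ) (a b : ZMod N → ℂ) (c z : ZMod N) (Λ : Finset (ZMod N)) (hz : z ∉ Λ) :
    SS c0 a b c (insert z Λ) = c0 * SS c0 a b c Λ + a z * SS c0 a b (c + z) Λ +
      b z * SS c0 a b (c - z) Λ := by
  unfold SS
  rw [mul_sum, mul_sum, mul_sum, ← sum_add_distrib, ← sum_add_distrib]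
  refine sum_congr rfl fun t _ => ?_
  rw [prod_insert hz]
  have h1 : ψ ((c + z) * t) = ψ (c * t) * ψ (z * t) := by
    rw [add_mul]; exact AddChar.map_add_eq_mul _ _ _
  have h2 : ψ ((c - z) * t) = ψ (c * t) * ψ (-(z * t)) := by
    rw [sub_mul, sub_eq_add_neg]; exact AddChar.map_add_eq_mul _ _ _
  rw [h1, h2]
  ring

theorem SS_empty (c0 : ℂ) (a b : ZMod N → ℂ) (c : ZMod N) :
    SS c0 a b c ∅ = if c = 0 then (N : ℂ) else 0 := by
  unfold SS
  have h := AddChar.sum_mulShift (ψ := ZMod.stdAddChar (N := N)) c (ZMod.isPrimitive_stdAddChar N)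
  have h2 : ∑ t : ZMod N, ψ (c * t) * ∏ z ∈ (∅ : Finset (ZMod N)),
      (c0 + a z * ψ (z * t) + b z * ψ (-(z * t))) = ∑ x : ZMod N, ZMod.stdAddChar (x * c) := by
    refine sum_congr rfl fun t _ => ?_
    rw [prod_empty, mul_one, mul_comm c t]
  rw [h2, h, ZMod.card]
  split_ifs <;> simp

theorem sum_update (e : ZMod N → ℤ) (z : ZMod N) (v : ℤ) (Λ : Finset (ZMod N)) (hz : z ∉ Λ) :
    ∑ w ∈ Λ, ((Function.update e z v w : ℤ) : ZMod N) * w = ∑ w ∈ Λ, (e w : ZMod N) * w := by
  refine sum_congr rfl fun w hw => ?_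
  have h : w ≠ z := fun h => hz (h ▸ hw)
  rw [Function.update_of_ne h]

theorem upd_ok {e : ZMod N → ℤ} (he : ∀ z, e z = 0 ∨ e z = 1 ∨ e z = -1) (z : ZMod N) {v : ℤ}
    (hv : v = 0 ∨ v = 1 ∨ v = -1) (w : ZMod N) :
    Function.update e z v w = 0 ∨ Function.update e z v w = 1 ∨ Function.update e z v w = -1 := by
  by_cases h : w = z
  · subst h; rw [Function.update_self]; exact hv
  · rw [Function.update_of_ne h]; exact he w

theorem SS_zero (c0 : ℂ) (a b : ZMod N → ℂ) (Λ : Finset (ZMod N)) : ∀ c : ZMod N,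
    (∀ e : ZMod N → ℤ, (∀ z, e z = 0 ∨ e z = 1 ∨ e z = -1) →
      ∑ z ∈ Λ, (e z : ZMod N) * z + c ≠ 0) → SS c0 a b c Λ = 0 := by
  induction Λ using Finset.induction_on with
  | empty =>
    intro c h
    rw [SS_empty, if_neg]
    intro hc
    exact h (fun _ => 0) (fun _ => Or.inl rfl) (by simp [hc])
  | insert z Λ hz ih =>
    intro c h
    have key : ∀ v : ℤ, (v = 0 ∨ v = 1 ∨ v = -1) → SS c0 a b (c + v * z) Λ = 0 := by
      intro v hv
      refine ih _ fun e he h0 => h (Function.update e z v) (upd_ok he z hv) ?_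
      rw [sum_insert hz, sum_update _ _ _ _ hz, Function.update_self]
      rw [← h0]; ring
    rw [SS_insert _ _ _ _ _ _ hz]
    have k0 := key 0 (Or.inl rfl)
    have k1 := key 1 (Or.inr (Or.inl rfl))
    have k2 := key (-1) (Or.inr (Or.inr rfl))
    have e0 : c + ((0 : ℤ) : ZMod N) * z = c := by push_cast; ring
    have e1 : c + ((1 : ℤ) : ZMod N) * z = c + z := by push_cast; ring
    have e2 : c + ((-1 : ℤ) : ZMod N) * z = c - z := by push_cast; ring
    rw [e0] at k0
    rw [e1] at k1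
    rw [e2] at k2
    rw [k0, k1, k2]
    ring

theorem SS_dis (c0 : ℂ) (a b : ZMod N → ℂ) (Λ : Finset (ZMod N)) (hΛ : Dis Λ) :
    SS c0 a b 0 Λ = N * c0 ^ Λ.card := by
  induction Λ using Finset.induction_on with
  | empty => rw [SS_empty, if_pos rfl]; simp
  | insert z Λ hz ih =>
    have hd : Dis Λ := by
      intro e he h0 w hw
      have h1 := hΛ (Function.update e z 0) (upd_ok he z (Or.inl rfl)) (by
        rw [sum_insert hz, sum_update _ _ _ _ hz, Function.update_self, h0]; simp) w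
        (mem_insert_of_mem hw)
      have h : w ≠ z := fun h => hz (h ▸ hw)
      rwa [Function.update_of_ne h] at h1
    have h1 : SS c0 a b (0 + z) Λ = 0 := by
      refine SS_zero _ _ _ _ _ fun e he h0 => ?_
      have h2 := hΛ (Function.update e z 1) (upd_ok he z (Or.inr (Or.inl rfl))) (by
        rw [sum_insert hz, sum_update _ _ _ _ hz, Function.update_self, ← h0]; push_cast; ring) z
        (mem_insert_self _ _)
      rw [Function.update_self] at h2
      exact one_ne_zero h2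
    have h2 : SS c0 a b (0 - z) Λ = 0 := by
      refine SS_zero _ _ _ _ _ fun e he h0 => ?_
      have h2 := hΛ (Function.update e z (-1)) (upd_ok he z (Or.inr (Or.inr rfl))) (by
        rw [sum_insert hz, sum_update _ _ _ _ hz, Function.update_self, ← h0]; push_cast; ring) z
        (mem_insert_self _ _)
      rw [Function.update_self] at h2
      exact absurd h2 (by norm_num)
    rw [SS_insert _ _ _ _ _ _ hz, h1, h2, ih hd, card_insert_of_notMem hz]
    ring

theorem exp_half_le {y : ℝ} (h1 : -1 ≤ y) (h2 : y ≤ 1) :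
    Real.exp (y / 2) ≤ Real.cosh (1 / 2) + Real.sinh (1 / 2) * y := by
  have h := convexOn_exp.2 (Set.mem_univ (1 / 2 : ℝ)) (Set.mem_univ (-(1 / 2) : ℝ))
    (show (0 : ℝ) ≤ (1 + y) / 2 by linarith) (show (0 : ℝ) ≤ (1 - y) / 2 by linarith) (by ring)
  simp only [smul_eq_mul] at h
  have e1 : (1 + y) / 2 * (1 / 2) + (1 - y) / 2 * (-(1 / 2)) = y / 2 := by ring
  rw [e1] at h
  refine h.trans (le_of_eq ?_)
  rw [Real.cosh_eq, Real.sinh_eq]
  ring

theorem card_bound (T Λ : Finset (ZMod N)) (hT : T.Nonempty)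
    (hS : ∀ z ∈ Λ, (T.card : ℝ) / 2 ≤ ‖∑ t ∈ T, ψ (z * t)‖) (hΛ : Dis Λ) :
    (Λ.card : ℝ) ≤ 8 * Real.log (N / T.card) := by
  have hTc : (0 : ℝ) < T.card := by exact_mod_cast hT.card_pos
  have hN : (0 : ℝ) < N := by exact_mod_cast Nat.pos_of_ne_zero (NeZero.ne N)
  set h : ZMod N → ℂ := fun z => ∑ t ∈ T, ψ (z * t) with hh
  set u : ZMod N → ℂ := fun z => conj (h z) / ‖h z‖ with hu
  have hu1 : ∀ z, ‖u z‖ ≤ 1 := by
    intro z
    rw [hu]
    simp only
    rw [norm_div, RCLike.norm_conj]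
    simp only [Complex.norm_real, norm_norm]
    exact div_self_le_one _
  have huh : ∀ z ∈ Λ, u z * h z = ‖h z‖ := by
    intro z hz
    have h0 : (0 : ℝ) < ‖h z‖ := lt_of_lt_of_le (by linarith) (hS z hz)
    have h1 : (‖h z‖ : ℂ) ≠ 0 := by exact_mod_cast h0.ne'
    rw [hu]
    simp only
    rw [div_mul_eq_mul_div, div_eq_iff h1, mul_comm, Complex.mul_conj, Complex.normSq_eq_norm_sq]
    push_cast
    ring
  set X : ZMod N → ℝ := fun t => ∑ z ∈ Λ, (u z * ψ (z * t)).re with hX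
  have hsum : (Λ.card : ℝ) * (T.card / 2) ≤ ∑ t ∈ T, X t := by
    rw [hX]
    simp only
    rw [sum_comm, ← nsmul_eq_mul, ← sum_const]
    refine sum_le_sum fun z hz => ?_
    have h1 : ∑ t ∈ T, (u z * ψ (z * t)).re = (u z * h z).re := by
      rw [hh]
      simp only
      rw [mul_sum, Complex.re_sum]
    rw [h1, huh z hz, Complex.ofReal_re]
    exact hS z hz
  set c : ℝ := Real.cosh (1 / 2) with hc
  set s : ℝ := Real.sinh (1 / 2) with hs
  have hψ1 : ∀ x : ZMod N, ‖(ψ x : ℂ)‖ = 1 := fun x => AddChar.norm_apply _ _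
  have hre : ∀ z t, |(u z * ψ (z * t)).re| ≤ 1 := by
    intro z t
    refine (Complex.abs_re_le_norm _).trans ?_
    rw [norm_mul, hψ1, mul_one]
    exact hu1 z
  have hlow : Real.exp (Λ.card / 4) * T.card ≤ ∑ t ∈ T, Real.exp (X t / 2) := by
    have h1 : ∀ t ∈ T, Real.exp (Λ.card / 4) * (1 + (X t / 2 - Λ.card / 4)) ≤ Real.exp (X t / 2) := by
      intro t _
      have h2 := Real.add_one_le_exp (X t / 2 - Λ.card / 4)
      have h3 : Real.exp (X t / 2) = Real.exp (Λ.card / 4) * Real.exp (X t / 2 - Λ.card / 4) := by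
        rw [← Real.exp_add]; congr 1; ring
      rw [h3]
      refine mul_le_mul_of_nonneg_left (by linarith) (Real.exp_pos _).le
    refine le_trans ?_ (sum_le_sum h1)
    rw [← mul_sum]
    refine mul_le_mul_of_nonneg_left ?_ (Real.exp_pos _).le
    rw [sum_add_distrib, sum_sub_distrib, sum_const, sum_const, ← sum_div, nsmul_eq_mul,
      nsmul_eq_mul]
    nlinarith [hsum]
  have hprod : ∀ t : ZMod N, Real.exp (X t / 2) ≤ ∏ z ∈ Λ, (c + s * (u z * ψ (z * t)).re) := by
    intro t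
    rw [hX]
    simp only
    rw [sum_div, Real.exp_sum]
    refine prod_le_prod (fun z _ => (Real.exp_pos _).le) fun z _ => ?_
    have h1 := abs_le.1 (hre z t)
    exact exp_half_le h1.1 h1.2
  have hup : ∑ t ∈ T, Real.exp (X t / 2) ≤ N * c ^ Λ.card := by
    have h1 : ∑ t ∈ T, Real.exp (X t / 2) ≤ ∑ t : ZMod N, ∏ z ∈ Λ, (c + s * (u z * ψ (z * t)).re) :=
      (sum_le_sum_of_subset_of_nonneg (subset_univ T) fun t _ _ => (Real.exp_pos _).le).trans
        (sum_le_sum fun t _ => hprod t)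
    refine h1.trans (le_of_eq ?_)
    have h2 := SS_dis (c : ℂ) (fun z => (s / 2 : ℂ) * u z) (fun z => (s / 2 : ℂ) * conj (u z)) Λ hΛ
    have h3 : ((∑ t : ZMod N, ∏ z ∈ Λ, (c + s * (u z * ψ (z * t)).re) : ℝ) : ℂ) =
        SS (c : ℂ) (fun z => (s / 2 : ℂ) * u z) (fun z => (s / 2 : ℂ) * conj (u z)) 0 Λ := by
      unfold SS
      rw [Complex.ofReal_sum]
      refine sum_congr rfl fun t _ => ?_
      have h4 : (ψ ((0 : ZMod N) * t) : ℂ) = 1 := by
        rw [zero_mul]; exact AddChar.map_zero_eq_one _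
      rw [h4, one_mul, Complex.ofReal_prod]
      refine prod_congr rfl fun z _ => ?_
      have h5 : (ψ (-(z * t)) : ℂ) = conj (ψ (z * t) : ℂ) := AddChar.map_neg_eq_conj _ _
      rw [h5, Complex.ofReal_add, Complex.ofReal_mul]
      have h6 : (((u z * ψ (z * t)).re : ℝ) : ℂ) =
          (u z * ψ (z * t) + conj (u z * ψ (z * t))) / 2 := Complex.re_eq_add_conj _
      rw [h6, map_mul]
      ring
    have h7 : ((∑ t : ZMod N, ∏ z ∈ Λ, (c + s * (u z * ψ (z * t)).re) : ℝ) : ℂ) =
        ((N * c ^ Λ.card : ℝ) : ℂ) := by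
      rw [h3, h2]
      push_cast
      rfl
    exact_mod_cast h7
  have hc1 : c ^ Λ.card ≤ Real.exp (Λ.card / 8) := by
    have h1 : c ≤ Real.exp (1 / 8) := by
      have h2 := Real.cosh_le_exp_half_sq (1 / 2)
      have h3 : ((1 / 2 : ℝ) ^ 2 / 2) = 1 / 8 := by norm_num
      rw [h3] at h2
      exact h2
    have h0 : 0 ≤ c := (Real.cosh_pos _).le
    refine (pow_le_pow_left₀ h0 h1 _).trans (le_of_eq ?_)
    rw [← Real.exp_nat_mul]
    congr 1
    ring
  have hfin : Real.exp (Λ.card / 8) ≤ N / T.card := by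
    rw [le_div_iff₀ hTc]
    have h1 : Real.exp (Λ.card / 4) * T.card ≤ N * Real.exp (Λ.card / 8) :=
      hlow.trans (hup.trans (mul_le_mul_of_nonneg_left hc1 hN.le))
    have h2 : Real.exp ((Λ.card : ℝ) / 4) = Real.exp (Λ.card / 8) * Real.exp (Λ.card / 8) := by
      rw [← Real.exp_add]; congr 1; ring
    rw [h2] at h1
    have h3 := Real.exp_pos ((Λ.card : ℝ) / 8)
    have h4 : Real.exp ((Λ.card : ℝ) / 8) * (Real.exp ((Λ.card : ℝ) / 8) * T.card) ≤
        Real.exp ((Λ.card : ℝ) / 8) * N := by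
      calc _ = Real.exp ((Λ.card : ℝ) / 8) * Real.exp ((Λ.card : ℝ) / 8) * T.card := by ring
        _ ≤ _ := h1
        _ = _ := by ring
    exact le_of_mul_le_mul_left h4 h3
  have h9 : (Λ.card : ℝ) / 8 ≤ Real.log (N / T.card) := by
    rw [Real.le_log_iff_exp_le (div_pos hN hTc)]
    exact hfin
  linarith

end Pool.Agent.N142.CD.CHANG

namespace Pool.Agent.N142.CD

open Finset CHANG

theorem t_CHANG : S_CHANG := by
  intro N _ T hT
  set Sp : Finset (ZMod N) := univ.filter
    (fun γ => (T.card : ℝ) / 2 ≤ ‖∑ t ∈ T, ψ (γ * t)‖) with hSp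
  have hne : (Sp.powerset.filter fun Λ => Dis Λ).Nonempty := by
    refine ⟨∅, ?_⟩
    rw [mem_filter]
    exact ⟨empty_mem_powerset _, fun e _ _ z hz => absurd hz (notMem_empty z)⟩
  obtain ⟨Λ, hΛ, hmax⟩ := exists_max_image _ card hne
  rw [mem_filter, mem_powerset] at hΛ
  refine ⟨Λ, card_bound T Λ hT (fun z hz => (mem_filter.1 (hΛ.1 hz)).2) hΛ.2, fun γ hγ => ?_⟩
  by_cases hg : γ ∈ Λ
  · refine ⟨fun z => if z = γ then 1 else 0, fun z => ?_, ?_⟩
    · by_cases h : z = γ
      · exact Or.inr (Or.inl (if_pos h))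
      · exact Or.inl (if_neg h)
    · rw [sum_eq_single γ]
      · simp
      · intro z _ hz
        simp [hz]
      · intro h
        exact absurd hg h
  · have h1 : ¬ Dis (insert γ Λ) := by
      intro hd
      have h2 := hmax (insert γ Λ) (by
        rw [mem_filter, mem_powerset]
        refine ⟨insert_subset ?_ hΛ.1, hd⟩
        rw [hSp, mem_filter]
        exact ⟨mem_univ _, hγ⟩)
      rw [card_insert_of_notMem hg] at h2
      omega
    unfold Dis at h1
    push_neg at h1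
    obtain ⟨e, he, h0, z, hz, hz0⟩ := h1
    rw [sum_insert hg] at h0
    rcases he γ with h | h | h
    · exfalso
      rw [h] at h0
      have h2 := hΛ.2 e he (by simpa using h0)
      rcases mem_insert.1 hz with h3 | h3
      · exact hz0 (h3 ▸ h)
      · exact hz0 (h2 z h3)
    · refine ⟨fun z => - e z, fun z => ?_, ?_⟩
      · rcases he z with h' | h' | h'
        · left; simp [h']
        · right; right; simp [h']
        · right; left; simp [h']
      · rw [h] at h0
        have h3 : ∑ z ∈ Λ, ((-e z : ℤ) : ZMod N) * z = - ∑ z ∈ Λ, (e z : ZMod N) * z := by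
          rw [← sum_neg_distrib]
          exact sum_congr rfl fun z _ => by push_cast; ring
        rw [h3]
        have h4 : γ + ∑ z ∈ Λ, (e z : ZMod N) * z = 0 := by
          rw [← h0]; push_cast; ring
        exact eq_neg_of_add_eq_zero_left h4
    · refine ⟨e, he, ?_⟩
      rw [h] at h0
      have h4 : ∑ z ∈ Λ, (e z : ZMod N) * z - γ = 0 := by
        rw [← h0]; push_cast; ring
      exact (sub_eq_zero.1 h4).symm

end Pool.Agent.N142.CD
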