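import Pool.Agent.N142.CD.Stm

/-!
# Project CD (helper142), part CS: the Croot-Sisask argument (helper143)
-/

set_option autoImplicit false

namespace Pool.Agent.N142.CD

open Finset
open scoped Pointwise

namespace CS

/-- the sample mean -/
noncomputable def Fa {N : ℕ} (S : Finset (ZMod N)) {k : ℕ} (a : Fin k → ZMod N) (x : ZMod N) : ℝ :=
  (∑ i, if x + a i ∈ S then (1 : ℝ) else 0) / k

theorem Fa_shift {N : ℕ} (S : Finset (ZMod N)) {k : ℕ} (z : Fin k → ZMod N) (x s : ZMod N) :
    Fa S (fun i => z i - s) (x + s) = Fa S z x := by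
  unfold Fa
  congr 1
  refine Finset.sum_congr rfl fun i _ => ?_
  have : x + s + (z i - s) = x + z i := by ring
  rw [this]

theorem step1 (h : S_MOM) {N : ℕ} (A S : Finset (ZMod N)) (k m : ℕ) (hA : A.Nonempty)
    (hk : 1 ≤ k) (hm : 1 ≤ m) (x : ZMod N) :
    ∑ a ∈ Fintype.piFinset (fun _ : Fin k => A), (Fa S a x - Fn A S x) ^ (2 * m) ≤
      (A.card : ℝ) ^ k * (6 * m / k : ℝ) ^ m := by
  have hk' : (0 : ℝ) < k := by exact_mod_cast hk
  have h1 := h (ZMod N) A (fun b => if x + b ∈ S then (1 : ℝ) else 0) k m hA hk hm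
    (fun a _ => by split_ifs <;> norm_num)
  have h2 : ∀ a : Fin k → ZMod N,
      (∑ i, ((if x + a i ∈ S then (1 : ℝ) else 0) -
        (∑ b ∈ A, if x + b ∈ S then (1 : ℝ) else 0) / A.card)) = k * (Fa S a x - Fn A S x) := by
    intro a
    rw [Finset.sum_sub_distrib, Finset.sum_const, Finset.card_univ, Fintype.card_fin, nsmul_eq_mul,
      mul_sub]
    unfold Fa Fn
    congr 1
    field_simp
  have h3 : ∑ a ∈ Fintype.piFinset (fun _ : Fin k => A), ((k : ℝ) * (Fa S a x - Fn A S x)) ^ (2 * m) ≤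
      (A.card : ℝ) ^ k * (6 * m * k) ^ m := by
    refine le_trans (le_of_eq ?_) h1
    refine Finset.sum_congr rfl fun a _ => ?_
    rw [← h2 a]
  have h4 : ∑ a ∈ Fintype.piFinset (fun _ : Fin k => A), ((k : ℝ) * (Fa S a x - Fn A S x)) ^ (2 * m) =
      (k : ℝ) ^ (2 * m) *
        ∑ a ∈ Fintype.piFinset (fun _ : Fin k => A), (Fa S a x - Fn A S x) ^ (2 * m) := by
    rw [Finset.mul_sum]
    refine Finset.sum_congr rfl fun a _ => ?_
    rw [mul_pow]
  rw [h4] at h3
  have hkp : (0 : ℝ) < (k : ℝ) ^ (2 * m) := by positivity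
  have h5 : (k : ℝ) ^ (2 * m) * ((A.card : ℝ) ^ k * (6 * m / k : ℝ) ^ m) =
      (A.card : ℝ) ^ k * (6 * m * k) ^ m := by
    have : (k : ℝ) ^ (2 * m) * (6 * m / k : ℝ) ^ m = (6 * m * k) ^ m := by
      rw [pow_mul, ← mul_pow]
      congr 1
      field_simp
    calc (k : ℝ) ^ (2 * m) * ((A.card : ℝ) ^ k * (6 * m / k : ℝ) ^ m)
        = (A.card : ℝ) ^ k * ((k : ℝ) ^ (2 * m) * (6 * m / k : ℝ) ^ m) := by ring
      _ = _ := by rw [this]
  rw [← h5] at h3
  exact le_of_mul_le_mul_left h3 hkp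

theorem zero_of_notMem {N : ℕ} [NeZero N] (A S : Finset (ZMod N)) (k : ℕ) (x : ZMod N)
    (hx : x ∉ S - A) (a : Fin k → ZMod N) (ha : a ∈ Fintype.piFinset (fun _ : Fin k => A)) :
    Fa S a x - Fn A S x = 0 := by
  have key : ∀ b ∈ A, x + b ∉ S := by
    intro b hb hbS
    apply hx
    have : x = (x + b) - b := by ring
    rw [this]
    exact Finset.sub_mem_sub hbS hb
  have h1 : Fa S a x = 0 := by
    unfold Fa
    rw [Finset.sum_eq_zero, zero_div]
    intro i _
    rw [if_neg (key _ (Fintype.mem_piFinset.1 ha i))]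
  have h2 : Fn A S x = 0 := by
    unfold Fn
    rw [Finset.sum_eq_zero, zero_div]
    intro b hb
    rw [if_neg (key b hb)]
  rw [h1, h2, sub_zero]

theorem step2 (h : S_MOM) {N : ℕ} [NeZero N] (A S : Finset (ZMod N)) (k m : ℕ) (hA : A.Nonempty)
    (hk : 1 ≤ k) (hm : 1 ≤ m) :
    ∑ a ∈ Fintype.piFinset (fun _ : Fin k => A), ∑ x, (Fa S a x - Fn A S x) ^ (2 * m) ≤
      (A.card : ℝ) ^ k * ((S - A).card * (6 * m / k : ℝ) ^ m) := by
  rw [Finset.sum_comm]
  have h1 : ∑ x, ∑ a ∈ Fintype.piFinset (fun _ : Fin k => A), (Fa S a x - Fn A S x) ^ (2 * m) =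
      ∑ x ∈ S - A, ∑ a ∈ Fintype.piFinset (fun _ : Fin k => A), (Fa S a x - Fn A S x) ^ (2 * m) := by
    symm
    apply Finset.sum_subset (Finset.subset_univ _)
    intro x _ hx
    refine Finset.sum_eq_zero fun a ha => ?_
    rw [zero_of_notMem A S k x hx a ha]
    exact zero_pow (by omega)
  rw [h1]
  calc ∑ x ∈ S - A, ∑ a ∈ Fintype.piFinset (fun _ : Fin k => A), (Fa S a x - Fn A S x) ^ (2 * m)
      ≤ ∑ x ∈ S - A, (A.card : ℝ) ^ k * (6 * m / k : ℝ) ^ m :=
        Finset.sum_le_sum fun x _ => step1 h A S k m hA hk hm x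
    _ = (A.card : ℝ) ^ k * ((S - A).card * (6 * m / k : ℝ) ^ m) := by
        rw [Finset.sum_const, nsmul_eq_mul]; ring

/-- Markov's inequality for a sum of nonnegative terms -/
theorem markov {ι : Type*} (P : Finset ι) (E : ι → ℝ) (M : ℝ) (hM : 0 ≤ M) (hE : ∀ a ∈ P, 0 ≤ E a)
    (h : ∑ a ∈ P, E a ≤ P.card * M) :
    (P.card : ℝ) ≤ 2 * (P.filter (fun a => E a ≤ 2 * M)).card := by
  classical
  have hsplit : (P.filter (fun a => E a ≤ 2 * M)).card + (P.filter (fun a => ¬ E a ≤ 2 * M)).card =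
      P.card := Finset.card_filter_add_card_filter_not _
  rcases hM.eq_or_lt with h0 | hpos
  · have hz : ∀ a ∈ P, E a = 0 := by
      rw [← h0, mul_zero] at h
      have := (Finset.sum_eq_zero_iff_of_nonneg hE).1 (le_antisymm h (Finset.sum_nonneg hE))
      exact this
    have : P.filter (fun a => E a ≤ 2 * M) = P := by
      apply Finset.filter_true_of_mem
      intro a ha
      rw [hz a ha, ← h0, mul_zero]
    rw [this]
    have : (0 : ℝ) ≤ P.card := by positivity
    linarith
  · have h1 : ((P.filter (fun a => ¬ E a ≤ 2 * M)).card : ℝ) * (2 * M) ≤ P.card * M := by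
      calc ((P.filter (fun a => ¬ E a ≤ 2 * M)).card : ℝ) * (2 * M)
          = ∑ a ∈ P.filter (fun a => ¬ E a ≤ 2 * M), 2 * M := by
            rw [Finset.sum_const, nsmul_eq_mul]
        _ ≤ ∑ a ∈ P.filter (fun a => ¬ E a ≤ 2 * M), E a := by
            refine Finset.sum_le_sum fun a ha => ?_
            exact (not_le.1 (Finset.mem_filter.1 ha).2).le
        _ ≤ ∑ a ∈ P, E a :=
            Finset.sum_le_sum_of_subset_of_nonneg (Finset.filter_subset _ _)
              (fun a ha _ => hE a ha)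
        _ ≤ P.card * M := h
    have h2 : ((P.filter (fun a => ¬ E a ≤ 2 * M)).card : ℝ) * 2 ≤ P.card := by
      have : (((P.filter (fun a => ¬ E a ≤ 2 * M)).card : ℝ) * 2) * M ≤ P.card * M := by
        linarith
      exact le_of_mul_le_mul_right this hpos
    have h3 : ((P.filter (fun a => E a ≤ 2 * M)).card : ℝ) +
        (P.filter (fun a => ¬ E a ≤ 2 * M)).card = P.card := by exact_mod_cast hsplit
    linarith

theorem double {N : ℕ} [NeZero N] (A : Finset (ZMod N)) (k : ℕ) (L : Finset (Fin k → ZMod N))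
    (hA : A.Nonempty) (hL : L ⊆ Fintype.piFinset (fun _ : Fin k => A)) :
    ∃ z : Fin k → ZMod N, ((A.card : ℝ) * L.card) ≤
      (A + A).card ^ k * (A.filter (fun s => (fun i => z i - s) ∈ L)).card := by
  classical
  set Z := Fintype.piFinset (fun _ : Fin k => A + A) with hZ
  have hZc : Z.card = (A + A).card ^ k := by
    rw [hZ, Fintype.card_piFinset_const]
  have hZne : Z.Nonempty := by
    rw [hZ, Fintype.piFinset_nonempty]
    intro i
    exact hA.add hA
  have hcount : A.card * L.card ≤ ∑ z ∈ Z, (A.filter (fun s => (fun i => z i - s) ∈ L)).card := by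
    have h1 : ∑ z ∈ Z, (A.filter (fun s => (fun i => z i - s) ∈ L)).card =
        ∑ s ∈ A, (Z.filter (fun z => (fun i => z i - s) ∈ L)).card := by
      simp only [Finset.card_filter]
      exact Finset.sum_comm
    rw [h1]
    calc A.card * L.card = ∑ s ∈ A, L.card := by rw [Finset.sum_const, smul_eq_mul]
      _ ≤ ∑ s ∈ A, (Z.filter (fun z => (fun i => z i - s) ∈ L)).card := by
        refine Finset.sum_le_sum fun s hs => ?_
        refine Finset.card_le_card_of_injOn (fun a i => a i + s) ?_ ?_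
        · intro a ha
          have ha' : a ∈ L := ha
          simp only [Finset.coe_filter, Set.mem_setOf_eq]
          refine ⟨?_, ?_⟩
          · rw [hZ, Fintype.mem_piFinset]
            intro i
            exact Finset.add_mem_add (Fintype.mem_piFinset.1 (hL ha') i) hs
          · have : (fun i => a i + s - s) = a := by funext i; ring
            rw [this]
            exact ha'
        · intro a _ b _ hab
          funext i
          have := congrFun hab i
          simpa using this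
  by_contra hcon
  push Not at hcon
  have h2 : ∑ z ∈ Z, (((A + A).card ^ k : ℕ) : ℝ) * ((A.filter (fun s => (fun i => z i - s) ∈ L)).card : ℝ) <
      ∑ z ∈ Z, ((A.card : ℝ) * L.card) := by
    refine Finset.sum_lt_sum_of_nonempty hZne fun z _ => ?_
    have := hcon z
    push_cast
    exact this
  rw [← Finset.mul_sum, Finset.sum_const, nsmul_eq_mul, hZc] at h2
  have hpos : (0 : ℝ) < (((A + A).card ^ k : ℕ) : ℝ) := by
    rw [← hZc]
    exact_mod_cast Finset.card_pos.2 hZne
  have h3 := lt_of_mul_lt_mul_left h2 hpos.le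
  have h4 : ((A.card * L.card : ℕ) : ℝ) ≤
      ((∑ z ∈ Z, (A.filter (fun s => (fun i => z i - s) ∈ L)).card : ℕ) : ℝ) := by
    exact_mod_cast hcount
  push_cast at h4
  linarith

theorem pow_add_le (p q : ℝ) (m : ℕ) (hm : 1 ≤ m) :
    (p + q) ^ (2 * m) ≤ 2 ^ (2 * m - 1) * (p ^ (2 * m) + q ^ (2 * m)) := by
  have h1 : (p + q) ^ (2 * m) = |p + q| ^ (2 * m) := (Even.pow_abs ⟨m, by ring⟩ _).symm
  have h2 : p ^ (2 * m) = |p| ^ (2 * m) := (Even.pow_abs ⟨m, by ring⟩ _).symm
  have h3 : q ^ (2 * m) = |q| ^ (2 * m) := (Even.pow_abs ⟨m, by ring⟩ _).symm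
  rw [h1, h2, h3]
  calc |p + q| ^ (2 * m) ≤ (|p| + |q|) ^ (2 * m) :=
        pow_le_pow_left₀ (abs_nonneg _) (abs_add_le _ _) _
    _ ≤ _ := add_pow_le (abs_nonneg _) (abs_nonneg _) _

end CS

open CS in
theorem t_CS (h : S_MOM) : S_CS := by
  classical
  intro N _ A S K k m hA hK hk hm
  set M : ℝ := (S - A).card * (6 * m / k : ℝ) ^ m with hMdef
  have hM : 0 ≤ M := by positivity
  set P := Fintype.piFinset (fun _ : Fin k => A) with hP
  set E : (Fin k → ZMod N) → ℝ := fun a => ∑ x, (Fa S a x - Fn A S x) ^ (2 * m) with hE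
  have hEnn : ∀ a ∈ P, 0 ≤ E a := fun a _ =>
    Finset.sum_nonneg fun x _ => Even.pow_nonneg ⟨m, by ring⟩ _
  have hPc : (P.card : ℝ) = (A.card : ℝ) ^ k := by
    rw [hP, Fintype.card_piFinset_const]
    push_cast
    rfl
  have hsum : ∑ a ∈ P, E a ≤ P.card * M := by
    rw [hPc]
    exact step2 h A S k m hA hk hm
  have hmk := markov P E M hM hEnn hsum
  set L := P.filter (fun a => E a ≤ 2 * M) with hL
  obtain ⟨z, hz⟩ := double A k L hA (Finset.filter_subset _ _)
  refine ⟨A.filter (fun s => (fun i => z i - s) ∈ L), Finset.filter_subset _ _, ?_, ?_⟩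
  · have hAc : (0 : ℝ) < A.card := by exact_mod_cast hA.card_pos
    have hAk : (0 : ℝ) < (A.card : ℝ) ^ k := by positivity
    have h1 : ((A + A).card : ℝ) ^ k ≤ K ^ k * (A.card : ℝ) ^ k := by
      rw [← mul_pow]
      exact pow_le_pow_left₀ (by positivity) hK k
    have h2 : (A.card : ℝ) * (A.card : ℝ) ^ k ≤
        (2 * K ^ k * (A.filter (fun s => (fun i => z i - s) ∈ L)).card) * (A.card : ℝ) ^ k := by
      calc (A.card : ℝ) * (A.card : ℝ) ^ k = A.card * P.card := by rw [hPc]
        _ ≤ A.card * (2 * L.card) := mul_le_mul_of_nonneg_left hmk hAc.le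
        _ = 2 * (A.card * L.card) := by ring
        _ ≤ 2 * ((A + A).card ^ k * (A.filter (fun s => (fun i => z i - s) ∈ L)).card) := by
            linarith
        _ ≤ 2 * ((K ^ k * (A.card : ℝ) ^ k) *
              (A.filter (fun s => (fun i => z i - s) ∈ L)).card) := by
            have := mul_le_mul_of_nonneg_right h1
              (Nat.cast_nonneg (α := ℝ) (A.filter (fun s => (fun i => z i - s) ∈ L)).card)
            linarith
        _ = _ := by ring
    exact le_of_mul_le_mul_right h2 hAk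
  · have key : ∀ s ∈ A.filter (fun s => (fun i => z i - s) ∈ L),
        ∑ x, (Fa S z x - Fn A S (x + s)) ^ (2 * m) ≤ 2 * M := by
      intro s hs
      have h1 := (Finset.mem_filter.1 (Finset.mem_filter.1 hs).2).2
      have h2 : E (fun i => z i - s) = ∑ x, (Fa S z x - Fn A S (x + s)) ^ (2 * m) := by
        rw [hE]
        simp only
        rw [← Equiv.sum_comp (Equiv.addRight s)]
        refine Finset.sum_congr rfl fun x _ => ?_
        rw [Equiv.coe_addRight, Fa_shift]
      rw [← h2]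
      exact h1
    intro s hs s' hs'
    have h1 := key s hs
    have h2 := key s' hs'
    have h3 : ∑ x, (Fn A S (x + s) - Fn A S (x + s')) ^ (2 * m) ≤
        ∑ x, 2 ^ (2 * m - 1) * ((Fa S z x - Fn A S (x + s)) ^ (2 * m) +
          (Fa S z x - Fn A S (x + s')) ^ (2 * m)) := by
      refine Finset.sum_le_sum fun x _ => ?_
      have h4 := pow_add_le (-(Fa S z x - Fn A S (x + s))) (Fa S z x - Fn A S (x + s')) m hm
      have h5 : -(Fa S z x - Fn A S (x + s)) + (Fa S z x - Fn A S (x + s')) =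
          Fn A S (x + s) - Fn A S (x + s') := by ring
      rw [h5, Even.neg_pow ⟨m, by ring⟩] at h4
      exact h4
    rw [← Finset.mul_sum, Finset.sum_add_distrib] at h3
    have h6 : (2 : ℝ) ^ (2 * m) = 2 ^ (2 * m - 1) * 2 := by
      rw [← pow_succ]
      congr 1
      omega
    calc ∑ x, (Fn A S (x + s) - Fn A S (x + s')) ^ (2 * m)
        ≤ 2 ^ (2 * m - 1) * (∑ x, (Fa S z x - Fn A S (x + s)) ^ (2 * m) +
          ∑ x, (Fa S z x - Fn A S (x + s')) ^ (2 * m)) := h3
      _ ≤ 2 ^ (2 * m - 1) * (2 * M + 2 * M) :=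
          mul_le_mul_of_nonneg_left (by linarith) (by positivity)
      _ = 2 ^ (2 * m) * (2 * M) := by rw [h6]; ring

end Pool.Agent.N142.CD
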