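import Pool.Agent.N142.CD.ASM

set_option autoImplicit false

namespace Pool.Agent.N142.CD

open Finset Pool.Agent.TH858
open scoped Pointwise

/-- choice of the parameters -/
theorem fin_one (hAP : S_AP) (hFOU : S_FOU) (hCH : S_CHANG) : ∃ C : ℝ, 1 ≤ C ∧
    ∀ (N : ℕ) [NeZero N] (A : Finset (ZMod N)) (K : ℝ), A.Nonempty → (A.card : ℝ) / N ≤ 1 / 2 → 1 ≤ K →
    ((A + A).card : ℝ) ≤ K * A.card →
    ∃ (Γ : Finset (ZMod N)) (ε : ℝ), 0 < ε ∧
      (Γ.card : ℝ) ≤ C * (Real.log (N / A.card) + Real.log (2 * K) ^ 4) *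
        (1 + Real.log (2 * K) / Real.log (2 + Real.log (N / A.card))) ∧
      1 / C / Real.log (N / A.card) ≤ ε ∧
      ∀ y : ZMod N, (∀ g ∈ Γ, CB.nn (g * y) ≤ ε) →
        ∃ a₁ ∈ A, ∃ a₂ ∈ A, ∃ a₃ ∈ A, ∃ a₄ ∈ A, y = a₁ + a₂ - a₃ - a₄ := by
  obtain ⟨C₁, hC₁, hcore⟩ := core hAP hFOU hCH
  refine ⟨8 * C₁ * (12 + 2 * C₁) + 28, by nlinarith, ?_⟩
  intro N _ A K hA hα hK hAA
  have hAc : (0 : ℝ) < A.card := by exact_mod_cast hA.card_pos
  have hNpos : (0 : ℝ) < N := by exact_mod_cast NeZero.pos N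
  have hlog2 := Real.log_two_gt_d9
  have hL2 : Real.log 2 ≤ Real.log (2 * K) := Real.log_le_log (by norm_num) (by linarith)
  have hx2 : Real.log 2 ≤ Real.log (N / A.card) := by
    apply Real.log_le_log (by norm_num)
    rw [div_le_iff₀ hNpos] at hα
    rw [le_div_iff₀ hAc]
    linarith
  obtain ⟨R, hR⟩ : ∃ R : ℕ, R = ⌈Real.log (N / A.card)⌉₊ + 3 := ⟨_, rfl⟩
  obtain ⟨x, hx⟩ : ∃ x : ℝ, x = Real.log (N / A.card) := ⟨_, rfl⟩
  obtain ⟨L, hL⟩ : ∃ L : ℝ, L = Real.log (2 * K) := ⟨_, rfl⟩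
  have hcore' := hcore N A K R
  rw [← hx] at hR hx2 hcore' ⊢
  rw [← hL] at hL2 hcore' ⊢
  obtain ⟨W, hW⟩ : ∃ W : ℝ, W = x + C₁ * L ^ 4 := ⟨_, rfl⟩
  rw [← hW] at hcore'
  have hx0 : 0 < x := by linarith
  have hL0 : 0 < L := by linarith
  have hW0 : 0 < W := by rw [hW]; positivity
  have hWx : x ≤ W := by
    rw [hW]
    have : 0 ≤ C₁ * L ^ 4 := by positivity
    linarith
  have hRx : 2 + x ≤ (R : ℝ) := by
    rw [hR]
    push_cast
    linarith [Nat.le_ceil x]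
  have hRx' : (R : ℝ) ≤ x + 4 := by
    rw [hR]
    push_cast
    linarith [(Nat.ceil_lt_add_one hx0.le).le]
  have hlx : 0 < Real.log (2 + x) := Real.log_pos (by linarith)
  have hlR : Real.log (2 + x) ≤ Real.log R := Real.log_le_log (by linarith) hRx
  have hlR0 : 0 < Real.log R := by linarith
  have hpi := Real.pi_pos
  have hpi3 := Real.pi_gt_three
  have hpi4 := Real.pi_lt_four
  have hbig : 1 ≤ 32 * Real.pi * K * W := by
    have h1 : 1 ≤ 32 * Real.pi * W := by nlinarith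
    nlinarith
  have hbig0 : 0 < 32 * Real.pi * K * W := by linarith
  have hlogbig : Real.log (32 * Real.pi * K * W) ≤ Real.log (2 + x) + (12 + 2 * C₁) * L := by
    have h1 : 32 * Real.pi * K * W ≤ 2 ^ 7 * K * ((2 + x) * (C₁ * (1 + L) ^ 4)) := by
      have h2 : W ≤ (2 + x) * (C₁ * (1 + L) ^ 4) := by
        have h3 : 1 + L ^ 4 ≤ (1 + L) ^ 4 := by nlinarith [pow_pos hL0 2, pow_pos hL0 3]
        have h4 : C₁ * (1 + L ^ 4) ≤ C₁ * (1 + L) ^ 4 := by gcongr
        have h6 : 0 ≤ L ^ 4 := by positivity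
        calc W = x * 1 + C₁ * L ^ 4 := by rw [hW]; ring
          _ ≤ x * (C₁ * (1 + L ^ 4)) + C₁ * (1 + L ^ 4) := by
              have h5 : 1 ≤ C₁ * (1 + L ^ 4) := by nlinarith
              have h7 : C₁ * L ^ 4 ≤ C₁ * (1 + L ^ 4) := by gcongr; linarith
              have h8 : x * 1 ≤ x * (C₁ * (1 + L ^ 4)) := by gcongr
              linarith
          _ = (1 + x) * (C₁ * (1 + L ^ 4)) := by ring
          _ ≤ (2 + x) * (C₁ * (1 + L) ^ 4) := by gcongr; linarith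
      calc 32 * Real.pi * K * W ≤ 2 ^ 7 * K * W := by
            gcongr
            linarith
        _ ≤ _ := by gcongr
    have hCL : 0 < C₁ * (1 + L) ^ 4 := by positivity
    refine (Real.log_le_log hbig0 h1).trans ?_
    rw [Real.log_mul (by positivity) (by positivity), Real.log_mul (by positivity) (by positivity),
      Real.log_mul (by positivity) hCL.ne', Real.log_mul (by positivity) (by positivity), Real.log_pow, Real.log_pow]
    have h2 : Real.log K ≤ L := by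
      rw [hL]
      exact Real.log_le_log (by linarith) (by linarith)
    have h3 : Real.log C₁ ≤ 2 * C₁ * L := by
      have := Real.log_le_sub_one_of_pos (by linarith : 0 < C₁)
      nlinarith
    have h4 : Real.log (1 + L) ≤ L := by
      have := Real.log_le_sub_one_of_pos (by linarith : 0 < 1 + L)
      linarith
    push_cast
    nlinarith
  obtain ⟨n, hn⟩ : ∃ n : ℕ, n = ⌊Real.log (32 * Real.pi * K * W) / Real.log R⌋₊ := ⟨_, rfl⟩
  have hpow : 32 * Real.pi * K * W ≤ (R : ℝ) ^ (n + 1) := by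
    have h1 := (Nat.lt_floor_add_one (Real.log (32 * Real.pi * K * W) / Real.log R)).le
    rw [← hn, div_le_iff₀ hlR0] at h1
    have h2 : Real.log (32 * Real.pi * K * W) ≤ Real.log ((R : ℝ) ^ (n + 1)) := by
      rw [Real.log_pow]
      push_cast
      exact h1
    have hRpos : (0 : ℝ) < R := by linarith
    exact (Real.log_le_log_iff hbig0 (by positivity)).1 h2
  obtain ⟨Γ, hΓ1, hΓ2⟩ := hcore' n hA hK hAA (by rw [hR]; omega) hpow
  refine ⟨Γ, 1 / (4 * R), ?_, ?_, ?_, hΓ2⟩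
  · have : (0 : ℝ) < R := by linarith
    positivity
  · have h1 : (n : ℝ) ≤ Real.log (32 * Real.pi * K * W) / Real.log R := by
      rw [hn]
      exact Nat.floor_le (div_nonneg (Real.log_nonneg hbig) hlR0.le)
    have h2 : Real.log (32 * Real.pi * K * W) / Real.log R ≤
        (Real.log (2 + x) + (12 + 2 * C₁) * L) / Real.log (2 + x) := by
      calc Real.log (32 * Real.pi * K * W) / Real.log R ≤ Real.log (32 * Real.pi * K * W) / Real.log (2 + x) :=
            div_le_div_of_nonneg_left (Real.log_nonneg hbig) hlx hlR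
        _ ≤ _ := by gcongr
    have h3 : (Real.log (2 + x) + (12 + 2 * C₁) * L) / Real.log (2 + x) =
        1 + (12 + 2 * C₁) * (L / Real.log (2 + x)) := by
      field_simp
    have h4 : (n : ℝ) + 1 ≤ (12 + 2 * C₁) * (1 + L / Real.log (2 + x)) := by
      have h5 : (n : ℝ) + 1 ≤ 2 + (12 + 2 * C₁) * (L / Real.log (2 + x)) := by linarith
      nlinarith
    have h5 : W ≤ C₁ * (x + L ^ 4) := by
      rw [hW]
      nlinarith
    have h6 : 0 ≤ 1 + L / Real.log (2 + x) := by positivity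
    calc (Γ.card : ℝ) ≤ 8 * W * (n + 1) := hΓ1
      _ ≤ 8 * (C₁ * (x + L ^ 4)) * ((12 + 2 * C₁) * (1 + L / Real.log (2 + x))) := by gcongr
      _ = (8 * C₁ * (12 + 2 * C₁)) * ((x + L ^ 4) * (1 + L / Real.log (2 + x))) := by ring
      _ ≤ (8 * C₁ * (12 + 2 * C₁) + 28) * ((x + L ^ 4) * (1 + L / Real.log (2 + x))) := by
          gcongr
          linarith
      _ = _ := by ring
  · have hRpos : (0 : ℝ) < R := by linarith
    rw [div_div, div_le_div_iff₀ (by positivity) (by positivity), one_mul, one_mul]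
    have h1 : 4 * (R : ℝ) ≤ 28 * x := by linarith
    have h2 : 0 ≤ 8 * C₁ * (12 + 2 * C₁) * x := by positivity
    nlinarith

/-- small doubling on a large piece -/
theorem fin_two (h : ∃ C : ℝ, 1 ≤ C ∧
    ∀ (N : ℕ) [NeZero N] (A : Finset (ZMod N)) (K : ℝ), A.Nonempty → (A.card : ℝ) / N ≤ 1 / 2 → 1 ≤ K →
    ((A + A).card : ℝ) ≤ K * A.card →
    ∃ (Γ : Finset (ZMod N)) (ε : ℝ), 0 < ε ∧
      (Γ.card : ℝ) ≤ C * (Real.log (N / A.card) + Real.log (2 * K) ^ 4) *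
        (1 + Real.log (2 * K) / Real.log (2 + Real.log (N / A.card))) ∧
      1 / C / Real.log (N / A.card) ≤ ε ∧
      ∀ y : ZMod N, (∀ g ∈ Γ, CB.nn (g * y) ≤ ε) →
        ∃ a₁ ∈ A, ∃ a₂ ∈ A, ∃ a₃ ∈ A, ∃ a₄ ∈ A, y = a₁ + a₂ - a₃ - a₄) (D : ℝ) (hD : 1 ≤ D) :
    ∃ C : ℝ, 1 ≤ C ∧
    ∀ (N : ℕ) [NeZero N] (A B : Finset (ZMod N)), A.Nonempty → (A.card : ℝ) / N ≤ 1 / 2 → B ⊆ A → B.Nonempty →
    Real.log (N / B.card) ≤ D * Real.log (N / A.card) →
    ((B + B).card : ℝ) ≤ (2 + Real.log (N / A.card)) ^ D * B.card →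
    ∃ (Γ : Finset (ZMod N)) (ε : ℝ), 0 < ε ∧
      (Γ.card : ℝ) ≤ C * Real.log (N / A.card) ∧
      1 / C / Real.log (N / A.card) ≤ ε ∧
      ∀ y : ZMod N, (∀ g ∈ Γ, CB.nn (g * y) ≤ ε) →
        ∃ a₁ ∈ A, ∃ a₂ ∈ A, ∃ a₃ ∈ A, ∃ a₄ ∈ A, y = a₁ + a₂ - a₃ - a₄ := by
  obtain ⟨C₁, hC₁, h⟩ := h
  refine ⟨C₁ * (D + 1024 * (1 + D) ^ 4) * (2 + D) + C₁ * D, ?_, ?_⟩
  · have h1 : 1 ≤ C₁ * D := by nlinarith
    have h2 : 0 ≤ C₁ * (D + 1024 * (1 + D) ^ 4) * (2 + D) := by positivity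
    linarith
  intro N _ A B hA hα hBA hB hBd hBB
  have hAc : (0 : ℝ) < A.card := by exact_mod_cast hA.card_pos
  have hBc : (0 : ℝ) < B.card := by exact_mod_cast hB.card_pos
  have hBAc : (B.card : ℝ) ≤ A.card := by exact_mod_cast card_le_card hBA
  have hNpos : (0 : ℝ) < N := by exact_mod_cast NeZero.pos N
  have hlog2 := Real.log_two_gt_d9
  have hx2 : Real.log 2 ≤ Real.log (N / A.card) := by
    apply Real.log_le_log (by norm_num)
    rw [div_le_iff₀ hNpos] at hα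
    rw [le_div_iff₀ hAc]
    linarith
  have hxx : Real.log (N / A.card) ≤ Real.log (N / B.card) :=
    Real.log_le_log (by positivity) (by gcongr)
  obtain ⟨x, hx⟩ : ∃ x : ℝ, x = Real.log (N / A.card) := ⟨_, rfl⟩
  rw [← hx] at hx2 hxx hBd hBB ⊢
  have hx0 : 0 < x := by linarith
  have hK1 : 1 ≤ (2 + x) ^ D := Real.one_le_rpow (by linarith) (by linarith)
  obtain ⟨Γ, ε, h1, h2, h3, h4⟩ := h N B ((2 + x) ^ D) hB ((div_le_div_of_nonneg_right hBAc hNpos.le).trans hα)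
    hK1 hBB
  obtain ⟨x', hx'⟩ : ∃ x' : ℝ, x' = Real.log (N / B.card) := ⟨_, rfl⟩
  rw [← hx'] at hxx hBd h2 h3
  have hlx : 0 < Real.log (2 + x) := Real.log_pos (by linarith)
  have hL : Real.log (2 * (2 + x) ^ D) ≤ (1 + D) * Real.log (2 + x) := by
    rw [Real.log_mul (by norm_num) (by positivity), Real.log_rpow (by linarith)]
    have : Real.log 2 ≤ Real.log (2 + x) := Real.log_le_log (by norm_num) (by linarith)
    linarith
  have hLpos : 0 < Real.log (2 * (2 + x) ^ D) := Real.log_pos (by linarith)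
  have hlog4 : Real.log (2 + x) ^ 4 ≤ 1024 * x := by
    have h5 := Real.log_le_rpow_div (by linarith : 0 ≤ 2 + x) (by norm_num : (0 : ℝ) < 1 / 4)
    have h6 : Real.log (2 + x) ^ 4 ≤ ((2 + x) ^ (1 / 4 : ℝ) / (1 / 4)) ^ 4 := by gcongr
    have h7 : ((2 + x) ^ (1 / 4 : ℝ) / (1 / 4)) ^ 4 = 256 * (2 + x) := by
      rw [div_pow, ← Real.rpow_natCast ((2 + x) ^ (1 / 4 : ℝ)) 4, ← Real.rpow_mul (by linarith)]
      norm_num
      ring
    rw [h7] at h6
    linarith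
  refine ⟨Γ, ε, h1, ?_, ?_, fun y hy => ?_⟩
  · have h5 : Real.log (2 * (2 + x) ^ D) ^ 4 ≤ 1024 * (1 + D) ^ 4 * x := by
      calc Real.log (2 * (2 + x) ^ D) ^ 4 ≤ ((1 + D) * Real.log (2 + x)) ^ 4 := by gcongr
        _ = (1 + D) ^ 4 * Real.log (2 + x) ^ 4 := by ring
        _ ≤ (1 + D) ^ 4 * (1024 * x) := by gcongr
        _ = _ := by ring
    have h6 : Real.log (2 * (2 + x) ^ D) / Real.log (2 + x') ≤ 1 + D := by
      have h7 : Real.log (2 + x) ≤ Real.log (2 + x') := Real.log_le_log (by linarith) (by linarith)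
      rw [div_le_iff₀ (by linarith)]
      refine hL.trans ?_
      gcongr
    calc (Γ.card : ℝ) ≤ C₁ * (x' + Real.log (2 * (2 + x) ^ D) ^ 4) *
          (1 + Real.log (2 * (2 + x) ^ D) / Real.log (2 + x')) := h2
      _ ≤ C₁ * (D * x + 1024 * (1 + D) ^ 4 * x) * (1 + (1 + D)) := by
          have h8 : 0 < Real.log (2 + x') := Real.log_pos (by linarith)
          have h9 : 0 < x' := by linarith
          gcongr
      _ = (C₁ * (D + 1024 * (1 + D) ^ 4) * (2 + D)) * x := by ring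
      _ ≤ (C₁ * (D + 1024 * (1 + D) ^ 4) * (2 + D) + C₁ * D) * x := by
          gcongr
          have : 0 < C₁ * D := by positivity
          linarith
  · refine le_trans ?_ h3
    rw [div_div, div_div]
    have hx'0 : 0 < x' := by linarith
    apply one_div_le_one_div_of_le (by positivity)
    have h5 : C₁ * x' ≤ C₁ * (D * x) := by gcongr
    have h6 : 0 ≤ C₁ * (D + 1024 * (1 + D) ^ 4) * (2 + D) * x := by positivity
    nlinarith
  · obtain ⟨a₁, h5, a₂, h6, a₃, h7, a₄, h8, h9⟩ := h4 y hy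
    exact ⟨a₁, hBA h5, a₂, hBA h6, a₃, hBA h7, a₄, hBA h8, h9⟩

end Pool.Agent.N142.CD
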