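import Pool.Agent.N142.CD.FIN2

set_option autoImplicit false

namespace Pool.Agent.N142.CD

open Finset Pool.Agent.TH858
open scoped Pointwise

/-- a simpler form of the bound -/
theorem simplify (x L : ℝ) (hx : Real.log 2 ≤ x) (hL : 0 < L) :
    x / Real.log (2 + x) + L ^ 4 * (1 + L / Real.log (2 + x)) ≤ 12501 * ((x + L ^ 5) / Real.log (2 + x)) := by
  have hlog2 := Real.log_two_gt_d9
  have hx0 : 0 < x := by linarith
  have hlx : 0 < Real.log (2 + x) := Real.log_pos (by linarith)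
  have h1 : L ^ 4 * Real.log (2 + x) ≤ 12500 * x + L ^ 5 := by
    rcases le_total (Real.log (2 + x)) L with h | h
    · have : L ^ 4 * Real.log (2 + x) ≤ L ^ 4 * L := by gcongr
      calc L ^ 4 * Real.log (2 + x) ≤ L ^ 4 * L := this
        _ = L ^ 5 := by ring
        _ ≤ 12500 * x + L ^ 5 := by linarith
    · have h5 := Real.log_le_rpow_div (by linarith : 0 ≤ 2 + x) (by norm_num : (0 : ℝ) < 1 / 5)
      have h6 : Real.log (2 + x) ^ 5 ≤ ((2 + x) ^ (1 / 5 : ℝ) / (1 / 5)) ^ 5 := by gcongr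
      have h7 : ((2 + x) ^ (1 / 5 : ℝ) / (1 / 5)) ^ 5 = 3125 * (2 + x) := by
        rw [div_pow, ← Real.rpow_natCast ((2 + x) ^ (1 / 5 : ℝ)) 5, ← Real.rpow_mul (by linarith)]
        norm_num
        ring
      rw [h7] at h6
      have h8 : L ^ 4 * Real.log (2 + x) ≤ Real.log (2 + x) ^ 5 := by
        calc L ^ 4 * Real.log (2 + x) ≤ Real.log (2 + x) ^ 4 * Real.log (2 + x) := by gcongr
          _ = Real.log (2 + x) ^ 5 := by ring
      have h9 : 0 < L ^ 5 := by positivity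
      linarith
  have h2 : x / Real.log (2 + x) + L ^ 4 * (1 + L / Real.log (2 + x)) =
      (x + L ^ 4 * Real.log (2 + x) + L ^ 5) / Real.log (2 + x) := by
    field_simp
    ring
  rw [h2, ← mul_div_assoc]
  have h3 : 0 < L ^ 5 := by positivity
  gcongr
  linarith

/-- the main theorem -/
theorem fin4 (hFR : S_FR) (hAP : S_AP) (hFOU : S_FOU) (hVOL : S_VOL) (hINV : S_INV) (hLCH : S_LCH) :
    ∃ C : ℝ, 1 ≤ C ∧
    ∀ (N : ℕ) [NeZero N] (A : Finset (ZMod N)) (K : ℝ), A.Nonempty → (A.card : ℝ) / N ≤ 1 / 2 → 1 ≤ K →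
    ((A + A).card : ℝ) ≤ K * A.card →
    ∃ (Γ : Finset (ZMod N)) (ε : ℝ), 0 < ε ∧
      (Γ.card : ℝ) ≤ C * ((Real.log (N / A.card) + Real.log (2 * K) ^ 5) /
        Real.log (2 + Real.log (N / A.card))) ∧
      1 / C / Real.log (N / A.card) ≤ ε ∧
      ∀ y : ZMod N, (∀ g ∈ Γ, CB.nn (g * y) ≤ ε) →
        ∃ a₁ ∈ A, ∃ a₂ ∈ A, ∃ a₃ ∈ A, ∃ a₄ ∈ A, y = a₁ + a₂ - a₃ - a₄ := by
  obtain ⟨C, hC, h⟩ := fin3 hFR hAP hFOU hVOL hINV hLCH
  refine ⟨12501 * C, by linarith, ?_⟩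
  intro N _ A K hA hα hK hAA
  obtain ⟨Γ, ε, h1, h2, h3, h4⟩ := h N A K hA hα hK hAA
  have hAc : (0 : ℝ) < A.card := by exact_mod_cast hA.card_pos
  have hNpos : (0 : ℝ) < N := by exact_mod_cast NeZero.pos N
  have hx2 : Real.log 2 ≤ Real.log (N / A.card) := by
    apply Real.log_le_log (by norm_num)
    rw [div_le_iff₀ hNpos] at hα
    rw [le_div_iff₀ hAc]
    linarith
  have hL0 : 0 < Real.log (2 * K) := Real.log_pos (by linarith)
  have hx0 : 0 < Real.log (N / A.card) := lt_of_lt_of_le (Real.log_pos (by norm_num)) hx2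
  refine ⟨Γ, ε, h1, ?_, ?_, h4⟩
  · have h5 := simplify (Real.log (N / A.card)) (Real.log (2 * K)) hx2 hL0
    calc (Γ.card : ℝ) ≤ C * (Real.log (N / A.card) / Real.log (2 + Real.log (N / A.card)) +
          Real.log (2 * K) ^ 4 * (1 + Real.log (2 * K) / Real.log (2 + Real.log (N / A.card)))) := h2
      _ ≤ C * (12501 * ((Real.log (N / A.card) + Real.log (2 * K) ^ 5) /
          Real.log (2 + Real.log (N / A.card)))) := by gcongr
      _ = _ := by ring
  · refine le_trans ?_ h3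
    gcongr
    linarith

/-- the conclusion of Q1 for the sets with a large piece of moderate doubling -/
theorem fin5 (h : ∃ C : ℝ, 1 ≤ C ∧
    ∀ (N : ℕ) [NeZero N] (A : Finset (ZMod N)) (K : ℝ), A.Nonempty → (A.card : ℝ) / N ≤ 1 / 2 → 1 ≤ K →
    ((A + A).card : ℝ) ≤ K * A.card →
    ∃ (Γ : Finset (ZMod N)) (ε : ℝ), 0 < ε ∧
      (Γ.card : ℝ) ≤ C * ((Real.log (N / A.card) + Real.log (2 * K) ^ 5) /
        Real.log (2 + Real.log (N / A.card))) ∧
      1 / C / Real.log (N / A.card) ≤ ε ∧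
      ∀ y : ZMod N, (∀ g ∈ Γ, CB.nn (g * y) ≤ ε) →
        ∃ a₁ ∈ A, ∃ a₂ ∈ A, ∃ a₃ ∈ A, ∃ a₄ ∈ A, y = a₁ + a₂ - a₃ - a₄) (D : ℝ) (hD : 1 ≤ D) :
    ∃ C : ℝ, 1 ≤ C ∧
    ∀ (N : ℕ) [NeZero N] (A B : Finset (ZMod N)) (K : ℝ), A.Nonempty → (A.card : ℝ) / N ≤ 1 / 2 →
    B ⊆ A → B.Nonempty → Real.log (N / B.card) ≤ D * Real.log (N / A.card) → 1 ≤ K →
    ((B + B).card : ℝ) ≤ K * B.card →
    Real.log (2 * K) ^ 5 ≤ D * (Real.log (N / A.card) * Real.log (2 + Real.log (N / A.card))) →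
    ∃ (Γ : Finset (ZMod N)) (ε : ℝ), 0 < ε ∧
      (Γ.card : ℝ) ≤ C * Real.log (N / A.card) ∧
      1 / C / Real.log (N / A.card) ≤ ε ∧
      ∀ y : ZMod N, (∀ g ∈ Γ, CB.nn (g * y) ≤ ε) →
        ∃ a₁ ∈ A, ∃ a₂ ∈ A, ∃ a₃ ∈ A, ∃ a₄ ∈ A, y = a₁ + a₂ - a₃ - a₄ := by
  obtain ⟨C₁, hC₁, h⟩ := h
  refine ⟨C₁ * (3 * D), by nlinarith, ?_⟩
  intro N _ A B K hA hα hBA hB hBd hK hBB hKx
  have hAc : (0 : ℝ) < A.card := by exact_mod_cast hA.card_pos
  have hBc : (0 : ℝ) < B.card := by exact_mod_cast hB.card_pos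
  have hBAc : (B.card : ℝ) ≤ A.card := by exact_mod_cast card_le_card hBA
  have hNpos : (0 : ℝ) < N := by exact_mod_cast NeZero.pos N
  have hlog2 := Real.log_two_gt_d9
  have hx2 : Real.log 2 ≤ Real.log (N / A.card) := by
    apply Real.log_le_log (by norm_num)
    rw [div_le_iff₀ hNpos] at hα
    rw [le_div_iff₀ hAc]
    linarith
  have hxx : Real.log (N / A.card) ≤ Real.log (N / B.card) :=
    Real.log_le_log (by positivity) (by gcongr)
  obtain ⟨x, hx⟩ : ∃ x : ℝ, x = Real.log (N / A.card) := ⟨_, rfl⟩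
  rw [← hx] at hx2 hxx hBd hKx ⊢
  have hx0 : 0 < x := by linarith
  obtain ⟨Γ, ε, h1, h2, h3, h4⟩ := h N B K hB ((div_le_div_of_nonneg_right hBAc hNpos.le).trans hα) hK hBB
  obtain ⟨x', hx'⟩ : ∃ x' : ℝ, x' = Real.log (N / B.card) := ⟨_, rfl⟩
  rw [← hx'] at hxx hBd h2 h3
  have hlx : 0 < Real.log (2 + x) := Real.log_pos (by linarith)
  have hlx2 : 1 / 2 ≤ Real.log (2 + x) := by
    have : Real.log 2 ≤ Real.log (2 + x) := Real.log_le_log (by norm_num) (by linarith)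
    linarith
  have hL5 : 0 ≤ Real.log (2 * K) ^ 5 := by
    have : 0 ≤ Real.log (2 * K) := Real.log_nonneg (by linarith)
    positivity
  refine ⟨Γ, ε, h1, ?_, ?_, fun y hy => ?_⟩
  · have h7 : Real.log (2 + x) ≤ Real.log (2 + x') := Real.log_le_log (by linarith) (by linarith)
    have h8 : (x' + Real.log (2 * K) ^ 5) / Real.log (2 + x') ≤ 3 * D * x := by
      rw [div_le_iff₀ (by linarith)]
      calc x' + Real.log (2 * K) ^ 5 ≤ D * x + D * (x * Real.log (2 + x)) := by linarith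
        _ ≤ 2 * (D * (x * Real.log (2 + x))) + D * (x * Real.log (2 + x)) := by
            have : 0 ≤ D * x := by positivity
            nlinarith
        _ = 3 * D * x * Real.log (2 + x) := by ring
        _ ≤ 3 * D * x * Real.log (2 + x') := by gcongr
    calc (Γ.card : ℝ) ≤ C₁ * ((x' + Real.log (2 * K) ^ 5) / Real.log (2 + x')) := h2
      _ ≤ C₁ * (3 * D * x) := by gcongr
      _ = _ := by ring
  · refine le_trans ?_ h3
    rw [div_div, div_div]
    have hx'0 : 0 < x' := by linarith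
    apply one_div_le_one_div_of_le (by positivity)
    have h5 : C₁ * x' ≤ C₁ * (D * x) := by gcongr
    have h6 : 0 ≤ C₁ * D * x := by positivity
    nlinarith
  · obtain ⟨a₁, h5, a₂, h6, a₃, h7, a₄, h8, h9⟩ := h4 y hy
    exact ⟨a₁, hBA h5, a₂, hBA h6, a₃, hBA h7, a₄, hBA h8, h9⟩

/-- the number of elements of a Bohr set -/
theorem bohr_large {N : ℕ} [NeZero N] (Γ : Finset (ZMod N)) (ε : ℝ) (hε : 0 < ε) (hε1 : ε ≤ 1)
    (B : Finset (ZMod N)) (hB : ∀ x : ZMod N, (∀ g ∈ Γ, CB.nn (g * x) ≤ ε) → x ∈ B) :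
    (N : ℝ) ≤ (2 / ε) ^ Γ.card * B.card := by
  classical
  obtain ⟨k, hk⟩ : ∃ k : ℕ, k = ⌈1 / ε⌉₊ := ⟨_, rfl⟩
  have hk1 : 1 / ε ≤ k := by rw [hk]; exact Nat.le_ceil _
  have hk2 : (k : ℝ) ≤ 2 / ε := by
    have h1 : (k : ℝ) ≤ 1 / ε + 1 := by rw [hk]; exact (Nat.ceil_lt_add_one (by positivity)).le
    have h2 : 1 ≤ 1 / ε := by rw [le_div_iff₀ hε]; linarith
    calc (k : ℝ) ≤ 1 / ε + 1 / ε := by linarith
      _ = 2 / ε := by ring
  have hk0 : (0 : ℝ) < k := lt_of_lt_of_le (by positivity) hk1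
  have hNpos : (0 : ℝ) < N := by exact_mod_cast NeZero.pos N
  have hkε : 1 / (k : ℝ) ≤ ε := by
    rw [div_le_iff₀ hk0]
    rw [div_le_iff₀ hε] at hk1
    linarith
  obtain ⟨fr, hfr⟩ : ∃ fr : ZMod N → ℝ, fr = fun c => (c.val : ℝ) / N := ⟨_, rfl⟩
  have hfr0 : ∀ c, 0 ≤ fr c := fun c => by rw [hfr]; positivity
  have hfr1 : ∀ c, fr c < 1 := fun c => by
    rw [hfr]
    show (c.val : ℝ) / N < 1
    rw [div_lt_one hNpos]
    exact_mod_cast ZMod.val_lt c
  obtain ⟨f, hf⟩ : ∃ f : ZMod N → (Γ → ℕ), f = fun x g => ⌊(k : ℝ) * fr (g.1 * x)⌋₊ := ⟨_, rfl⟩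
  have himg : (univ : Finset (ZMod N)).image f ⊆ Fintype.piFinset fun _ : Γ => range k := by
    intro u hu
    obtain ⟨x, -, rfl⟩ := mem_image.1 hu
    rw [Fintype.mem_piFinset]
    intro g
    rw [mem_range, hf]
    show ⌊(k : ℝ) * fr (g.1 * x)⌋₊ < k
    rw [Nat.floor_lt (mul_nonneg hk0.le (hfr0 _))]
    calc (k : ℝ) * fr (g.1 * x) < k * 1 := by
          have := hfr1 (g.1 * x)
          gcongr
      _ = k := mul_one _
  have hfib : ∀ u ∈ (univ : Finset (ZMod N)).image f,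
      ((univ : Finset (ZMod N)).filter fun x => f x = u).card ≤ B.card := by
    intro u hu
    obtain ⟨x₀, -, hx₀⟩ := mem_image.1 hu
    refine card_le_card_of_injOn (fun x => x - x₀) ?_ ?_
    · intro x hx
      rw [mem_coe, mem_filter] at hx
      have hx' : f x = f x₀ := hx.2.trans hx₀.symm
      refine hB _ fun g hg => ?_
      have h1 : ⌊(k : ℝ) * fr (g * x)⌋₊ = ⌊(k : ℝ) * fr (g * x₀)⌋₊ := by
        have := congrFun hx' ⟨g, hg⟩
        rw [hf] at this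
        exact this
      have h2 := Nat.floor_le (mul_nonneg hk0.le (hfr0 (g * x)))
      have h3 := Nat.lt_floor_add_one ((k : ℝ) * fr (g * x))
      have h4 := Nat.floor_le (mul_nonneg hk0.le (hfr0 (g * x₀)))
      have h5 := Nat.lt_floor_add_one ((k : ℝ) * fr (g * x₀))
      rw [h1] at h2 h3
      have h6 : |fr (g * x) - fr (g * x₀)| ≤ 1 / k := by
        rw [abs_le]
        constructor
        · rw [← neg_div, div_le_iff₀ hk0]
          linarith
        · rw [le_div_iff₀ hk0]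
          linarith
      have h7 : CB.nn (g * (x - x₀)) = CB.nint (fr (g * x) - fr (g * x₀)) := by
        have h8 := CB.nint_eq_nn (N := N) (((g * x).val : ℤ) - ((g * x₀).val : ℤ)) (g * (x - x₀))
          (by push_cast; simp; ring)
        rw [← h8, hfr]
        congr 1
        push_cast
        ring
      have h8 : CB.nint (fr (g * x) - fr (g * x₀)) ≤ |fr (g * x) - fr (g * x₀)| := by
        unfold CB.nint
        have := round_le (fr (g * x) - fr (g * x₀)) 0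
        simpa using this
      rw [h7]
      exact h8.trans (h6.trans hkε)
    · intro x _ y _ hxy
      exact sub_left_injective hxy
  have h1 := card_le_mul_card_image (s := (univ : Finset (ZMod N))) (f := f) B.card hfib
  rw [card_univ, ZMod.card] at h1
  have h2 : ((univ : Finset (ZMod N)).image f).card ≤ k ^ Γ.card := by
    refine (card_le_card himg).trans ?_
    rw [Fintype.card_piFinset]
    simp
  calc (N : ℝ) ≤ B.card * ((univ : Finset (ZMod N)).image f).card := by exact_mod_cast h1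
    _ ≤ B.card * (k : ℝ) ^ Γ.card := by
        gcongr
        exact_mod_cast h2
    _ ≤ B.card * (2 / ε) ^ Γ.card := by gcongr
    _ = _ := mul_comm _ _

/-- a lower bound for the dimension of a Bohr set in `2A - 2A` -/
theorem lower {N : ℕ} [NeZero N] (A : Finset (ZMod N)) (hA : A.Nonempty) (K : ℝ) (hK : 1 ≤ K)
    (hAA : ((A + A).card : ℝ) ≤ K * A.card) (Γ : Finset (ZMod N)) (ε : ℝ) (hε : 0 < ε) (hε1 : ε ≤ 1)
    (h : ∀ x : ZMod N, (∀ g ∈ Γ, CB.nn (g * x) ≤ ε) →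
      ∃ a₁ ∈ A, ∃ a₂ ∈ A, ∃ a₃ ∈ A, ∃ a₄ ∈ A, x = a₁ + a₂ - a₃ - a₄) :
    Real.log (N / A.card) - 4 * Real.log K ≤ Γ.card * Real.log (2 / ε) := by
  classical
  have hAc : (0 : ℝ) < A.card := by exact_mod_cast hA.card_pos
  have hNpos : (0 : ℝ) < N := by exact_mod_cast NeZero.pos N
  obtain ⟨B, hB⟩ : ∃ B : Finset (ZMod N), B = 2 • A - 2 • A := ⟨_, rfl⟩
  have h1 := bohr_large Γ ε hε hε1 B (fun x hx => by
    obtain ⟨a₁, h1, a₂, h2, a₃, h3, a₄, h4, h5⟩ := h x hx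
    rw [hB, h5, show a₁ + a₂ - a₃ - a₄ = (a₁ + a₂) - (a₃ + a₄) by ring, two_nsmul]
    exact sub_mem_sub (add_mem_add h1 h2) (add_mem_add h3 h4))
  have h2 : (B.card : ℝ) ≤ K ^ 4 * A.card := by
    have h3 := pluennecke_ruzsa_inequality_nsmul_sub_nsmul_add hA A 2 2
    rw [← hB] at h3
    have h4 : ((B.card : ℚ≥0) : ℝ) ≤ ((((A + A).card / A.card : ℚ≥0) ^ (2 + 2) * A.card : ℚ≥0) : ℝ) := by
      exact_mod_cast h3
    push_cast at h4
    have h5 : ((A + A).card : ℝ) / A.card ≤ K := by rw [div_le_iff₀ hAc]; exact hAA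
    calc (B.card : ℝ) ≤ (((A + A).card : ℝ) / A.card) ^ (2 + 2) * A.card := h4
      _ ≤ K ^ 4 * A.card := by
          norm_num
          gcongr
  have h3 : (N : ℝ) / A.card ≤ (2 / ε) ^ Γ.card * K ^ 4 := by
    rw [div_le_iff₀ hAc]
    calc (N : ℝ) ≤ (2 / ε) ^ Γ.card * B.card := h1
      _ ≤ (2 / ε) ^ Γ.card * (K ^ 4 * A.card) := by gcongr
      _ = _ := by ring
  have h4 := Real.log_le_log (by positivity) h3
  rw [Real.log_mul (by positivity) (by positivity), Real.log_pow, Real.log_pow] at h4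
  push_cast at h4
  linarith

end Pool.Agent.N142.CD
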