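import Pool.Agent.N142.CD.Stm

/-!
# Project CD: the Fourier step (helper615 for helper142)
-/

set_option autoImplicit false
set_option linter.unusedSectionVars false

namespace Pool.Agent.N142.CD.FOU

open Finset
open scoped Pointwise

variable {N : ℕ} [NeZero N]

lemma psi_norm (c : ZMod N) : ‖ψ c‖ = 1 := by
  simp

/-- exponential sum -/
noncomputable def hh (A : Finset (ZMod N)) (γ : ZMod N) : ℂ := ∑ a ∈ A, ψ (γ * a)

lemma hh_norm_le (A : Finset (ZMod N)) (γ : ZMod N) : ‖hh A γ‖ ≤ A.card := by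
  calc ‖hh A γ‖ ≤ ∑ a ∈ A, ‖ψ (γ * a)‖ := norm_sum_le _ _
    _ = A.card := by simp

lemma hh_neg (A : Finset (ZMod N)) (γ : ZMod N) : hh A (-γ) = (starRingEnd ℂ) (hh A γ) := by
  unfold hh
  rw [map_sum]
  refine sum_congr rfl fun a _ => ?_
  rw [neg_mul]
  exact AddChar.map_neg_eq_conj (ZMod.stdAddChar (N := N)) (γ * a)

lemma hh_mul_neg (A : Finset (ZMod N)) (γ : ZMod N) : hh A γ * hh A (-γ) = ((‖hh A γ‖ ^ 2 : ℝ) : ℂ) := by
  rw [hh_neg, Complex.mul_conj']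
  push_cast
  rfl

lemma psi_add (a b : ZMod N) : ψ (a + b) = ψ a * ψ b := AddChar.map_add_eq_mul _ a b

lemma ortho (z : ZMod N) : ∑ γ : ZMod N, ψ (γ * z) = if z = 0 then (N : ℂ) else 0 := by
  have h := AddChar.sum_mulShift z (ZMod.isPrimitive_stdAddChar N)
  simp only [ZMod.card] at h
  rw [show (∑ γ : ZMod N, ψ (γ * z)) = ∑ x : ZMod N, ZMod.stdAddChar (x * z) from rfl, h]
  split_ifs <;> simp

lemma parseval (A : Finset (ZMod N)) : ∑ γ : ZMod N, ‖hh A γ‖ ^ 2 = N * A.card := by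
  have h : ((∑ γ : ZMod N, ‖hh A γ‖ ^ 2 : ℝ) : ℂ) = ((N * A.card : ℝ) : ℂ) := by
    rw [Complex.ofReal_sum]
    simp_rw [← hh_mul_neg]
    have e : ∀ γ : ZMod N, hh A γ * hh A (-γ) = ∑ a ∈ A, ∑ b ∈ A, ψ (γ * (a - b)) := by
      intro γ
      unfold hh
      rw [sum_mul_sum]
      refine sum_congr rfl fun a _ => sum_congr rfl fun b _ => ?_
      rw [← psi_add]
      congr 1
      ring
    simp_rw [e]
    rw [sum_comm]
    have e2 : ∀ a ∈ A, ∑ γ : ZMod N, ∑ b ∈ A, ψ (γ * (a - b)) = N := by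
      intro a ha
      rw [sum_comm]
      simp_rw [ortho]
      rw [sum_eq_single a]
      · simp
      · intro b _ hb
        rw [if_neg]
        intro h
        exact hb (sub_eq_zero.1 h).symm
      · intro h
        exact absurd ha h
    rw [sum_congr rfl e2, sum_const, nsmul_eq_mul]
    push_cast
    ring
  exact_mod_cast h

lemma ind_eq (S : Finset (ZMod N)) (z : ZMod N) :
    (if z ∈ S then (1 : ℂ) else 0) = (∑ γ : ZMod N, hh S (-γ) * ψ (γ * z)) / N := by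
  have hN : (N : ℂ) ≠ 0 := by exact_mod_cast NeZero.ne N
  have e : ∀ γ : ZMod N, hh S (-γ) * ψ (γ * z) = ∑ s ∈ S, ψ (γ * (z - s)) := by
    intro γ
    unfold hh
    rw [sum_mul]
    refine sum_congr rfl fun s _ => ?_
    rw [← psi_add]
    congr 1
    ring
  simp_rw [e]
  rw [sum_comm]
  simp_rw [ortho]
  by_cases hz : z ∈ S
  · rw [if_pos hz, sum_eq_single z]
    · simp [hN]
    · intro b _ hb
      rw [if_neg]
      intro h
      exact hb (sub_eq_zero.1 h).symm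
    · intro h
      exact absurd hz h
  · rw [if_neg hz, sum_eq_zero]
    · simp
    · intro s hs
      rw [if_neg]
      intro h
      exact hz (by rw [sub_eq_zero.1 h]; exact hs)

/-- the Fourier coefficients of `g` -/
noncomputable def cf (A S : Finset (ZMod N)) (γ : ZMod N) : ℂ := hh A γ ^ 2 * hh S (-γ) / (A.card : ℂ) ^ 2

lemma gn_eq (A S : Finset (ZMod N)) (y : ZMod N) :
    ((gn A S y : ℝ) : ℂ) = (∑ γ : ZMod N, cf A S γ * ψ (γ * y)) / N := by
  have h1 : ((gn A S y : ℝ) : ℂ) = (∑ x ∈ A, ∑ a ∈ A, (if x + y + a ∈ S then (1 : ℂ) else 0)) / (A.card : ℂ) ^ 2 := by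
    unfold gn Fn
    push_cast
    rw [← sum_div, div_div, ← pow_two]
    congr 1
    refine sum_congr rfl fun x _ => sum_congr rfl fun a _ => ?_
    split_ifs <;> simp
  rw [h1]
  simp_rw [ind_eq]
  simp_rw [← sum_div]
  have h2 : ∑ x ∈ A, ∑ a ∈ A, ∑ γ : ZMod N, hh S (-γ) * ψ (γ * (x + y + a)) =
      ∑ γ : ZMod N, hh A γ ^ 2 * hh S (-γ) * ψ (γ * y) := by
    calc ∑ x ∈ A, ∑ a ∈ A, ∑ γ : ZMod N, hh S (-γ) * ψ (γ * (x + y + a))
        = ∑ x ∈ A, ∑ γ : ZMod N, ∑ a ∈ A, hh S (-γ) * ψ (γ * (x + y + a)) :=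
          sum_congr rfl fun x _ => sum_comm
      _ = ∑ γ : ZMod N, ∑ x ∈ A, ∑ a ∈ A, hh S (-γ) * ψ (γ * (x + y + a)) := sum_comm
      _ = _ := by
          refine sum_congr rfl fun γ _ => ?_
          have e : hh A γ ^ 2 = ∑ x ∈ A, ∑ a ∈ A, ψ (γ * x) * ψ (γ * a) := by
            rw [pow_two]
            unfold hh
            rw [sum_mul_sum]
          rw [e, sum_mul, sum_mul]
          refine sum_congr rfl fun x _ => ?_
          rw [sum_mul, sum_mul]
          refine sum_congr rfl fun a _ => ?_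
          have e2 : γ * (x + y + a) = γ * x + γ * a + γ * y := by ring
          rw [e2, psi_add, psi_add]
          ring
  rw [h2, div_div, sum_div, sum_div]
  refine sum_congr rfl fun γ _ => ?_
  unfold cf
  rw [mul_comm (N : ℂ) _, ← div_div]
  congr 1
  ring

/-- the iterated averages of `g` -/
noncomputable def gj (A S T : Finset (ZMod N)) : ℕ → ZMod N → ℝ
  | 0, y => gn A S y
  | j + 1, y => (∑ s ∈ T, ∑ s' ∈ T, gj A S T j (y + s - s')) / (T.card : ℝ) ^ 2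

/-- the weights -/
noncomputable def ww (T : Finset (ZMod N)) (γ : ZMod N) : ℝ := ‖hh T γ‖ ^ 2 / (T.card : ℝ) ^ 2

lemma ww_nonneg (T : Finset (ZMod N)) (γ : ZMod N) : 0 ≤ ww T γ := by
  unfold ww
  positivity

lemma ww_le_one (T : Finset (ZMod N)) (γ : ZMod N) : ww T γ ≤ 1 := by
  unfold ww
  exact div_le_one_of_le₀ (pow_le_pow_left₀ (norm_nonneg _) (hh_norm_le T γ) 2) (by positivity)

lemma gj_eq (A S T : Finset (ZMod N)) (j : ℕ) : ∀ y : ZMod N,
    ((gj A S T j y : ℝ) : ℂ) = (∑ γ : ZMod N, cf A S γ * ((ww T γ : ℝ) : ℂ) ^ j * ψ (γ * y)) / N := by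
  induction j with
  | zero =>
    intro y
    simp only [gj, pow_zero, mul_one]
    exact gn_eq A S y
  | succ j ih =>
    intro y
    simp only [gj]
    push_cast
    simp_rw [ih]
    simp_rw [← sum_div]
    have h2 : ∑ s ∈ T, ∑ s' ∈ T, ∑ γ : ZMod N, cf A S γ * ((ww T γ : ℝ) : ℂ) ^ j * ψ (γ * (y + s - s')) =
        ∑ γ : ZMod N, cf A S γ * ((ww T γ : ℝ) : ℂ) ^ j * ψ (γ * y) * ((‖hh T γ‖ ^ 2 : ℝ) : ℂ) := by
      calc ∑ s ∈ T, ∑ s' ∈ T, ∑ γ : ZMod N, cf A S γ * ((ww T γ : ℝ) : ℂ) ^ j * ψ (γ * (y + s - s'))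
          = ∑ s ∈ T, ∑ γ : ZMod N, ∑ s' ∈ T, cf A S γ * ((ww T γ : ℝ) : ℂ) ^ j * ψ (γ * (y + s - s')) :=
            sum_congr rfl fun x _ => sum_comm
        _ = ∑ γ : ZMod N, ∑ s ∈ T, ∑ s' ∈ T, cf A S γ * ((ww T γ : ℝ) : ℂ) ^ j * ψ (γ * (y + s - s')) := sum_comm
        _ = _ := by
            refine sum_congr rfl fun γ _ => ?_
            rw [← hh_mul_neg]
            have e : hh T γ * hh T (-γ) = ∑ s ∈ T, ∑ s' ∈ T, ψ (γ * s) * ψ (-γ * s') := by
              unfold hh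
              rw [sum_mul_sum]
            rw [e, mul_sum]
            refine sum_congr rfl fun s _ => ?_
            rw [mul_sum]
            refine sum_congr rfl fun s' _ => ?_
            have e2 : γ * (y + s - s') = γ * y + γ * s + -γ * s' := by ring
            rw [e2, psi_add, psi_add]
            ring
    rw [h2, div_div, sum_div, sum_div]
    refine sum_congr rfl fun γ _ => ?_
    rw [mul_comm (N : ℂ) _, ← div_div]
    congr 1
    rw [pow_succ]
    unfold ww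
    push_cast
    ring

lemma gj_step (A S T : Finset (ZMod N)) (hT : T.Nonempty) (η : ℝ)
    (h : ∀ s ∈ T, ∀ s' ∈ T, ∀ y : ZMod N, |gn A S (y + s - s') - gn A S y| ≤ η) (j : ℕ) :
    ∀ y, |gj A S T (j + 1) y - gj A S T j y| ≤ η := by
  have hT0 : (0 : ℝ) < (T.card : ℝ) ^ 2 := by
    have : (0 : ℝ) < T.card := by exact_mod_cast hT.card_pos
    positivity
  have avg : ∀ (F : ZMod N → ZMod N → ℝ) (y : ZMod N), (∀ s ∈ T, ∀ s' ∈ T, |F s s'| ≤ η) →
      |(∑ s ∈ T, ∑ s' ∈ T, F s s') / (T.card : ℝ) ^ 2| ≤ η := by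
    intro F y hF
    rw [abs_div, abs_of_pos hT0, div_le_iff₀ hT0]
    calc |∑ s ∈ T, ∑ s' ∈ T, F s s'| ≤ ∑ s ∈ T, |∑ s' ∈ T, F s s'| := abs_sum_le_sum_abs _ _
      _ ≤ ∑ s ∈ T, ∑ s' ∈ T, |F s s'| := sum_le_sum fun s _ => abs_sum_le_sum_abs _ _
      _ ≤ ∑ s ∈ T, ∑ s' ∈ T, η := sum_le_sum fun s hs => sum_le_sum fun s' hs' => hF s hs s' hs'
      _ = η * (T.card : ℝ) ^ 2 := by
          rw [sum_const, sum_const, nsmul_eq_mul, nsmul_eq_mul]
          ring
  have hconst : ∀ c : ℝ, (∑ _s ∈ T, ∑ _s' ∈ T, c) / (T.card : ℝ) ^ 2 = c := by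
    intro c
    rw [sum_const, sum_const, nsmul_eq_mul, nsmul_eq_mul, ← mul_assoc, ← pow_two, mul_comm, mul_div_assoc,
      div_self hT0.ne', mul_one]
  induction j with
  | zero =>
    intro y
    have e : gj A S T (0 + 1) y - gj A S T 0 y =
        (∑ s ∈ T, ∑ s' ∈ T, (gn A S (y + s - s') - gn A S y)) / (T.card : ℝ) ^ 2 := by
      simp only [gj]
      simp_rw [sum_sub_distrib]
      rw [sub_div]
      congr 1
      exact (hconst (gn A S y)).symm
    rw [e]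
    exact avg _ y fun s hs s' hs' => h s hs s' hs' y
  | succ j ih =>
    intro y
    have e : gj A S T (j + 1 + 1) y - gj A S T (j + 1) y =
        (∑ s ∈ T, ∑ s' ∈ T, (gj A S T (j + 1) (y + s - s') - gj A S T j (y + s - s'))) / (T.card : ℝ) ^ 2 := by
      simp_rw [sum_sub_distrib]
      rw [sub_div]
      rfl
    rw [e]
    exact avg _ y fun s hs s' hs' => ih _

lemma gj_diff (A S T : Finset (ZMod N)) (hT : T.Nonempty) (η : ℝ)
    (h : ∀ s ∈ T, ∀ s' ∈ T, ∀ y : ZMod N, |gn A S (y + s - s') - gn A S y| ≤ η) (l : ℕ) (y : ZMod N) :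
    |gj A S T l y - gn A S y| ≤ l * η := by
  induction l with
  | zero => simp [gj]
  | succ l ih =>
    have h1 := gj_step A S T hT η h l y
    calc |gj A S T (l + 1) y - gn A S y|
        = |(gj A S T (l + 1) y - gj A S T l y) + (gj A S T l y - gn A S y)| := by ring_nf
      _ ≤ |gj A S T (l + 1) y - gj A S T l y| + |gj A S T l y - gn A S y| := abs_add_le _ _
      _ ≤ η + l * η := add_le_add h1 ih
      _ = ((l + 1 : ℕ) : ℝ) * η := by push_cast; ring

lemma gj_far (A S T : Finset (ZMod N)) (K : ℝ) (l : ℕ) (hA : A.Nonempty) (hK : 1 ≤ K)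
    (hS : (S.card : ℝ) ≤ K * A.card) (h16 : 16 * K ≤ 4 ^ l) (hTn : T.Nonempty) (y : ZMod N)
    (hy : ∀ γ : ZMod N, (T.card : ℝ) / 2 ≤ ‖∑ t ∈ T, ψ (γ * t)‖ → ‖ψ (γ * y) - 1‖ ≤ 1 / (8 * K)) :
    |gj A S T l y - gj A S T l 0| ≤ 1 / 8 := by
  have hN : (0 : ℝ) < N := by
    have := NeZero.pos N
    exact_mod_cast this
  have hA0 : (0 : ℝ) < A.card := by exact_mod_cast hA.card_pos
  have hT0 : (0 : ℝ) < T.card := by exact_mod_cast hTn.card_pos
  have e : ((gj A S T l y - gj A S T l 0 : ℝ) : ℂ) =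
      (∑ γ : ZMod N, cf A S γ * ((ww T γ : ℝ) : ℂ) ^ l * (ψ (γ * y) - 1)) / N := by
    rw [Complex.ofReal_sub, gj_eq, gj_eq, ← sub_div, ← sum_sub_distrib]
    congr 1
    refine sum_congr rfl fun γ _ => ?_
    have : ψ (γ * (0 : ZMod N)) = 1 := by
      rw [mul_zero]
      exact AddChar.map_zero_eq_one _
    rw [this]
    ring
  have hb : ∀ γ : ZMod N, ‖cf A S γ * ((ww T γ : ℝ) : ℂ) ^ l * (ψ (γ * y) - 1)‖ ≤
      ‖hh A γ‖ ^ 2 * (1 / (8 * A.card)) := by
    intro γ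
    have h1 : ‖cf A S γ‖ ≤ ‖hh A γ‖ ^ 2 * (K / A.card) := by
      unfold cf
      rw [norm_div, norm_mul, norm_pow, norm_pow, Complex.norm_natCast]
      have h2 : ‖hh S (-γ)‖ ≤ K * A.card := (hh_norm_le S (-γ)).trans hS
      rw [div_le_iff₀ (by positivity)]
      calc ‖hh A γ‖ ^ 2 * ‖hh S (-γ)‖ ≤ ‖hh A γ‖ ^ 2 * (K * A.card) :=
            mul_le_mul_of_nonneg_left h2 (by positivity)
        _ = _ := by field_simp
    have h3 : ww T γ ^ l * ‖ψ (γ * y) - 1‖ ≤ 1 / (8 * K) := by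
      by_cases hγ : (T.card : ℝ) / 2 ≤ ‖∑ t ∈ T, ψ (γ * t)‖
      · calc ww T γ ^ l * ‖ψ (γ * y) - 1‖ ≤ 1 * (1 / (8 * K)) :=
              mul_le_mul (pow_le_one₀ (ww_nonneg T γ) (ww_le_one T γ)) (hy γ hγ) (norm_nonneg _) zero_le_one
          _ = _ := one_mul _
      · push Not at hγ
        have h4 : ww T γ ≤ 1 / 4 := by
          unfold ww
          rw [div_le_iff₀ (by positivity)]
          have h5 : ‖hh T γ‖ ≤ (T.card : ℝ) / 2 := hγ.le
          calc ‖hh T γ‖ ^ 2 ≤ ((T.card : ℝ) / 2) ^ 2 := pow_le_pow_left₀ (norm_nonneg _) h5 2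
            _ = _ := by ring
        have h6 : ‖ψ (γ * y) - 1‖ ≤ 2 := by
          calc ‖ψ (γ * y) - 1‖ ≤ ‖ψ (γ * y)‖ + ‖(1 : ℂ)‖ := norm_sub_le _ _
            _ = 2 := by rw [psi_norm, norm_one]; norm_num
        calc ww T γ ^ l * ‖ψ (γ * y) - 1‖ ≤ (1 / 4) ^ l * 2 :=
              mul_le_mul (pow_le_pow_left₀ (ww_nonneg T γ) h4 l) h6 (norm_nonneg _) (by positivity)
          _ = 2 / 4 ^ l := by
              rw [div_pow, one_pow]
              ring
          _ ≤ 1 / (8 * K) := by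
              rw [div_le_div_iff₀ (by positivity) (by positivity)]
              linarith
    rw [norm_mul, norm_mul, norm_pow, Complex.norm_real, Real.norm_of_nonneg (ww_nonneg T γ), mul_assoc]
    calc ‖cf A S γ‖ * (ww T γ ^ l * ‖ψ (γ * y) - 1‖)
        ≤ (‖hh A γ‖ ^ 2 * (K / A.card)) * (1 / (8 * K)) :=
          mul_le_mul h1 h3 (mul_nonneg (pow_nonneg (ww_nonneg T γ) l) (norm_nonneg _)) (by positivity)
      _ = _ := by field_simp
  have h7 : ‖((gj A S T l y - gj A S T l 0 : ℝ) : ℂ)‖ ≤ 1 / 8 := by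
    rw [e, norm_div, Complex.norm_natCast, div_le_iff₀ hN]
    calc ‖∑ γ : ZMod N, cf A S γ * ((ww T γ : ℝ) : ℂ) ^ l * (ψ (γ * y) - 1)‖
        ≤ ∑ γ : ZMod N, ‖cf A S γ * ((ww T γ : ℝ) : ℂ) ^ l * (ψ (γ * y) - 1)‖ := norm_sum_le _ _
      _ ≤ ∑ γ : ZMod N, ‖hh A γ‖ ^ 2 * (1 / (8 * A.card)) := sum_le_sum fun γ _ => hb γ
      _ = 1 / 8 * N := by
          rw [← sum_mul, parseval]
          field_simp
  rwa [Complex.norm_real, Real.norm_eq_abs] at h7

lemma gn_zero (A : Finset (ZMod N)) (hA : A.Nonempty) : gn A (A + A) 0 = 1 := by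
  have hA0 : (A.card : ℝ) ≠ 0 := by exact_mod_cast hA.card_pos.ne'
  unfold gn Fn
  have e : ∀ x ∈ A, (∑ a ∈ A, if x + 0 + a ∈ A + A then (1 : ℝ) else 0) / A.card = 1 := by
    intro x hx
    rw [sum_congr rfl (g := fun _ => (1 : ℝ)) fun a ha => by
      rw [if_pos]
      rw [add_zero]
      exact add_mem_add hx ha]
    rw [sum_const, nsmul_eq_mul, mul_one, div_self hA0]
  rw [sum_congr rfl e, sum_const, nsmul_eq_mul, mul_one, div_self hA0]

lemma gn_pos (A S : Finset (ZMod N)) (y : ZMod N) (h : 0 < gn A S y) : ∃ x ∈ A, ∃ a ∈ A, x + y + a ∈ S := by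
  by_contra hcon
  push Not at hcon
  have : gn A S y = 0 := by
    unfold gn Fn
    rw [sum_eq_zero, zero_div]
    intro x hx
    rw [sum_eq_zero, zero_div]
    intro a ha
    rw [if_neg (hcon x hx a ha)]
  rw [this] at h
  exact lt_irrefl _ h

end Pool.Agent.N142.CD.FOU

namespace Pool.Agent.N142.CD

open Finset
open scoped Pointwise

theorem t_FOU : S_FOU := by
  intro N _ A T K l hA hT hK hAA hl h16 hper y hy
  have hl' : (1 : ℝ) ≤ l := by exact_mod_cast hl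
  have h1 := FOU.gj_diff A (A + A) T hT _ hper l y
  have h2 := FOU.gj_diff A (A + A) T hT _ hper l 0
  have h3 := FOU.gj_far A (A + A) T K l hA hK hAA h16 hT y hy
  have h4 := FOU.gn_zero A hA
  have h5 : (l : ℝ) * (1 / (16 * l)) = 1 / 16 := by field_simp
  rw [h5] at h1 h2
  rw [h4] at h2
  have h6 : 0 < gn A (A + A) y := by
    have a1 := abs_le.1 h1
    have a2 := abs_le.1 h2
    have a3 := abs_le.1 h3
    linarith [a1.1, a1.2, a2.1, a2.2, a3.1, a3.2]
  obtain ⟨x, hx, a, ha, hs⟩ := FOU.gn_pos A (A + A) y h6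
  obtain ⟨b, hb, c, hc, hbc⟩ := mem_add.1 hs
  refine ⟨b, hb, c, hc, x, hx, a, ha, ?_⟩
  rw [hbc]
  ring

end Pool.Agent.N142.CD
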