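import Pool.Agent.N142.CD.Stm2
import Pool.Agent.H112R2.Gap
import Pool.Agent.H112R2.Main
import Pool.Agent.H112R2.Final

/-!
# Project CD, part 2 (helper142), FR (helper767): covering by a proper coset progression

The theorem of helper112 (`H112.gap_final`) applied in the quotient by the annihilator.
-/

set_option autoImplicit false

namespace Pool.Agent.N142.CD.FR

open Finset H112
open scoped Pointwise

section quot

variable {G : Type} [AddCommGroup G] (S : Set (G →+ UnitAddCircle))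

/-- the quotient map -/
abbrev pr : G →+ G ⧸ ann S := QuotientAddGroup.mk' (ann S)

/-- the characters of the quotient -/
def Sq : Set ((G ⧸ ann S) →+ UnitAddCircle) := {g | g.comp (pr S) ∈ S}

theorem mem_bohr_iff (x : G) (r : ℝ) : pr S x ∈ bohr (Sq S) r ↔ x ∈ bohr S r := by
  constructor
  · intro h g hg
    have hker : ann S ≤ g.ker := by
      intro y hy
      exact hy g hg
    have h1 : (QuotientAddGroup.lift (ann S) g hker).comp (pr S) = g := by
      ext y
      rfl
    have h2 := h (QuotientAddGroup.lift (ann S) g hker) (by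
      show (QuotientAddGroup.lift (ann S) g hker).comp (pr S) ∈ S
      rw [h1]
      exact hg)
    exact h2
  · intro h g hg
    exact h (g.comp (pr S)) hg

theorem ann_Sq : ann (Sq S) = ⊥ := by
  rw [AddSubgroup.eq_bot_iff_forall]
  intro y hy
  obtain ⟨x, rfl⟩ := QuotientAddGroup.mk'_surjective (ann S) y
  have h1 : x ∈ ann S := by
    intro g hg
    have hker : ann S ≤ g.ker := by
      intro y hy
      exact hy g hg
    have h1 : (QuotientAddGroup.lift (ann S) g hker).comp (pr S) = g := by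
      ext y
      rfl
    have h2 := hy (QuotientAddGroup.lift (ann S) g hker) (by
      show (QuotientAddGroup.lift (ann S) g hker).comp (pr S) ∈ S
      rw [h1]
      exact hg)
    exact h2
  exact (QuotientAddGroup.eq_zero_iff x).2 h1

theorem pr_eq_zero {x : G} : pr S x = 0 ↔ x ∈ ann S := QuotientAddGroup.eq_zero_iff x

theorem card_preimage (t : Set (G ⧸ ann S)) :
    Nat.card ↑((QuotientAddGroup.mk : G → G ⧸ ann S) ⁻¹' t) = Nat.card (ann S) * Nat.card ↑t := by
  rw [← Nat.card_prod, Nat.card_congr (QuotientAddGroup.preimageMkEquivAddSubgroupProdSet _ _)]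

theorem card_bohr (r : ℝ) :
    (bohr S r).ncard = Nat.card (ann S) * (bohr (Sq S) r).ncard := by
  have h1 : bohr S r = (QuotientAddGroup.mk : G → G ⧸ ann S) ⁻¹' (bohr (Sq S) r) := by
    ext x
    exact (mem_bohr_iff S x r).symm
  have h2 := card_preimage S (bohr (Sq S) r)
  rw [← h1] at h2
  exact h2

theorem card_le_mul [Finite G] [DecidableEq (G ⧸ ann S)] (A : Finset G) (B : Finset (G ⧸ ann S))
    (h : ∀ x ∈ A, pr S x ∈ B) : A.card ≤ Nat.card (ann S) * B.card := by
  have h2 := card_preimage S (B : Set (G ⧸ ann S))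
  have h3 : (A : Set G).ncard ≤
      ((QuotientAddGroup.mk : G → G ⧸ ann S) ⁻¹' (B : Set (G ⧸ ann S))).ncard :=
    Set.ncard_le_ncard (fun x hx => h x hx) (Set.toFinite _)
  rw [Set.ncard_coe_finset] at h3
  have h4 : Nat.card ↑(B : Set (G ⧸ ann S)) = B.card := by
    rw [Nat.card_coe_set_eq, Set.ncard_coe_finset]
  rw [h4] at h2
  rw [← h2]
  exact h3

end quot

open Pool.Agent.TH858

theorem main {N : ℕ} [NeZero N] (S : Set (ZMod N →+ UnitAddCircle))
    {A : Finset (ZMod N)} (hA : A.Nonempty) {V : ℝ} (hV : 1 ≤ V)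
    (hsize : ((bohr S (1 / 6)).ncard : ℝ) ≤ V * A.card)
    {ρ : ℝ} (hρ0 : 0 < ρ) (hρ : ρ ≤ 1 / 12) {X : Finset (ZMod N)}
    (hX : ∀ a ∈ A, ∃ x ∈ X, a - x ∈ bohr S ρ)
    {m : ℕ} (Nn : Seminorm ℝ (Fin m → ℝ)) (ψ : (Fin m → ℤ) →+ ZMod N) (hN : ∀ x, Nn x = 0 → x = 0)
    (h1 : ∀ c : Fin m → ℤ, Nn (fun i => (c i : ℝ)) < 1 / 2 → ∀ r : ℝ, 0 ≤ r →
        (ψ c ∈ bohr S r ↔ c ∈ LL Nn r))
    (h2 : ∀ x ∈ bohr S ρ, ∃ c ∈ LL Nn ρ, x - ψ c ∈ ann S) :
    ∃ (d : ℕ) (a : Fin d → ZMod N) (L : Fin d → ℕ) (T : Finset (ZMod N)), d ≤ m ∧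
      ProperH (ann S) a L ∧ ((HP (ann S) a L).card : ℝ) ≤ X.card * V * A.card ∧
      (T.card : ℝ) ≤ X.card * (V * (4 * m + 1) ^ m * (12 * m ^ 3) ^ m) ∧
      ∀ x ∈ A, ∃ t ∈ T, x - t ∈ HP (ann S) a L := by
  classical
  have hHpos : 0 < Nat.card (ann S) := Nat.card_pos
  have hHR : (0 : ℝ) < Nat.card (ann S) := by exact_mod_cast hHpos
  set Q := ZMod N ⧸ ann S
  set A' : Finset Q := A.image (pr S) with hA'
  set X' : Finset Q := X.image (pr S) with hX'
  have hAA' : A.card ≤ Nat.card (ann S) * A'.card :=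
    card_le_mul S A A' fun x hx => mem_image_of_mem _ hx
  have hV0 : 0 ≤ V := by linarith
  have hsize' : ((bohr (Sq S) (1 / 6)).ncard : ℝ) ≤ V * A'.card := by
    have h3 : (Nat.card (ann S) : ℝ) * ((bohr (Sq S) (1 / 6)).ncard : ℝ) ≤
        Nat.card (ann S) * (V * A'.card) := by
      have h4 : ((bohr S (1 / 6)).ncard : ℝ) =
          Nat.card (ann S) * ((bohr (Sq S) (1 / 6)).ncard : ℝ) := by
        rw [card_bohr S]
        push_cast
        rfl
      rw [← h4]
      refine hsize.trans ?_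
      have h5 : (A.card : ℝ) ≤ Nat.card (ann S) * A'.card := by exact_mod_cast hAA'
      calc V * A.card ≤ V * (Nat.card (ann S) * A'.card) := by gcongr
        _ = _ := by ring
    exact le_of_mul_le_mul_left h3 hHR
  have hXc : ∀ a ∈ A', ∃ x ∈ X', a - x ∈ bohr (Sq S) ρ := by
    intro a ha
    obtain ⟨y, hy, rfl⟩ := mem_image.1 ha
    obtain ⟨x, hx, hyx⟩ := hX y hy
    refine ⟨pr S x, mem_image_of_mem _ hx, ?_⟩
    rw [← map_sub]
    exact (mem_bohr_iff S _ _).2 hyx
  obtain ⟨k, v, L, T', hkm, hprop, hprod, hT', hcov⟩ := gap_final (Sq S) (Set.toFinite _)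
    (A := A') (hA.image _) hV hsize' hρ0 hρ hXc Nn ((pr S).comp ψ) hN
    (fun c hc r hr => by
      rw [AddMonoidHom.comp_apply, mem_bohr_iff]
      exact h1 c hc r hr)
    (fun y hy => by
      obtain ⟨x, rfl⟩ := QuotientAddGroup.mk'_surjective (ann S) y
      obtain ⟨c, hc, hxc⟩ := h2 x ((mem_bohr_iff S _ _).1 hy)
      refine ⟨c, hc, ?_⟩
      rw [AddMonoidHom.comp_apply, ← map_sub, (pr_eq_zero S).2 hxc]
      exact zero_mem _) (ann_Sq S)
  -- lifts
  choose lft hlft using QuotientAddGroup.mk'_surjective (ann S)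
  have hev : ∀ c : Fin k → ℤ, pr S (GP.ev (fun i => lft (v i)) c) = ∑ i, c i • v i := by
    intro c
    unfold GP.ev
    rw [map_sum]
    refine sum_congr rfl fun i _ => ?_
    rw [← zsmul_eq_mul, map_zsmul]
    congr 1
    exact hlft (v i)
  have hHP : ((HP (ann S) (fun i => lft (v i)) L).card : ℝ) ≤
      Nat.card (ann S) * A'.card := by
    have h3 := card_le_mul S (HP (ann S) (fun i => lft (v i)) L)
      ((gapBox L).image fun c => ∑ i, c i • v i) (fun x hx => by
        rw [mem_HP] at hx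
        obtain ⟨c, hc, hxc⟩ := hx
        refine mem_image.2 ⟨c, gap_mem_box.2 hc, ?_⟩
        rw [← hev c]
        have h4 := (pr_eq_zero S).2 hxc
        rw [map_sub, sub_eq_zero] at h4
        exact h4.symm)
    have h4 : ((gapBox L).image fun c => ∑ i, c i • v i).card ≤ A'.card :=
      (card_image_le.trans (gap_card_box L).le).trans hprod
    exact_mod_cast h3.trans (Nat.mul_le_mul_left _ h4)
  have hA'X : A'.card ≤ X'.card * (bohr (Sq S) (1 / 6)).ncard := by
    set B : Finset Q := (Set.toFinite (bohr (Sq S) (1 / 6))).toFinset with hB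
    have h3 : A' ⊆ X' + B := by
      intro a ha
      obtain ⟨x, hx, hax⟩ := hXc a ha
      refine mem_add.2 ⟨x, hx, a - x, ?_, by abel⟩
      rw [hB, Set.Finite.mem_toFinset]
      intro γ hγ
      exact (hax γ hγ).trans (by linarith)
    have h4 : B.card = (bohr (Sq S) (1 / 6)).ncard := by
      rw [hB, Set.ncard_eq_toFinset_card _ (Set.toFinite _)]
    rw [← h4]
    exact (card_le_card h3).trans card_add_le
  have hX'X : X'.card ≤ X.card := card_image_le
  refine ⟨k, fun i => lft (v i), L, T'.image lft, hkm, ?_, ?_, ?_, ?_⟩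
  · intro c c' hc hc' h3
    apply hprop c c' hc hc'
    have h4 := (pr_eq_zero S).2 h3
    rw [map_sub, sub_eq_zero, hev, hev] at h4
    exact h4
  · refine hHP.trans ?_
    have h3 : (Nat.card (ann S) * A'.card : ℕ) ≤ X.card * (bohr S (1 / 6)).ncard := by
      rw [card_bohr S]
      calc Nat.card (ann S) * A'.card
          ≤ Nat.card (ann S) * (X'.card * (bohr (Sq S) (1 / 6)).ncard) :=
            Nat.mul_le_mul_left _ hA'X
        _ ≤ Nat.card (ann S) * (X.card * (bohr (Sq S) (1 / 6)).ncard) :=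
            Nat.mul_le_mul_left _ (Nat.mul_le_mul_right _ hX'X)
        _ = _ := by ring
    calc (Nat.card (ann S) : ℝ) * A'.card ≤ X.card * ((bohr S (1 / 6)).ncard : ℝ) := by
          exact_mod_cast h3
      _ ≤ X.card * (V * A.card) := by gcongr
      _ = _ := by ring
  · have h3 : ((T'.image lft).card : ℝ) ≤ T'.card := by exact_mod_cast card_image_le
    refine h3.trans (hT'.trans ?_)
    have h4 : (X'.card : ℝ) ≤ X.card := by exact_mod_cast hX'X
    gcongr
  · intro x hx
    obtain ⟨t, ht, c, hc, hxt⟩ := hcov (pr S x) (mem_image_of_mem _ hx)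
    refine ⟨lft t, mem_image_of_mem _ ht, ?_⟩
    rw [mem_HP]
    refine ⟨c, hc, ?_⟩
    rw [← pr_eq_zero S, map_sub, map_sub, hev, hxt]
    have h4 : pr S (lft t) = t := hlft t
    rw [h4]
    abel

end Pool.Agent.N142.CD.FR

namespace Pool.Agent.N142.CD

open Finset H112
open scoped Pointwise

theorem t_FR : S_FR := by
  refine ⟨60000, by norm_num, ?_⟩
  intro N _ A K hA hK1 hK
  classical
  obtain ⟨κ, hκ⟩ : ∃ κ : ℝ, κ = Real.log (2 * K) := ⟨_, rfl⟩
  have hκlog2 : Real.log 2 ≤ κ := by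
    rw [hκ]; exact Real.log_le_log (by norm_num) (by linarith)
  have hκ69 : (0.69 : ℝ) < κ := lt_of_lt_of_le log_two_gt hκlog2
  obtain ⟨S, X, V, ρ, m, Nn, ψ, hfin, hV1, hsize, hρ0, hρ12, hX, hN, h1, h2, hm, hXV⟩ :=
    structure_thm hA hK hK1 hκ
  obtain ⟨d, a, L, T, hd, hprop, hvol, hT, hcov⟩ :=
    FR.main S hA hV1 hsize hρ0 hρ12 hX Nn ψ hN h1 h2
  have hlogκ : 0 ≤ Real.log (1 + κ) := Real.log_nonneg (by linarith)
  have hlog2 : Real.log (1 + κ) ≤ κ := by
    have := Real.log_le_sub_one_of_pos (show 0 < 1 + κ by linarith)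
    linarith
  have hmain : κ * (1 + Real.log (1 + κ)) ≤ 3 * κ ^ 2 := by
    have h3 : κ * (1 + Real.log (1 + κ)) ≤ κ * (1 + κ) := by
      apply mul_le_mul_of_nonneg_left _ (by linarith)
      linarith
    nlinarith
  refine ⟨ann S, d, a, L, T, ?_, hprop, ?_, ?_, hcov⟩
  · rw [← hκ]
    have : (d : ℝ) ≤ m := by exact_mod_cast hd
    exact this.trans hm
  · rw [← hκ]
    refine hvol.trans ?_
    apply mul_le_mul_of_nonneg_right _ (by positivity)
    refine hXV.trans ?_
    apply Real.exp_le_exp.2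
    nlinarith [sq_nonneg κ]
  · rw [← hκ]
    have h3 : ((4 * (m : ℝ) + 1)) ^ m ≤
        Real.exp ((300 * κ) * (8 * (1 + Real.log (1 + κ)))) :=
      pow_le_exp (by positivity) (log_4m_le hκ69 hm) hm (by positivity)
    have h4 : (12 * (m : ℝ) ^ 3) ^ m ≤
        Real.exp ((300 * κ) * (20 * (1 + Real.log (1 + κ)))) := by
      rcases Nat.eq_zero_or_pos m with h0 | hpos
      · subst h0
        rw [pow_zero]
        exact Real.one_le_exp (by positivity)
      · have hm1 : (0 : ℝ) < m := by exact_mod_cast hpos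
        exact pow_le_exp (by positivity) (log_12m_le hκ69 hm hpos) hm (by positivity)
    have hV0 : 0 ≤ V := by linarith
    calc (T.card : ℝ) ≤ X.card * (V * (4 * m + 1) ^ m * (12 * m ^ 3) ^ m) := hT
      _ = (X.card * V) * ((4 * m + 1) ^ m * (12 * m ^ 3) ^ m) := by ring
      _ ≤ Real.exp (8000 * κ * (1 + Real.log (1 + κ))) *
            (Real.exp ((300 * κ) * (8 * (1 + Real.log (1 + κ)))) *
              Real.exp ((300 * κ) * (20 * (1 + Real.log (1 + κ))))) := by
          apply mul_le_mul hXV _ (by positivity) (by positivity)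
          exact mul_le_mul h3 h4 (by positivity) (by positivity)
      _ = Real.exp (8000 * κ * (1 + Real.log (1 + κ)) +
            ((300 * κ) * (8 * (1 + Real.log (1 + κ))) +
              (300 * κ) * (20 * (1 + Real.log (1 + κ))))) := by
          rw [← Real.exp_add, ← Real.exp_add]
      _ ≤ Real.exp (60000 * κ ^ 2) := by
          apply Real.exp_le_exp.2
          nlinarith [sq_nonneg κ]

end Pool.Agent.N142.CD
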