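import Pool.Agent.N142.CD.Stm2

set_option autoImplicit false

/-! # Project CD, part INV (helper769): characters with large mean over a coset progression -/

namespace Pool.Agent.N142.CD

open Finset Pool.Agent.TH858

namespace INV

theorem norm_psi {N : ℕ} [NeZero N] (c : ZMod N) : ‖ψ c‖ = 1 := AddChar.norm_apply _ _

theorem shift {N : ℕ} [NeZero N] (X : Finset (ZMod N)) (g y : ZMod N) :
    ‖∑ s ∈ X, ψ (g * s)‖ * ‖ψ (g * y) - 1‖ ≤ 2 * (X.filter fun s => s + y ∉ X).card := by
  classical
  obtain ⟨X1, hX1⟩ : ∃ X1 : Finset (ZMod N), X1 = X.filter fun s => s + y ∈ X := ⟨_, rfl⟩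
  obtain ⟨X0, hX0⟩ : ∃ X0 : Finset (ZMod N), X0 = X.filter fun s => s + y ∉ X := ⟨_, rfl⟩
  obtain ⟨X2, hX2⟩ : ∃ X2 : Finset (ZMod N), X2 = X1.image fun s => s + y := ⟨_, rfl⟩
  have hsub : X2 ⊆ X := by
    rw [hX2]
    intro s hs
    rw [mem_image] at hs
    obtain ⟨s', hs', rfl⟩ := hs
    rw [hX1, mem_filter] at hs'
    exact hs'.2
  have hcard2 : X2.card = X1.card := by
    rw [hX2]
    exact card_image_of_injective _ (add_left_injective y)
  have hsum : X1.card + X0.card = X.card := by
    rw [hX1, hX0]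
    exact card_filter_add_card_filter_not _
  have hsd : (X \ X2).card = X0.card := by
    rw [card_sdiff_of_subset hsub]
    omega
  have e1 : (∑ s ∈ X, ψ (g * s)) * (ψ (g * y) - 1) =
      ∑ s ∈ X0, ψ (g * (s + y)) - ∑ s ∈ X \ X2, ψ (g * s) := by
    have e2 : ∑ s ∈ X, ψ (g * (s + y)) = ∑ s ∈ X1, ψ (g * (s + y)) + ∑ s ∈ X0, ψ (g * (s + y)) := by
      rw [hX1, hX0]
      exact (sum_filter_add_sum_filter_not _ _ _).symm
    have e3 : ∑ s ∈ X, ψ (g * s) = ∑ s ∈ X \ X2, ψ (g * s) + ∑ s ∈ X2, ψ (g * s) :=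
      (sum_sdiff hsub).symm
    have e4 : ∑ s ∈ X2, ψ (g * s) = ∑ s ∈ X1, ψ (g * (s + y)) := by
      rw [hX2, sum_image fun a _ b _ h => add_left_injective y h]
    have e5 : (∑ s ∈ X, ψ (g * s)) * ψ (g * y) = ∑ s ∈ X, ψ (g * (s + y)) := by
      rw [sum_mul]
      refine sum_congr rfl fun s _ => ?_
      rw [mul_add]
      exact (AddChar.map_add_eq_mul _ _ _).symm
    rw [mul_sub, mul_one, e5, e2, e3, e4]
    ring
  rw [← norm_mul, e1, ← hX0]
  refine (norm_sub_le _ _).trans ?_
  have h1 : ‖∑ s ∈ X0, ψ (g * (s + y))‖ ≤ X0.card := by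
    refine (norm_sum_le _ _).trans (le_of_eq ?_)
    rw [sum_congr rfl fun s _ => norm_psi _]
    simp
  have h2 : ‖∑ s ∈ X \ X2, ψ (g * s)‖ ≤ X0.card := by
    refine (norm_sum_le _ _).trans (le_of_eq ?_)
    rw [sum_congr rfl fun s _ => norm_psi _, ← hsd]
    simp
  linarith

/-- the integers leaving an interval under a translation by `n` -/
theorem leave (L l : ℕ) (n : ℤ) (hn : |n| ≤ l) :
    ((Finset.Icc (-(L : ℤ)) L).filter fun v => (L : ℤ) < |v + n|).card ≤ l := by
  rcases le_or_gt 0 n with h | h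
  · have hs : ((Finset.Icc (-(L : ℤ)) L).filter fun v => (L : ℤ) < |v + n|) ⊆
        Finset.Ioc ((L : ℤ) - n) L := by
      intro v hv
      rw [mem_filter, mem_Icc] at hv
      rw [mem_Ioc]
      rcases abs_cases (v + n) with h1 | h1 <;> omega
    refine (card_le_card hs).trans ?_
    rw [Int.card_Ioc]
    rw [abs_of_nonneg h] at hn
    omega
  · have hs : ((Finset.Icc (-(L : ℤ)) L).filter fun v => (L : ℤ) < |v + n|) ⊆
        Finset.Ico (-(L : ℤ)) (-(L : ℤ) - n) := by
      intro v hv
      rw [mem_filter, mem_Icc] at hv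
      rw [mem_Ico]
      rcases abs_cases (v + n) with h1 | h1 <;> omega
    refine (card_le_card hs).trans ?_
    rw [Int.card_Ico]
    rw [abs_of_neg h] at hn
    omega

theorem ev_update {N : ℕ} {d : ℕ} (a : Fin d → ZMod N) (m : Fin d → ℤ) (i : Fin d) (u : ℤ) :
    GP.ev a (Function.update m i u) = GP.ev a m + ((u - m i : ℤ) : ZMod N) * a i := by
  classical
  unfold GP.ev
  rw [← add_sum_erase _ _ (mem_univ i), ← add_sum_erase (a := i) _ (fun j => (m j : ZMod N) * a j) (mem_univ i)]
  have h : ∑ x ∈ univ.erase i, ((Function.update m i u x : ℤ) : ZMod N) * a x =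
      ∑ x ∈ univ.erase i, (m x : ZMod N) * a x := by
    refine sum_congr rfl fun j hj => ?_
    rw [Function.update_of_ne (ne_of_mem_erase hj)]
  rw [h, Function.update_self]
  push_cast
  ring

theorem ev_add {N : ℕ} {d : ℕ} (a : Fin d → ZMod N) (m n : Fin d → ℤ) :
    GP.ev a (fun i => m i + n i) = GP.ev a m + GP.ev a n := by
  unfold GP.ev
  rw [← sum_add_distrib]
  refine sum_congr rfl fun j _ => ?_
  push_cast
  ring

end INV

open INV

theorem t_INV : S_INV := by
  classical
  intro N _ H d M a L L2 L3 hP hM hL hML δ hδ y hy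
  obtain ⟨S, hS⟩ : ∃ S : Finset (ZMod N), S = HP H a L2 := ⟨_, rfl⟩
  rw [← hS] at hδ
  have hmem : ∀ x, x ∈ S ↔ ∃ m : Fin d → ℤ, (∀ i, |m i| ≤ L2 i) ∧ x - GP.ev a m ∈ H := by
    intro x
    rw [hS]
    exact mem_HP H a L2 x
  rw [mem_HP] at hy
  obtain ⟨n, hn, hyn⟩ := hy
  have hex : ∀ x, ∃ m : Fin d → ℤ, x ∈ S → (∀ i, |m i| ≤ L2 i) ∧ x - GP.ev a m ∈ H := by
    intro x
    by_cases h : x ∈ S
    · obtain ⟨m, hm⟩ := (hmem x).1 h
      exact ⟨m, fun _ => hm⟩
    · exact ⟨0, fun h' => absurd h' h⟩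
  choose μ hμ using hex
  have huniq : ∀ x ∈ S, ∀ m : Fin d → ℤ, (∀ i, |m i| ≤ L2 i) → x - GP.ev a m ∈ H → m = μ x := by
    intro x hx m hm hxm
    have h2 : ∀ i, (L2 i : ℤ) ≤ L i := fun i => by
      have := hL i
      omega
    refine hP m (μ x) (fun i => (hm i).trans (h2 i)) (fun i => ((hμ x hx).1 i).trans (h2 i)) ?_
    have := H.sub_mem (hμ x hx).2 hxm
    rw [sub_sub_sub_cancel_left] at this
    exact this
  have hE : ∀ i, ((S.filter fun s => (L2 i : ℤ) < |μ s i + n i|).card : ℝ) ≤ S.card / (2 * M) := by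
    intro i
    obtain ⟨E, hEE⟩ : ∃ E : Finset (ZMod N), E = S.filter fun s => (L2 i : ℤ) < |μ s i + n i| :=
      ⟨_, rfl⟩
    rw [← hEE]
    obtain ⟨V, hV⟩ : ∃ V : Finset ℤ, V = (Finset.Icc (-(L2 i : ℤ)) (L2 i)).filter
      fun v => (L2 i : ℤ) < |v + n i| := ⟨_, rfl⟩
    have hVc : V.card ≤ L3 i := by
      rw [hV]
      exact leave (L2 i) (L3 i) (n i) (hn i)
    -- the new point
    have hnew : ∀ s ∈ S, ∀ u ∈ Finset.Icc (-(L2 i : ℤ)) (L2 i),
        s + ((u - μ s i : ℤ) : ZMod N) * a i ∈ S ∧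
        μ (s + ((u - μ s i : ℤ) : ZMod N) * a i) = Function.update (μ s) i u := by
      intro s hs u hu
      have h1 : ∀ j, |Function.update (μ s) i u j| ≤ L2 j := by
        intro j
        by_cases hj : j = i
        · subst hj
          rw [Function.update_self, abs_le]
          rw [mem_Icc] at hu
          exact hu
        · rw [Function.update_of_ne hj]
          exact (hμ s hs).1 j
      have h2 : s + ((u - μ s i : ℤ) : ZMod N) * a i - GP.ev a (Function.update (μ s) i u) ∈ H := by
        rw [ev_update]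
        have h3 : s + ((u - μ s i : ℤ) : ZMod N) * a i -
            (GP.ev a (μ s) + ((u - μ s i : ℤ) : ZMod N) * a i) = s - GP.ev a (μ s) := by ring
        rw [h3]
        exact (hμ s hs).2
      have h4 : s + ((u - μ s i : ℤ) : ZMod N) * a i ∈ S := (hmem _).2 ⟨_, h1, h2⟩
      exact ⟨h4, (huniq _ h4 _ h1 h2).symm⟩
    have hcard : (E ×ˢ Finset.Icc (-(L2 i : ℤ)) (L2 i)).card ≤ (S ×ˢ V).card := by
      refine card_le_card_of_injOn
        (fun p => (p.1 + ((p.2 - μ p.1 i : ℤ) : ZMod N) * a i, μ p.1 i)) ?_ ?_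
      · rintro ⟨s, u⟩ hp
        rw [mem_coe, mem_product] at hp
        rw [mem_coe, mem_product]
        have hs := hp.1
        rw [hEE, mem_filter] at hs
        refine ⟨(hnew s hs.1 u hp.2).1, ?_⟩
        rw [hV, mem_filter, mem_Icc, ← abs_le]
        exact ⟨(hμ s hs.1).1 i, hs.2⟩
      · rintro ⟨s, u⟩ hp ⟨s', u'⟩ hp' heq
        rw [mem_coe, mem_product] at hp hp'
        have hs := hp.1
        have hs' := hp'.1
        rw [hEE, mem_filter] at hs hs'
        have h1 := hnew s hs.1 u hp.2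
        have h2 := hnew s' hs'.1 u' hp'.2
        obtain ⟨e1, e2⟩ := Prod.mk.inj heq
        simp only at e1 e2
        have h3 : Function.update (μ s) i u = Function.update (μ s') i u' := by
          rw [← h1.2, ← h2.2, e1]
        have h4 : u = u' := by
          have := congrFun h3 i
          rwa [Function.update_self, Function.update_self] at this
        subst h4
        rw [e2] at e1
        have h5 : s = s' := add_right_cancel e1
        rw [h5]
    rw [card_product, card_product, Int.card_Icc] at hcard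
    have hc1 : ((L2 i : ℤ) + 1 - -(L2 i : ℤ)).toNat = 2 * L2 i + 1 := by omega
    rw [hc1] at hcard
    have hM0 : (0 : ℝ) < 2 * M := by
      have : (1 : ℝ) ≤ M := by exact_mod_cast hM
      linarith
    rw [le_div_iff₀ hM0]
    have hgoal : E.card * (2 * M) ≤ S.card := by
      rcases Nat.eq_zero_or_pos (L3 i) with h0 | h0
      · have hV0 : V.card = 0 := by omega
        rw [hV0, mul_zero] at hcard
        have hE0 : E.card = 0 := by
          rcases Nat.eq_zero_or_pos E.card with h | h
          · exact h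
          · have : 0 < E.card * (2 * L2 i + 1) := Nat.mul_pos h (by omega)
            omega
        rw [hE0]
        omega
      · have h1 := hML i
        have h2 : E.card * (2 * M) * L3 i ≤ S.card * L3 i := by
          calc E.card * (2 * M) * L3 i = E.card * (2 * (M * L3 i)) := by ring
            _ ≤ E.card * (2 * L2 i + 1) := Nat.mul_le_mul_left _ (by omega)
            _ ≤ S.card * V.card := hcard
            _ ≤ S.card * L3 i := Nat.mul_le_mul_left _ hVc
        exact Nat.le_of_mul_le_mul_right h2 h0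
    exact_mod_cast hgoal
  -- the number of points leaving `S`
  have hout : ((S.filter fun s => s + y ∉ S).card : ℝ) ≤ d * (S.card / (2 * M)) := by
    have hsub : (S.filter fun s => s + y ∉ S) ⊆
        Finset.univ.biUnion fun i : Fin d => S.filter fun s => (L2 i : ℤ) < |μ s i + n i| := by
      intro s hs
      rw [mem_filter] at hs
      rw [mem_biUnion]
      by_contra hcon
      push Not at hcon
      apply hs.2
      rw [hmem]
      refine ⟨fun i => μ s i + n i, fun i => ?_, ?_⟩
      · have h1 := hcon i (mem_univ i)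
        rw [mem_filter] at h1
        by_contra h2
        push Not at h2
        exact h1 ⟨hs.1, h2⟩
      · rw [ev_add]
        have h3 : s + y - (GP.ev a (μ s) + GP.ev a n) = (s - GP.ev a (μ s)) + (y - GP.ev a n) := by
          ring
        rw [h3]
        exact H.add_mem (hμ s hs.1).2 hyn
    have h1 : (S.filter fun s => s + y ∉ S).card ≤
        ∑ i : Fin d, (S.filter fun s => (L2 i : ℤ) < |μ s i + n i|).card :=
      (card_le_card hsub).trans card_biUnion_le
    calc ((S.filter fun s => s + y ∉ S).card : ℝ) ≤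
        ((∑ i : Fin d, (S.filter fun s => (L2 i : ℤ) < |μ s i + n i|).card : ℕ) : ℝ) := by
          exact_mod_cast h1
      _ = ∑ i : Fin d, ((S.filter fun s => (L2 i : ℤ) < |μ s i + n i|).card : ℝ) := by
          push_cast
          rfl
      _ ≤ ∑ _i : Fin d, ((S.card : ℝ) / (2 * M)) := sum_le_sum fun i _ => hE i
      _ = d * (S.card / (2 * M)) := by simp
  have hS0 : (0 : ℝ) < S.card := by
    have : (0 : ZMod N) ∈ S := by
      rw [hmem]
      refine ⟨0, fun i => by simp, ?_⟩
      have : GP.ev a (0 : Fin d → ℤ) = 0 := by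
        unfold GP.ev
        simp
      rw [this, sub_zero]
      exact H.zero_mem
    exact_mod_cast card_pos.2 ⟨0, this⟩
  have hM0 : (0 : ℝ) < M := by exact_mod_cast hM
  have hsh := shift S δ y
  have h1 : (S.card : ℝ) / 2 * ‖ψ (δ * y) - 1‖ ≤ 2 * (d * (S.card / (2 * M))) :=
    (mul_le_mul_of_nonneg_right hδ (norm_nonneg _)).trans (hsh.trans (by linarith))
  have h2 : 2 * ((d : ℝ) * (S.card / (2 * M))) = S.card / 2 * (2 * d / M) := by
    field_simp
  rw [h2] at h1
  exact le_of_mul_le_mul_left h1 (by positivity)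

end Pool.Agent.N142.CD
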