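import Pool.Agent.N142.CD.Stm2

/-!
# CD/LCH: Chang's theorem relative to a set `S` (helper415 for helper142)

Rudin's argument as in `CD/CHANG.lean` (helper916), with the sum over `y + s_1 + ... + s_m`,
`y ∈ Y`, `s_i ∈ S`, in place of the sum over the whole group.
-/

set_option autoImplicit false
set_option linter.all false

open scoped Classical

namespace Pool.Agent.N142.CD.LCH

open Finset
open Pool.Agent.N142.CD
open scoped ComplexConjugate

variable {N : ℕ} [NeZero N]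

/-- large mean over `S` -/
def DD (S : Finset (ZMod N)) (δ : ZMod N) : Prop := (S.card : ℝ) / 2 ≤ ‖∑ s ∈ S, ψ (δ * s)‖

/-- no nontrivial combination with coefficients 0, 1, -1 has a large mean over `S` -/
def Dis (S Λ : Finset (ZMod N)) : Prop :=
  ∀ e : ZMod N → ℤ, (∀ z, e z = 0 ∨ e z = 1 ∨ e z = -1) → DD S (∑ z ∈ Λ, (e z : ZMod N) * z) →
    ∀ z ∈ Λ, e z = 0

theorem norm_psi (x : ZMod N) : ‖(ψ x : ℂ)‖ = 1 := AddChar.norm_apply _ _

theorem psi_zero : (ψ (0 : ZMod N) : ℂ) = 1 := AddChar.map_zero_eq_one _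

theorem psi_add (x y : ZMod N) : (ψ (x + y) : ℂ) = ψ x * ψ y := AddChar.map_add_eq_mul _ _ _

theorem psi_neg (x : ZMod N) : (ψ (-x) : ℂ) = conj (ψ x : ℂ) := AddChar.map_neg_eq_conj _ _

theorem DD_zero (S : Finset (ZMod N)) : DD S 0 := by
  unfold DD
  have h : ∑ s ∈ S, (ψ ((0 : ZMod N) * s) : ℂ) = (S.card : ℂ) := by
    rw [sum_congr rfl fun s _ => by rw [zero_mul, psi_zero], sum_const, nsmul_eq_mul, mul_one]
  rw [h, Complex.norm_natCast]
  have : (0 : ℝ) ≤ S.card := Nat.cast_nonneg _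
  linarith

theorem DD_neg (S : Finset (ZMod N)) (δ : ZMod N) (h : DD S δ) : DD S (-δ) := by
  unfold DD at h ⊢
  have h1 : ∑ s ∈ S, (ψ (-δ * s) : ℂ) = conj (∑ s ∈ S, (ψ (δ * s) : ℂ)) := by
    rw [map_sum]
    refine sum_congr rfl fun s _ => ?_
    rw [neg_mul, psi_neg]
  rw [h1, RCLike.norm_conj]
  exact h

/-- the sum with a frequency over `J` with values `v` -/
noncomputable def SS {ι : Type} (J : Finset ι) (v : ι → ZMod N) (c0 : ℂ) (a b : ZMod N → ℂ)
    (c : ZMod N) (Λ : Finset (ZMod N)) : ℂ :=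
  ∑ j ∈ J, ψ (c * v j) * ∏ z ∈ Λ, (c0 + a z * ψ (z * v j) + b z * ψ (-(z * v j)))

theorem SS_insert {ι : Type} (J : Finset ι) (v : ι → ZMod N) (c0 : ℂ) (a b : ZMod N → ℂ)
    (c z : ZMod N) (Λ : Finset (ZMod N)) (hz : z ∉ Λ) :
    SS J v c0 a b c (insert z Λ) = c0 * SS J v c0 a b c Λ + a z * SS J v c0 a b (c + z) Λ +
      b z * SS J v c0 a b (c - z) Λ := by
  unfold SS
  rw [mul_sum, mul_sum, mul_sum, ← sum_add_distrib, ← sum_add_distrib]
  refine sum_congr rfl fun j _ => ?_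
  rw [prod_insert hz]
  have h1 : (ψ ((c + z) * v j) : ℂ) = ψ (c * v j) * ψ (z * v j) := by
    rw [add_mul, psi_add]
  have h2 : (ψ ((c - z) * v j) : ℂ) = ψ (c * v j) * ψ (-(z * v j)) := by
    rw [sub_mul, sub_eq_add_neg, psi_add]
  rw [h1, h2]
  ring

theorem SS_empty {ι : Type} (J : Finset ι) (v : ι → ZMod N) (c0 : ℂ) (a b : ZMod N → ℂ)
    (c : ZMod N) : SS J v c0 a b c ∅ = ∑ j ∈ J, ψ (c * v j) := by
  unfold SS
  refine sum_congr rfl fun j _ => ?_
  rw [prod_empty, mul_one]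

theorem sum_update (e : ZMod N → ℤ) (z : ZMod N) (v : ℤ) (Λ : Finset (ZMod N)) (hz : z ∉ Λ) :
    ∑ w ∈ Λ, ((Function.update e z v w : ℤ) : ZMod N) * w = ∑ w ∈ Λ, (e w : ZMod N) * w := by
  refine sum_congr rfl fun w hw => ?_
  have h : w ≠ z := fun h => hz (h ▸ hw)
  rw [Function.update_of_ne h]

theorem upd_ok {e : ZMod N → ℤ} (he : ∀ z, e z = 0 ∨ e z = 1 ∨ e z = -1) (z : ZMod N) {v : ℤ}
    (hv : v = 0 ∨ v = 1 ∨ v = -1) (w : ZMod N) :
    Function.update e z v w = 0 ∨ Function.update e z v w = 1 ∨ Function.update e z v w = -1 := by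
  by_cases h : w = z
  · subst h; rw [Function.update_self]; exact hv
  · rw [Function.update_of_ne h]; exact he w

theorem norm_step {x y w c0 a b : ℂ} {C s M M' : ℝ} (hc : ‖c0‖ ≤ C) (ha : ‖a‖ ≤ s / 2)
    (hb : ‖b‖ ≤ s / 2) (hx : ‖x‖ ≤ M) (hy : ‖y‖ ≤ M') (hw : ‖w‖ ≤ M') (hC : 0 ≤ C) (hs : 0 ≤ s) :
    ‖c0 * x + a * y + b * w‖ ≤ C * M + s * M' := by
  have hM' : 0 ≤ M' := (norm_nonneg _).trans hy
  calc ‖c0 * x + a * y + b * w‖ ≤ ‖c0 * x‖ + ‖a * y‖ + ‖b * w‖ := norm_add₃_le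
    _ = ‖c0‖ * ‖x‖ + ‖a‖ * ‖y‖ + ‖b‖ * ‖w‖ := by rw [norm_mul, norm_mul, norm_mul]
    _ ≤ C * M + s / 2 * M' + s / 2 * M' := by
        refine add_le_add (add_le_add ?_ ?_) ?_
        · exact mul_le_mul hc hx (norm_nonneg _) hC
        · exact mul_le_mul ha hy (norm_nonneg _) (by linarith)
        · exact mul_le_mul hb hw (norm_nonneg _) (by linarith)
    _ = C * M + s * M' := by ring

theorem SS_small {ι : Type} (S : Finset (ZMod N)) (J : Finset ι) (v : ι → ZMod N) (c0 : ℂ)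
    (a b : ZMod N → ℂ) {C s B : ℝ} (hC : 0 ≤ C) (hs : 0 ≤ s) (hc : ‖c0‖ ≤ C)
    (ha : ∀ z, ‖a z‖ ≤ s / 2) (hb : ∀ z, ‖b z‖ ≤ s / 2)
    (hB : ∀ c, ¬ DD S c → ‖∑ j ∈ J, (ψ (c * v j) : ℂ)‖ ≤ B) (Λ : Finset (ZMod N)) :
    ∀ c : ZMod N, (∀ e : ZMod N → ℤ, (∀ z, e z = 0 ∨ e z = 1 ∨ e z = -1) →
      ¬ DD S (∑ z ∈ Λ, (e z : ZMod N) * z + c)) → ‖SS J v c0 a b c Λ‖ ≤ (C + s) ^ Λ.card * B := by
  induction Λ using Finset.induction_on with
  | empty =>
    intro c h
    rw [SS_empty, card_empty, pow_zero, one_mul]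
    refine hB c ?_
    have := h (fun _ => 0) (fun _ => Or.inl rfl)
    simpa using this
  | insert z Λ hz ih =>
    intro c h
    have key : ∀ u : ℤ, (u = 0 ∨ u = 1 ∨ u = -1) →
        ‖SS J v c0 a b (c + u * z) Λ‖ ≤ (C + s) ^ Λ.card * B := by
      intro u hu
      refine ih _ fun e he h0 => h (Function.update e z u) (upd_ok he z hu) ?_
      rw [sum_insert hz, sum_update _ _ _ _ hz, Function.update_self]
      have e1 : (u : ZMod N) * z + ∑ w ∈ Λ, (e w : ZMod N) * w + c =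
          ∑ w ∈ Λ, (e w : ZMod N) * w + (c + u * z) := by ring
      rw [e1]
      exact h0
    rw [SS_insert _ _ _ _ _ _ _ _ hz]
    have k0 := key 0 (Or.inl rfl)
    have k1 := key 1 (Or.inr (Or.inl rfl))
    have k2 := key (-1) (Or.inr (Or.inr rfl))
    have e0 : c + ((0 : ℤ) : ZMod N) * z = c := by push_cast; ring
    have e1 : c + ((1 : ℤ) : ZMod N) * z = c + z := by push_cast; ring
    have e2 : c + ((-1 : ℤ) : ZMod N) * z = c - z := by push_cast; ring
    rw [e0] at k0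
    rw [e1] at k1
    rw [e2] at k2
    refine (norm_step hc (ha z) (hb z) k0 k1 k2 hC hs).trans (le_of_eq ?_)
    rw [card_insert_of_notMem hz, pow_succ]
    ring

theorem Dis_sub {S Λ Λ' : Finset (ZMod N)} (hΛ : Dis S Λ) (h : Λ' ⊆ Λ) : Dis S Λ' := by
  intro e he hd z hz
  have h1 := hΛ (fun w => if w ∈ Λ' then e w else 0) (fun w => by
    by_cases hw : w ∈ Λ'
    · simpa [hw] using he w
    · simp [hw]) (by
    have h2 : ∑ w ∈ Λ, (((if w ∈ Λ' then e w else 0 : ℤ)) : ZMod N) * w =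
        ∑ w ∈ Λ', (e w : ZMod N) * w := by
      rw [← sum_subset h]
      · refine sum_congr rfl fun w hw => ?_
        rw [if_pos hw]
      · intro w _ hw
        rw [if_neg hw]
        simp
    rw [h2]
    exact hd) z (h hz)
  simpa [hz] using h1

theorem SS_dis {ι : Type} (S : Finset (ZMod N)) (J : Finset ι) (v : ι → ZMod N) (c0 : ℂ)
    (a b : ZMod N → ℂ) {C s B : ℝ} (hB0 : 0 ≤ B) (hC : 0 ≤ C) (hs : 0 ≤ s) (hc : ‖c0‖ ≤ C)
    (ha : ∀ z, ‖a z‖ ≤ s / 2) (hb : ∀ z, ‖b z‖ ≤ s / 2)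
    (hB : ∀ c, ¬ DD S c → ‖∑ j ∈ J, (ψ (c * v j) : ℂ)‖ ≤ B) (Λ : Finset (ZMod N))
    (hΛ : Dis S Λ) :
    ‖SS J v c0 a b 0 Λ‖ ≤ J.card * C ^ Λ.card + (C + s) ^ Λ.card * B := by
  induction Λ using Finset.induction_on with
  | empty =>
    rw [SS_empty, card_empty, pow_zero, pow_zero, one_mul, mul_one]
    have h1 : ‖∑ j ∈ J, (ψ ((0 : ZMod N) * v j) : ℂ)‖ ≤ J.card := by
      refine (norm_sum_le _ _).trans ?_
      rw [sum_congr rfl fun j _ => norm_psi _, sum_const, nsmul_eq_mul, mul_one]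
    linarith
  | insert z Λ hz ih =>
    have hd : Dis S Λ := Dis_sub hΛ (subset_insert _ _)
    have h1 : ‖SS J v c0 a b (0 + z) Λ‖ ≤ (C + s) ^ Λ.card * B := by
      refine SS_small S J v c0 a b hC hs hc ha hb hB Λ _ fun e he h0 => ?_
      have h2 := hΛ (Function.update e z 1) (upd_ok he z (Or.inr (Or.inl rfl))) (by
        rw [sum_insert hz, sum_update _ _ _ _ hz, Function.update_self]
        have e1 : ((1 : ℤ) : ZMod N) * z + ∑ w ∈ Λ, (e w : ZMod N) * w =
          ∑ w ∈ Λ, (e w : ZMod N) * w + (0 + z) := by push_cast; ring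
        rw [e1]
        exact h0) z (mem_insert_self _ _)
      rw [Function.update_self] at h2
      exact one_ne_zero h2
    have h2 : ‖SS J v c0 a b (0 - z) Λ‖ ≤ (C + s) ^ Λ.card * B := by
      refine SS_small S J v c0 a b hC hs hc ha hb hB Λ _ fun e he h0 => ?_
      have h2 := hΛ (Function.update e z (-1)) (upd_ok he z (Or.inr (Or.inr rfl))) (by
        rw [sum_insert hz, sum_update _ _ _ _ hz, Function.update_self]
        have e1 : ((-1 : ℤ) : ZMod N) * z + ∑ w ∈ Λ, (e w : ZMod N) * w =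
          ∑ w ∈ Λ, (e w : ZMod N) * w + (0 - z) := by push_cast; ring
        rw [e1]
        exact h0) z (mem_insert_self _ _)
      rw [Function.update_self] at h2
      exact absurd h2 (by norm_num)
    rw [SS_insert _ _ _ _ _ _ _ _ hz]
    refine (norm_step hc (ha z) (hb z) (ih hd) h1 h2 hC hs).trans (le_of_eq ?_)
    rw [card_insert_of_notMem hz, pow_succ, pow_succ]
    ring

theorem Jhat (Y S : Finset (ZMod N)) (m : ℕ) (c : ZMod N) :
    ∑ j ∈ Y ×ˢ Fintype.piFinset (fun _ : Fin m => S), (ψ (c * (j.1 + ∑ i, j.2 i)) : ℂ) =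
      (∑ y ∈ Y, ψ (c * y)) * (∑ s ∈ S, ψ (c * s)) ^ m := by
  have h0 : (∑ s ∈ S, (ψ (c * s) : ℂ)) ^ m =
      ∑ s ∈ Fintype.piFinset (fun _ : Fin m => S), ∏ i, (ψ (c * s i) : ℂ) := by
    rw [← prod_univ_sum (fun _ : Fin m => S) (fun _ s => (ψ (c * s) : ℂ)), prod_const, card_univ,
      Fintype.card_fin]
  rw [sum_product, h0, sum_mul]
  refine sum_congr rfl fun y _ => ?_
  rw [mul_sum]
  refine sum_congr rfl fun s _ => ?_
  rw [mul_add, psi_add, mul_sum]
  congr 1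
  have h5 : ∀ (I : Finset (Fin m)), (ψ (∑ i ∈ I, c * s i) : ℂ) = ∏ i ∈ I, (ψ (c * s i) : ℂ) := by
    intro I
    induction I using Finset.induction_on with
    | empty => rw [sum_empty, prod_empty, psi_zero]
    | insert i I hi ih => rw [sum_insert hi, prod_insert hi, psi_add, ih]
  exact h5 univ

theorem low (X Y S : Finset (ZMod N)) (m : ℕ) (hS : ∀ s ∈ S, -s ∈ S)
    (hXY : ∀ x ∈ X, ∀ s : Fin m → ZMod N, (∀ i, s i ∈ S) → x + ∑ i, s i ∈ Y) (P : ZMod N → ℝ)
    (hP : ∀ x, 0 ≤ P x) : (S.card : ℝ) ^ m * ∑ x ∈ X, P x ≤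
      ∑ j ∈ Y ×ˢ Fintype.piFinset (fun _ : Fin m => S), P (j.1 + ∑ i, j.2 i) := by
  rw [sum_product_right]
  have h1 : (S.card : ℝ) ^ m * ∑ x ∈ X, P x =
      ∑ s ∈ Fintype.piFinset (fun _ : Fin m => S), ∑ x ∈ X, P x := by
    rw [sum_const, Fintype.card_piFinset_const, nsmul_eq_mul, Nat.cast_pow]
  rw [h1]
  refine sum_le_sum fun s hs => ?_
  have hs' := Fintype.mem_piFinset.1 hs
  have h2 : ∑ x ∈ X, P x = ∑ y ∈ X.image (fun x => x - ∑ i, s i), P (y + ∑ i, s i) := by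
    rw [sum_image]
    · refine sum_congr rfl fun x _ => ?_
      rw [sub_add_cancel]
    · intro x _ x' _ h
      exact sub_left_injective h
  rw [h2]
  refine sum_le_sum_of_subset_of_nonneg ?_ fun y _ _ => hP _
  intro y hy
  obtain ⟨x, hx, rfl⟩ := mem_image.1 hy
  have h3 := hXY x hx (fun i => -s i) (fun i => hS _ (hs' i))
  rw [sum_neg_distrib, ← sub_eq_add_neg] at h3
  exact h3

theorem exp_half_le {y : ℝ} (h1 : -1 ≤ y) (h2 : y ≤ 1) :
    Real.exp (y / 2) ≤ Real.cosh (1 / 2) + Real.sinh (1 / 2) * y := by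
  have h := convexOn_exp.2 (Set.mem_univ (1 / 2 : ℝ)) (Set.mem_univ (-(1 / 2) : ℝ))
    (show (0 : ℝ) ≤ (1 + y) / 2 by linarith) (show (0 : ℝ) ≤ (1 - y) / 2 by linarith) (by ring)
  simp only [smul_eq_mul] at h
  have e1 : (1 + y) / 2 * (1 / 2) + (1 - y) / 2 * (-(1 / 2)) = y / 2 := by ring
  rw [e1] at h
  refine h.trans (le_of_eq ?_)
  rw [Real.cosh_eq, Real.sinh_eq]
  ring

theorem exp_half_lt : Real.exp (1 / 2) ≤ 2 := by
  have h1 : Real.exp (1 / 2) ^ 2 ≤ 2 ^ 2 := by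
    rw [← Real.exp_nat_mul]
    have h2 := Real.exp_one_lt_d9
    have e : ((2 : ℕ) : ℝ) * (1 / 2) = 1 := by norm_num
    rw [e]
    linarith
  exact le_of_sq_le_sq h1 (by norm_num)

theorem card_bound (T X Y S Λ : Finset (ZMod N)) (t : ZMod N) (m : ℕ) (hT : T.Nonempty)
    (hS0 : S.Nonempty) (hS : ∀ s ∈ S, -s ∈ S) (hTX : ∀ x ∈ T, x - t ∈ X)
    (hXY : ∀ x ∈ X, ∀ s : Fin m → ZMod N, (∀ i, s i ∈ S) → x + ∑ i, s i ∈ Y)
    (hY : (Y.card : ℝ) ≤ 2 * X.card) (hm : Λ.card ≤ m)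
    (hSp : ∀ z ∈ Λ, (T.card : ℝ) / 2 ≤ ‖∑ x ∈ T, ψ (z * x)‖) (hΛ : Dis S Λ) :
    (Λ.card : ℝ) ≤ 8 * Real.log (4 * X.card / T.card) := by
  have hTc : (0 : ℝ) < T.card := by exact_mod_cast hT.card_pos
  have hSc : (0 : ℝ) < S.card := by exact_mod_cast hS0.card_pos
  have hXc : (0 : ℝ) < X.card := by
    obtain ⟨x, hx⟩ := hT
    exact_mod_cast card_pos.2 ⟨_, hTX x hx⟩
  set h : ZMod N → ℂ := fun z => ∑ x ∈ T, ψ (z * (x - t)) with hh
  have hnorm : ∀ z, ‖h z‖ = ‖∑ x ∈ T, (ψ (z * x) : ℂ)‖ := by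
    intro z
    have h1 : h z = (∑ x ∈ T, (ψ (z * x) : ℂ)) * ψ (-(z * t)) := by
      rw [hh]
      simp only
      rw [sum_mul]
      refine sum_congr rfl fun x _ => ?_
      rw [mul_sub, sub_eq_add_neg, psi_add]
    rw [h1, norm_mul, norm_psi, mul_one]
  have hSp' : ∀ z ∈ Λ, (T.card : ℝ) / 2 ≤ ‖h z‖ := fun z hz => by
    rw [hnorm]
    exact hSp z hz
  set u : ZMod N → ℂ := fun z => conj (h z) / ‖h z‖ with hu
  have hu1 : ∀ z, ‖u z‖ ≤ 1 := by
    intro z
    rw [hu]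
    simp only
    rw [norm_div, RCLike.norm_conj]
    simp only [Complex.norm_real, norm_norm]
    exact div_self_le_one _
  have huh : ∀ z ∈ Λ, u z * h z = ‖h z‖ := by
    intro z hz
    have h0 : (0 : ℝ) < ‖h z‖ := lt_of_lt_of_le (by linarith) (hSp' z hz)
    have h1 : (‖h z‖ : ℂ) ≠ 0 := by exact_mod_cast h0.ne'
    rw [hu]
    simp only
    rw [div_mul_eq_mul_div, div_eq_iff h1, mul_comm, Complex.mul_conj, Complex.normSq_eq_norm_sq]
    push_cast
    ring
  set Xf : ZMod N → ℝ := fun x => ∑ z ∈ Λ, (u z * ψ (z * x)).re with hXf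
  have hsum : (Λ.card : ℝ) * (T.card / 2) ≤ ∑ x ∈ T, Xf (x - t) := by
    rw [hXf]
    simp only
    rw [sum_comm, ← nsmul_eq_mul, ← sum_const]
    refine sum_le_sum fun z hz => ?_
    have h1 : ∑ x ∈ T, (u z * ψ (z * (x - t))).re = (u z * h z).re := by
      rw [hh]
      simp only
      rw [mul_sum, Complex.re_sum]
    rw [h1, huh z hz, Complex.ofReal_re]
    exact hSp' z hz
  set c : ℝ := Real.cosh (1 / 2) with hc
  set s : ℝ := Real.sinh (1 / 2) with hs
  have hc0 : 0 ≤ c := (Real.cosh_pos _).le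
  have hs0 : 0 ≤ s := Real.sinh_nonneg_iff.2 (by norm_num)
  have hcs : c + s = Real.exp (1 / 2) := Real.cosh_add_sinh _
  have hre : ∀ z x, |(u z * ψ (z * x)).re| ≤ 1 := by
    intro z x
    refine (Complex.abs_re_le_norm _).trans ?_
    rw [norm_mul, norm_psi, mul_one]
    exact hu1 z
  have hlow : Real.exp (Λ.card / 4) * T.card ≤ ∑ x ∈ T, Real.exp (Xf (x - t) / 2) := by
    have h1 : ∀ x ∈ T, Real.exp (Λ.card / 4) * (1 + (Xf (x - t) / 2 - Λ.card / 4)) ≤
        Real.exp (Xf (x - t) / 2) := by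
      intro x _
      have h2 := Real.add_one_le_exp (Xf (x - t) / 2 - Λ.card / 4)
      have h3 : Real.exp (Xf (x - t) / 2) =
          Real.exp (Λ.card / 4) * Real.exp (Xf (x - t) / 2 - Λ.card / 4) := by
        rw [← Real.exp_add]; congr 1; ring
      rw [h3]
      refine mul_le_mul_of_nonneg_left (by linarith) (Real.exp_pos _).le
    refine le_trans ?_ (sum_le_sum h1)
    rw [← mul_sum]
    refine mul_le_mul_of_nonneg_left ?_ (Real.exp_pos _).le
    rw [sum_add_distrib, sum_sub_distrib, sum_const, sum_const, ← sum_div, nsmul_eq_mul,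
      nsmul_eq_mul]
    nlinarith [hsum]
  obtain ⟨P, hP⟩ : ∃ P : ZMod N → ℝ, P = fun x => ∏ z ∈ Λ, (c + s * (u z * ψ (z * x)).re) :=
    ⟨_, rfl⟩
  have hprod : ∀ x : ZMod N, Real.exp (Xf x / 2) ≤ P x := by
    intro x
    rw [hXf, hP]
    simp only
    rw [sum_div, Real.exp_sum]
    refine prod_le_prod (fun z _ => (Real.exp_pos _).le) fun z _ => ?_
    have h1 := abs_le.1 (hre z x)
    exact exp_half_le h1.1 h1.2
  have hP0 : ∀ x, 0 ≤ P x := fun x => (Real.exp_pos _).le.trans (hprod x)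
  have hTXs : ∑ x ∈ T, Real.exp (Xf (x - t) / 2) ≤ ∑ x ∈ X, P x := by
    have h1 : ∑ x ∈ T, P (x - t) = ∑ y ∈ T.image (fun x => x - t), P y := by
      rw [sum_image]
      intro x _ x' _ h
      exact sub_left_injective h
    refine (sum_le_sum fun x _ => hprod (x - t)).trans ?_
    rw [h1]
    refine sum_le_sum_of_subset_of_nonneg ?_ fun y _ _ => hP0 _
    intro y hy
    obtain ⟨x, hx, rfl⟩ := mem_image.1 hy
    exact hTX x hx
  -- upper bound
  set J := Y ×ˢ Fintype.piFinset (fun _ : Fin m => S) with hJ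
  have hJc : (J.card : ℝ) = Y.card * (S.card : ℝ) ^ m := by
    rw [hJ, card_product, Fintype.card_piFinset_const]
    push_cast
    ring
  have hB : ∀ d : ZMod N, ¬ DD S d →
      ‖∑ j ∈ J, (ψ (d * (j.1 + ∑ i, j.2 i)) : ℂ)‖ ≤ Y.card * ((S.card : ℝ) / 2) ^ m := by
    intro d hd
    rw [hJ, Jhat, norm_mul, norm_pow]
    refine mul_le_mul ?_ ?_ (by positivity) (by positivity)
    · refine (norm_sum_le _ _).trans ?_
      rw [sum_congr rfl fun j _ => norm_psi _, sum_const, nsmul_eq_mul, mul_one]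
    · unfold DD at hd
      push Not at hd
      exact pow_le_pow_left₀ (norm_nonneg _) hd.le m
  have hup : (S.card : ℝ) ^ m * ∑ x ∈ X, P x ≤
      (Y.card * (S.card : ℝ) ^ m) * c ^ Λ.card +
        Real.exp (1 / 2) ^ Λ.card * (Y.card * ((S.card : ℝ) / 2) ^ m) := by
    refine (low X Y S m hS hXY P hP0).trans ?_
    have h2 := SS_dis S J (fun j => j.1 + ∑ i, j.2 i) (c : ℂ) (fun z => (s / 2 : ℂ) * u z)
      (fun z => (s / 2 : ℂ) * conj (u z)) (by positivity) hc0 hs0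
      (by rw [Complex.norm_real, Real.norm_of_nonneg hc0])
      (fun z => by
        rw [norm_mul]
        have e : ‖(s / 2 : ℂ)‖ = s / 2 := by
          rw [show (s / 2 : ℂ) = ((s / 2 : ℝ) : ℂ) by push_cast; rfl, Complex.norm_real,
            Real.norm_of_nonneg (by positivity)]
        rw [e]
        have := hu1 z
        nlinarith)
      (fun z => by
        rw [norm_mul, RCLike.norm_conj]
        have e : ‖(s / 2 : ℂ)‖ = s / 2 := by
          rw [show (s / 2 : ℂ) = ((s / 2 : ℝ) : ℂ) by push_cast; rfl, Complex.norm_real,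
            Real.norm_of_nonneg (by positivity)]
        rw [e]
        have := hu1 z
        nlinarith) hB Λ hΛ
    rw [hJc, hcs] at h2
    refine le_trans ?_ h2
    have h3 : ((∑ j ∈ J, P (j.1 + ∑ i, j.2 i) : ℝ) : ℂ) =
        SS J (fun j => j.1 + ∑ i, j.2 i) (c : ℂ) (fun z => (s / 2 : ℂ) * u z)
          (fun z => (s / 2 : ℂ) * conj (u z)) 0 Λ := by
      unfold SS
      rw [Complex.ofReal_sum]
      refine sum_congr rfl fun j _ => ?_
      rw [zero_mul, psi_zero, one_mul, hP, Complex.ofReal_prod]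
      refine prod_congr rfl fun z _ => ?_
      rw [psi_neg, Complex.ofReal_add, Complex.ofReal_mul]
      have h6 : (((u z * ψ (z * (j.1 + ∑ i, j.2 i))).re : ℝ) : ℂ) =
          (u z * ψ (z * (j.1 + ∑ i, j.2 i)) + conj (u z * ψ (z * (j.1 + ∑ i, j.2 i)))) / 2 :=
        Complex.re_eq_add_conj _
      rw [h6, map_mul]
      ring
    rw [← h3, Complex.norm_real]
    exact le_abs_self _
  have hc1 : c ^ Λ.card ≤ Real.exp (Λ.card / 8) := by
    have h1 : c ≤ Real.exp (1 / 8) := by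
      have h2 := Real.cosh_le_exp_half_sq (1 / 2)
      have h3 : ((1 / 2 : ℝ) ^ 2 / 2) = 1 / 8 := by norm_num
      rw [h3] at h2
      exact h2
    refine (pow_le_pow_left₀ hc0 h1 _).trans (le_of_eq ?_)
    rw [← Real.exp_nat_mul]
    congr 1
    ring
  have hSm : (0 : ℝ) < (S.card : ℝ) ^ m := by positivity
  have h2m : Real.exp (1 / 2) ^ Λ.card * ((S.card : ℝ) / 2) ^ m ≤ (S.card : ℝ) ^ m := by
    have h1 : Real.exp (1 / 2) ^ Λ.card ≤ 2 ^ m :=
      (pow_le_pow_left₀ (Real.exp_pos _).le exp_half_lt _).trans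
        (pow_le_pow_right₀ (by norm_num) hm)
    calc Real.exp (1 / 2) ^ Λ.card * ((S.card : ℝ) / 2) ^ m ≤ 2 ^ m * ((S.card : ℝ) / 2) ^ m :=
          mul_le_mul_of_nonneg_right h1 (by positivity)
      _ = (S.card : ℝ) ^ m := by
          rw [← mul_pow]
          congr 1
          ring
  have hY0 : (0 : ℝ) ≤ Y.card := Nat.cast_nonneg _
  have he1 : (1 : ℝ) ≤ Real.exp (Λ.card / 8) := Real.one_le_exp (by positivity)
  have hXP : ∑ x ∈ X, P x ≤ 4 * X.card * Real.exp (Λ.card / 8) := by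
    have h1 : (S.card : ℝ) ^ m * ∑ x ∈ X, P x ≤
        (S.card : ℝ) ^ m * (4 * X.card * Real.exp (Λ.card / 8)) := by
      refine hup.trans ?_
      have h3 : (Y.card : ℝ) * (S.card : ℝ) ^ m * c ^ Λ.card ≤
          Y.card * (S.card : ℝ) ^ m * Real.exp (Λ.card / 8) :=
        mul_le_mul_of_nonneg_left hc1 (by positivity)
      have h4 : Real.exp (1 / 2) ^ Λ.card * (Y.card * ((S.card : ℝ) / 2) ^ m) ≤
          Y.card * (S.card : ℝ) ^ m * Real.exp (Λ.card / 8) := by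
        calc Real.exp (1 / 2) ^ Λ.card * (Y.card * ((S.card : ℝ) / 2) ^ m) =
              Y.card * (Real.exp (1 / 2) ^ Λ.card * ((S.card : ℝ) / 2) ^ m) := by ring
          _ ≤ Y.card * (S.card : ℝ) ^ m := mul_le_mul_of_nonneg_left h2m hY0
          _ ≤ Y.card * (S.card : ℝ) ^ m * Real.exp (Λ.card / 8) :=
              le_mul_of_one_le_right (by positivity) he1
      have h5 : (Y.card : ℝ) * ((S.card : ℝ) ^ m * Real.exp (Λ.card / 8)) ≤
          2 * X.card * ((S.card : ℝ) ^ m * Real.exp (Λ.card / 8)) :=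
        mul_le_mul_of_nonneg_right hY (by positivity)
      nlinarith
    exact le_of_mul_le_mul_left h1 hSm
  have hfin : Real.exp (Λ.card / 8) ≤ 4 * X.card / T.card := by
    rw [le_div_iff₀ hTc]
    have h1 : Real.exp (Λ.card / 4) * T.card ≤ 4 * X.card * Real.exp (Λ.card / 8) :=
      hlow.trans (hTXs.trans hXP)
    have h2 : Real.exp ((Λ.card : ℝ) / 4) = Real.exp (Λ.card / 8) * Real.exp (Λ.card / 8) := by
      rw [← Real.exp_add]; congr 1; ring
    rw [h2] at h1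
    have h3 := Real.exp_pos ((Λ.card : ℝ) / 8)
    have h4 : Real.exp ((Λ.card : ℝ) / 8) * (Real.exp ((Λ.card : ℝ) / 8) * T.card) ≤
        Real.exp ((Λ.card : ℝ) / 8) * (4 * X.card) := by
      calc _ = Real.exp ((Λ.card : ℝ) / 8) * Real.exp ((Λ.card : ℝ) / 8) * T.card := by ring
        _ ≤ _ := h1
        _ = _ := by ring
    exact le_of_mul_le_mul_left h4 h3
  have h9 : (Λ.card : ℝ) / 8 ≤ Real.log (4 * X.card / T.card) := by
    rw [Real.le_log_iff_exp_le (by positivity)]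
    exact hfin
  linarith

end Pool.Agent.N142.CD.LCH

namespace Pool.Agent.N142.CD

open Finset LCH

theorem t_LCH : S_LCH := by
  intro N _ T X Y S t m n hT hS0 hS hTX hXY hY hn hm
  set Sp : Finset (ZMod N) := univ.filter
    (fun γ => (T.card : ℝ) / 2 ≤ ‖∑ t ∈ T, ψ (γ * t)‖) with hSp
  have hne : (Sp.powerset.filter fun Λ => Dis S Λ).Nonempty := by
    refine ⟨∅, ?_⟩
    rw [mem_filter]
    exact ⟨empty_mem_powerset _, fun e _ _ z hz => absurd hz (notMem_empty z)⟩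
  obtain ⟨Λ, hΛ, hmax⟩ := exists_max_image _ card hne
  rw [mem_filter, mem_powerset] at hΛ
  refine ⟨Λ, ?_, fun γ hγ => ?_⟩
  · by_contra hcon
    push Not at hcon
    obtain ⟨Λ', h1, h2⟩ := exists_subset_card_eq (Nat.succ_le_of_lt hcon)
    have h3 := card_bound T X Y S Λ' t m hT hS0 hS hTX hXY hY (by rw [h2]; exact hm)
      (fun z hz => (mem_filter.1 (hΛ.1 (h1 hz))).2) (Dis_sub hΛ.2 h1)
    have h4 := h3.trans hn
    rw [h2] at h4
    push_cast at h4
    linarith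
  by_cases hg : γ ∈ Λ
  · refine ⟨fun z => if z = γ then 1 else 0, fun z => ?_, ?_⟩
    · by_cases h : z = γ
      · exact Or.inr (Or.inl (if_pos h))
      · exact Or.inl (if_neg h)
    · have h1 : γ - ∑ z ∈ Λ, (((if z = γ then 1 else 0 : ℤ)) : ZMod N) * z = 0 := by
        rw [sum_eq_single γ]
        · simp
        · intro z _ hz
          simp [hz]
        · intro h
          exact absurd hg h
      rw [h1]
      exact DD_zero S
  · have h1 : ¬ Dis S (insert γ Λ) := by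
      intro hd
      have h2 := hmax (insert γ Λ) (by
        rw [mem_filter, mem_powerset]
        refine ⟨insert_subset ?_ hΛ.1, hd⟩
        rw [hSp, mem_filter]
        exact ⟨mem_univ _, hγ⟩)
      rw [card_insert_of_notMem hg] at h2
      omega
    unfold Dis at h1
    push Not at h1
    obtain ⟨e, he, h0, z, hz, hz0⟩ := h1
    rw [sum_insert hg] at h0
    rcases he γ with h | h | h
    · exfalso
      rw [h] at h0
      have h2 := hΛ.2 e he (by simpa using h0)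
      rcases mem_insert.1 hz with h3 | h3
      · exact hz0 (h3 ▸ h)
      · exact hz0 (h2 z h3)
    · refine ⟨fun z => - e z, fun z => ?_, ?_⟩
      · rcases he z with h' | h' | h'
        · left; simp [h']
        · right; right; simp [h']
        · right; left; simp [h']
      · rw [h] at h0
        have h3 : ∑ z ∈ Λ, ((-e z : ℤ) : ZMod N) * z = - ∑ z ∈ Λ, (e z : ZMod N) * z := by
          rw [← sum_neg_distrib]
          exact sum_congr rfl fun z _ => by push_cast; ring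
        have h4 : γ - ∑ z ∈ Λ, ((-e z : ℤ) : ZMod N) * z =
            ((1 : ℤ) : ZMod N) * γ + ∑ z ∈ Λ, (e z : ZMod N) * z := by
          rw [h3]; push_cast; ring
        rw [h4]
        exact h0
    · refine ⟨e, he, ?_⟩
      rw [h] at h0
      have h4 : γ - ∑ z ∈ Λ, (e z : ZMod N) * z =
          -(((-1 : ℤ) : ZMod N) * γ + ∑ z ∈ Λ, (e z : ZMod N) * z) := by
        push_cast; ring
      rw [h4]
      exact DD_neg S _ h0

end Pool.Agent.N142.CD
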