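import Pool.Agent.N142.CD.Stm

/-!
Project CD (helper142), part MOM: moments of a sum of `k` independent samples.
-/

set_option autoImplicit false

namespace Pool.Agent.N142.CD

open Finset

namespace MOM

lemma two_fact (n : ℕ) (hn : 2 ≤ n) : 2 * n.factorial ≤ n ^ n := by
  induction n, hn using Nat.le_induction with
  | base => decide
  | succ n hn ih =>
    rw [Nat.factorial_succ, pow_succ]
    calc 2 * ((n + 1) * n.factorial) = (2 * n.factorial) * (n + 1) := by ring
      _ ≤ n ^ n * (n + 1) := Nat.mul_le_mul_right _ ih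
      _ ≤ (n + 1) ^ n * (n + 1) := Nat.mul_le_mul_right _ (Nat.pow_le_pow_left (by omega) _)

lemma pow_le_exp (x : ℝ) (m : ℕ) :
    x ^ (2 * m) / (2 * m).factorial ≤ Real.exp x + Real.exp (-x) := by
  have h1 : |x| ^ (2 * m) / (2 * m).factorial ≤ Real.exp |x| :=
    Real.pow_div_factorial_le_exp |x| (abs_nonneg x) (2 * m)
  have h2 : |x| ^ (2 * m) = x ^ (2 * m) := by rw [pow_mul, sq_abs, ← pow_mul]
  rw [h2] at h1
  refine h1.trans ?_
  rcases abs_choice x with h | h <;> rw [h]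
  · linarith [Real.exp_pos (-x)]
  · linarith [Real.exp_pos x]

/-- the exponential moment -/
lemma exp_sum {G : Type} (A : Finset G) (y : G → ℝ) (k : ℕ) (hy : ∀ b ∈ A, |y b| ≤ 1)
    (hs : ∑ b ∈ A, y b = 0) (t : ℝ) :
    ∑ a ∈ Fintype.piFinset (fun _ : Fin k => A), Real.exp (t * ∑ i, y (a i)) ≤
      (A.card * Real.exp (t ^ 2 / 2)) ^ k := by
  have h1 : ∑ a ∈ Fintype.piFinset (fun _ : Fin k => A), Real.exp (t * ∑ i, y (a i)) =
      (∑ b ∈ A, Real.exp (y b * t)) ^ k := by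
    have h := Finset.prod_univ_sum (fun _ : Fin k => A) (fun _ b => Real.exp (y b * t))
    rw [prod_const, card_univ, Fintype.card_fin] at h
    rw [h]
    apply sum_congr rfl
    intro a _
    rw [← Real.exp_sum]
    congr 1
    rw [mul_sum]
    apply sum_congr rfl
    intro i _
    ring
  rw [h1]
  apply pow_le_pow_left₀ (sum_nonneg fun b _ => (Real.exp_pos _).le)
  calc ∑ b ∈ A, Real.exp (y b * t) ≤ ∑ b ∈ A, (Real.cosh t + y b * Real.sinh t) :=
        sum_le_sum fun b hb => Real.exp_mul_le_cosh_add_mul_sinh (hy b hb) t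
    _ = A.card * Real.cosh t := by
        rw [sum_add_distrib, sum_const, nsmul_eq_mul, ← sum_mul, hs, zero_mul, add_zero]
    _ ≤ A.card * Real.exp (t ^ 2 / 2) :=
        mul_le_mul_of_nonneg_left (Real.cosh_le_exp_half_sq t) (Nat.cast_nonneg _)

end MOM

open MOM

theorem t_MOM : S_MOM := by
  intro G A f k m hA hk hm hf
  have hcard : (0 : ℝ) < A.card := by exact_mod_cast hA.card_pos
  set F : ℝ := (∑ b ∈ A, f b) / A.card with hF
  have hF0 : 0 ≤ F := div_nonneg (sum_nonneg fun b hb => (hf b hb).1) hcard.le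
  have hF1 : F ≤ 1 := by
    rw [hF, div_le_one hcard]
    calc ∑ b ∈ A, f b ≤ ∑ b ∈ A, (1 : ℝ) := sum_le_sum fun b hb => (hf b hb).2
      _ = A.card := by simp
  have hy : ∀ b ∈ A, |f b - F| ≤ 1 := by
    intro b hb
    rw [abs_le]
    constructor <;> linarith [(hf b hb).1, (hf b hb).2]
  have hs : ∑ b ∈ A, (f b - F) = 0 := by
    rw [sum_sub_distrib, sum_const, nsmul_eq_mul, hF]
    field_simp
    ring
  have hmR : (1 : ℝ) ≤ m := by exact_mod_cast hm
  have hkR : (1 : ℝ) ≤ k := by exact_mod_cast hk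
  set t : ℝ := √(2 * m / k) with ht
  have ht2 : t ^ 2 = 2 * m / k := Real.sq_sqrt (by positivity)
  have e1 := exp_sum A (fun b => f b - F) k hy hs t
  have e2 := exp_sum A (fun b => f b - F) k hy hs (-t)
  rw [neg_sq] at e2
  have e3 : ((A.card : ℝ) * Real.exp (t ^ 2 / 2)) ^ k = (A.card : ℝ) ^ k * Real.exp 1 ^ m := by
    rw [mul_pow, ← Real.exp_nat_mul, ← Real.exp_nat_mul, ht2]
    congr 2
    field_simp
  rw [e3] at e1 e2
  set P := ∑ a ∈ Fintype.piFinset (fun _ : Fin k => A), (∑ i, (f (a i) - F)) ^ (2 * m) with hP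
  have e4 : (t ^ 2) ^ m / ((2 * m).factorial : ℝ) * P ≤ 2 * ((A.card : ℝ) ^ k * Real.exp 1 ^ m) := by
    calc (t ^ 2) ^ m / ((2 * m).factorial : ℝ) * P
        = ∑ a ∈ Fintype.piFinset (fun _ : Fin k => A),
            (t * ∑ i, (f (a i) - F)) ^ (2 * m) / ((2 * m).factorial : ℝ) := by
          rw [hP, mul_sum]
          apply sum_congr rfl
          intro a _
          rw [mul_pow, ← pow_mul]; ring
      _ ≤ ∑ a ∈ Fintype.piFinset (fun _ : Fin k => A),
            (Real.exp (t * ∑ i, (f (a i) - F)) + Real.exp (-t * ∑ i, (f (a i) - F))) := by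
          apply sum_le_sum
          intro a _
          have := pow_le_exp (t * ∑ i, (f (a i) - F)) m
          rwa [← neg_mul] at this
      _ ≤ 2 * ((A.card : ℝ) ^ k * Real.exp 1 ^ m) := by
          rw [sum_add_distrib]; linarith
  have hfact : 2 * ((2 * m).factorial : ℝ) ≤ (2 * m : ℝ) ^ (2 * m) := by
    exact_mod_cast two_fact (2 * m) (by omega)
  have hfpos : (0 : ℝ) < ((2 * m).factorial : ℝ) := by exact_mod_cast Nat.factorial_pos _
  have htpos : 0 < (t ^ 2) ^ m := by rw [ht2]; positivity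
  have he : Real.exp 1 ≤ 3 := by linarith [Real.exp_one_lt_d9]
  -- multiply out
  have e5 : (t ^ 2) ^ m * P ≤ (2 * m : ℝ) ^ (2 * m) * ((A.card : ℝ) ^ k * Real.exp 1 ^ m) := by
    have h1 : (t ^ 2) ^ m * P = ((2 * m).factorial : ℝ) * ((t ^ 2) ^ m / ((2 * m).factorial : ℝ) * P) := by
      field_simp
    rw [h1]
    calc ((2 * m).factorial : ℝ) * ((t ^ 2) ^ m / ((2 * m).factorial : ℝ) * P)
        ≤ ((2 * m).factorial : ℝ) * (2 * ((A.card : ℝ) ^ k * Real.exp 1 ^ m)) :=
          mul_le_mul_of_nonneg_left e4 hfpos.le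
      _ = (2 * ((2 * m).factorial : ℝ)) * ((A.card : ℝ) ^ k * Real.exp 1 ^ m) := by ring
      _ ≤ _ := mul_le_mul_of_nonneg_right hfact (by positivity)
  have e6 : (2 * m : ℝ) ^ (2 * m) * ((A.card : ℝ) ^ k * Real.exp 1 ^ m) ≤
      (t ^ 2) ^ m * ((A.card : ℝ) ^ k * (6 * m * k) ^ m) := by
    have h2 : (2 * m : ℝ) ^ (2 * m) = (t ^ 2) ^ m * (2 * m * k) ^ m := by
      rw [pow_mul, ← mul_pow, ht2]
      congr 1
      field_simp
    rw [h2]
    have h3 : (2 * m * k : ℝ) ^ m * Real.exp 1 ^ m ≤ (6 * m * k) ^ m := by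
      rw [← mul_pow]
      apply pow_le_pow_left₀ (by positivity)
      nlinarith [mul_nonneg (by linarith : (0 : ℝ) ≤ m) (by linarith : (0 : ℝ) ≤ k)]
    calc (t ^ 2) ^ m * (2 * m * k : ℝ) ^ m * ((A.card : ℝ) ^ k * Real.exp 1 ^ m)
        = (t ^ 2) ^ m * ((A.card : ℝ) ^ k * ((2 * m * k : ℝ) ^ m * Real.exp 1 ^ m)) := by ring
      _ ≤ _ := by
        apply mul_le_mul_of_nonneg_left _ htpos.le
        exact mul_le_mul_of_nonneg_left h3 (by positivity)
  exact le_of_mul_le_mul_left (e5.trans e6) htpos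

end Pool.Agent.N142.CD
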