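import Pool.Agent.TH858.GP.Two
import Pool.Agent.N142.CD.Stm

set_option autoImplicit false

namespace Pool.Agent.N142.CD

open Finset Pool.Agent.TH858
open scoped Pointwise

/-- Going from a small radius to a large one at the cost of more frequencies. -/
theorem rad {N : ℕ} [NeZero N] (c : ZMod N) (D : ℕ) (hD : 1 ≤ D) (n : ℕ) 
    (h : ∀ i < n + 1, CB.nn (((D ^ i : ℕ) : ZMod N) * c) ≤ 1 / (4 * D)) :
    CB.nn c ≤ 1 / (4 * D ^ (n + 1)) := by
  have hD0 : (0 : ℝ) < D := by exact_mod_cast hD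
  have hD1 : (1 : ℝ) ≤ D := by exact_mod_cast hD
  obtain ⟨θ, hθ⟩ : ∃ θ : ℝ, θ = (c.val : ℝ) / N + ((-round ((c.val : ℝ) / N) : ℤ) : ℝ) := ⟨_, rfl⟩
  have hmul : ∀ i : ℕ, CB.nint ((D : ℝ) ^ i * θ) = CB.nn (((D ^ i : ℕ) : ZMod N) * c) := by
    intro i
    have := CB.nint_mul c ((D ^ i : ℕ) : ℤ) (-round ((c.val : ℝ) / N))
    rw [hθ]
    push_cast at this ⊢
    exact this
  have hθabs : |θ| = CB.nn c := by
    rw [hθ]
    unfold CB.nn CB.nint
    congr 1
    push_cast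
    ring
  have key : ∀ i < n + 1, |(D : ℝ) ^ i * θ| ≤ 1 / (4 * D) := by
    intro i
    induction i with
    | zero =>
      intro _
      have h0 := h 0 (by omega)
      have h1 : CB.nn (((D ^ 0 : ℕ) : ZMod N) * c) = CB.nn c := by simp
      rw [h1] at h0
      rw [pow_zero, one_mul, hθabs]
      exact h0
    | succ i ih =>
      intro hi
      have h1 := ih (by omega)
      have h2 : |(D : ℝ) ^ (i + 1) * θ| ≤ 1 / 4 := by
        have : (D : ℝ) ^ (i + 1) * θ = D * ((D : ℝ) ^ i * θ) := by ring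
        rw [this, abs_mul, abs_of_pos hD0]
        calc (D : ℝ) * |(D : ℝ) ^ i * θ| ≤ D * (1 / (4 * D)) := by gcongr
          _ = 1 / 4 := by field_simp
      have h3 := h (i + 1) hi
      rw [← hmul, CB.nint_of_small (by linarith)] at h3
      exact h3
  have h3 := key n (by omega)
  rw [abs_mul, abs_of_pos (by positivity)] at h3
  rw [← hθabs]
  have h4 : |θ| ≤ 1 / (4 * D) / D ^ n := by
    rw [le_div_iff₀ (by positivity)]
    linarith
  calc |θ| ≤ 1 / (4 * D) / D ^ n := h4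
    _ = 1 / (4 * D ^ (n + 1)) := by rw [div_div, pow_succ]; ring

/-- The passage from a dissociated set to a Bohr set of large radius. -/
theorem bohr_small {N : ℕ} [NeZero N] (Λ : Finset (ZMod N)) (R n : ℕ) (hR : 2 ≤ R) (K : ℝ) (hK : 1 ≤ K)
    (hn : 4 * Real.pi * K * Λ.card ≤ (R : ℝ) ^ (n + 1)) (y : ZMod N)
    (hy : ∀ z ∈ Λ, ∀ i < n + 1, CB.nn (((R ^ i : ℕ) : ZMod N) * z * y) ≤ 1 / (4 * R))
    (ε : ZMod N → ℤ) (hε : ∀ z, ε z = 0 ∨ ε z = 1 ∨ ε z = -1) :
    ‖ψ ((∑ z ∈ Λ, (ε z : ZMod N) * z) * y) - 1‖ ≤ 1 / (8 * K) := by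
  have hR0 : (0 : ℝ) < R := by exact_mod_cast (by omega : 0 < R)
  have h1 : ∀ z ∈ Λ, ‖ψ ((ε z : ZMod N) * z * y) - 1‖ ≤ 2 * Real.pi * (1 / (4 * R ^ (n + 1))) := by
    intro z hz
    have h2 : CB.nn (z * y) ≤ 1 / (4 * R ^ (n + 1)) :=
      rad (z * y) R (by omega) n fun i hi => by
        have := hy z hz i hi
        rwa [mul_assoc] at this
    have h3 : ‖(ψ (z * y) : ℂ) - 1‖ ≤ 2 * Real.pi * (1 / (4 * R ^ (n + 1))) :=
      (GP.norm_ψ_sub_one_le (z * y)).trans (by gcongr)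
    have hp := Real.pi_pos
    rcases hε z with h | h | h
    · rw [h]
      simp only [Int.cast_zero, zero_mul]
      have h4 : ψ (0 : ZMod N) = 1 := GP.ψ_zero
      rw [h4, sub_self, norm_zero]
      positivity
    · rw [h]
      simpa using h3
    · rw [h]
      have : (((-1 : ℤ) : ZMod N) * z * y) = -(z * y) := by push_cast; ring
      rw [this]
      exact (GP.norm_ψ_sub_one_neg (z * y)).le.trans h3
  rw [sum_mul]
  refine (GP.norm_ψ_sub_one_sum Λ _).trans ((sum_le_sum h1).trans ?_)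
  rw [sum_const, nsmul_eq_mul, le_div_iff₀ (by positivity)]
  have hRp : (0 : ℝ) < (R : ℝ) ^ (n + 1) := by positivity
  have h4 : (Λ.card : ℝ) * (2 * Real.pi * (1 / (4 * (R : ℝ) ^ (n + 1)))) * (8 * K) =
      (4 * Real.pi * K * Λ.card) / (R : ℝ) ^ (n + 1) := by
    field_simp
    ring
  rw [h4, div_le_one hRp]
  exact hn

end Pool.Agent.N142.CD
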