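import Pool.Agent.TH858.GP.Coset
import Pool.Agent.N142.CD.Stm

/-!
# Project CD, part 2 (helper142): sets of larger doubling

Statements of the parts.
-/

set_option autoImplicit false

namespace Pool.Agent.N142.CD

open Finset Pool.Agent.TH858
open scoped Pointwise

/-- the coset progression `H + {∑ m_i a_i : |m_i| ≤ L_i}` -/
noncomputable def HP {N : ℕ} [NeZero N] (H : AddSubgroup (ZMod N)) {d : ℕ} (a : Fin d → ZMod N)
    (L : Fin d → ℕ) : Finset (ZMod N) := by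
  classical
  exact univ.filter fun x => ∃ m : Fin d → ℤ, (∀ i, |m i| ≤ L i) ∧ x - GP.ev a m ∈ H

theorem mem_HP {N : ℕ} [NeZero N] (H : AddSubgroup (ZMod N)) {d : ℕ} (a : Fin d → ZMod N)
    (L : Fin d → ℕ) (x : ZMod N) :
    x ∈ HP H a L ↔ ∃ m : Fin d → ℤ, (∀ i, |m i| ≤ L i) ∧ x - GP.ev a m ∈ H := by
  classical
  unfold HP
  rw [mem_filter]
  simp

/-- the progression is proper modulo `H` -/
def ProperH {N : ℕ} (H : AddSubgroup (ZMod N)) {d : ℕ} (a : Fin d → ZMod N) (L : Fin d → ℕ) : Prop :=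
  ∀ m m' : Fin d → ℤ, (∀ i, |m i| ≤ L i) → (∀ i, |m' i| ≤ L i) → GP.ev a m - GP.ev a m' ∈ H → m = m'

/-- FR: a set of doubling `K` is covered by few translates of a proper coset progression of comparable size -/
def S_FR : Prop := ∃ C : ℝ, 1 ≤ C ∧ ∀ (N : ℕ) [NeZero N] (A : Finset (ZMod N)) (K : ℝ), A.Nonempty → 1 ≤ K →
  ((A + A).card : ℝ) ≤ K * A.card →
  ∃ (H : AddSubgroup (ZMod N)) (d : ℕ) (a : Fin d → ZMod N) (L : Fin d → ℕ) (T : Finset (ZMod N)),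
    (d : ℝ) ≤ 300 * Real.log (2 * K) ∧ ProperH H a L ∧
    ((HP H a L).card : ℝ) ≤ Real.exp (C * Real.log (2 * K) ^ 2) * A.card ∧
    (T.card : ℝ) ≤ Real.exp (C * Real.log (2 * K) ^ 2) ∧ ∀ x ∈ A, ∃ t ∈ T, x - t ∈ HP H a L

/-- VOL: the number of elements of a coset progression -/
def S_VOL : Prop := ∀ (N : ℕ) [NeZero N] (H : AddSubgroup (ZMod N)) (d : ℕ) (a : Fin d → ZMod N) (L : Fin d → ℕ),
  (HP H a L).card ≤ Nat.card H * ∏ i, (2 * L i + 1) ∧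
  (ProperH H a L → (HP H a L).card = Nat.card H * ∏ i, (2 * L i + 1))

/-- INV: characters with large mean over a coset progression are almost constant on a shorter one -/
def S_INV : Prop := ∀ (N : ℕ) [NeZero N] (H : AddSubgroup (ZMod N)) (d M : ℕ) (a : Fin d → ZMod N)
  (L L₂ L₃ : Fin d → ℕ), ProperH H a L → 1 ≤ M → (∀ i, L₂ i + L₃ i ≤ L i) → (∀ i, M * L₃ i ≤ L₂ i) →
  ∀ δ : ZMod N, ((HP H a L₂).card : ℝ) / 2 ≤ ‖∑ s ∈ HP H a L₂, ψ (δ * s)‖ →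
    ∀ y ∈ HP H a L₃, ‖ψ (δ * y) - 1‖ ≤ 2 * d / M

/-- LCH: Chang's theorem for a dense subset `T` of a translate of `X`, modulo the characters with large mean over
a set `S` with `X + m S ⊆ Y`, `|Y| ≤ 2 |X|` -/
def S_LCH : Prop := ∀ (N : ℕ) [NeZero N] (T X Y S : Finset (ZMod N)) (t : ZMod N) (m n : ℕ),
  T.Nonempty → S.Nonempty → (∀ s ∈ S, -s ∈ S) → (∀ x ∈ T, x - t ∈ X) →
  (∀ x ∈ X, ∀ s : Fin m → ZMod N, (∀ i, s i ∈ S) → x + ∑ i, s i ∈ Y) → (Y.card : ℝ) ≤ 2 * X.card →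
  8 * Real.log (4 * X.card / T.card) ≤ n → n + 1 ≤ m →
  ∃ Λ : Finset (ZMod N), Λ.card ≤ n ∧ ∀ γ : ZMod N, (T.card : ℝ) / 2 ≤ ‖∑ x ∈ T, ψ (γ * x)‖ →
    ∃ ε : ZMod N → ℤ, (∀ z, ε z = 0 ∨ ε z = 1 ∨ ε z = -1) ∧
      (S.card : ℝ) / 2 ≤ ‖∑ s ∈ S, ψ ((γ - ∑ z ∈ Λ, (ε z : ZMod N) * z) * s)‖

end Pool.Agent.N142.CD
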