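import Pool.Agent.N142.CD.Stm2

/-!
# Project CD, part 2 (helper142): the number of elements of a coset progression
-/

set_option autoImplicit false

namespace Pool.Agent.N142.CD

open Finset Pool.Agent.TH858
open scoped Pointwise

theorem t_VOL : S_VOL := by
  classical
  intro N _ H d a L
  obtain ⟨HF, hHF⟩ : ∃ HF : Finset (ZMod N), HF = univ.filter (fun x => x ∈ H) := ⟨_, rfl⟩
  have hmem : ∀ x, x ∈ HF ↔ x ∈ H := by
    intro x
    rw [hHF, mem_filter]
    simp
  have hcard : HF.card = Nat.card H := by
    rw [Nat.card_eq_fintype_card, hHF]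
    exact (Fintype.card_subtype (fun x => x ∈ H)).symm
  have himg : HP H a L = (HF ×ˢ GP.box L).image (fun p => p.1 + GP.ev a p.2) := by
    ext x
    rw [mem_HP, mem_image]
    constructor
    · rintro ⟨m, hm, hx⟩
      refine ⟨(x - GP.ev a m, m), ?_, by simp⟩
      rw [mem_product, hmem, GP.mem_box]
      exact ⟨hx, hm⟩
    · rintro ⟨⟨h, m⟩, hp, rfl⟩
      rw [mem_product, hmem, GP.mem_box] at hp
      refine ⟨m, hp.2, ?_⟩
      simpa using hp.1
  constructor
  · rw [himg, ← hcard, ← GP.card_box, ← card_product]
    exact card_image_le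
  · intro hp
    rw [himg, card_image_of_injOn, card_product, hcard, GP.card_box]
    rintro ⟨h, m⟩ h1 ⟨h', m'⟩ h2 he
    rw [mem_coe, mem_product, hmem, GP.mem_box] at h1 h2
    simp only at he h1 h2
    have h3 : GP.ev a m - GP.ev a m' = h' - h := by
      linear_combination he
    have h4 : m = m' := hp m m' h1.2 h2.2 (by rw [h3]; exact H.sub_mem h2.1 h1.1)
    subst h4
    have h5 : h = h' := by
      linear_combination he
    rw [h5]

end Pool.Agent.N142.CD
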